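import Pool.Agent.Y347.CO.Hj

set_option autoImplicit false

/-!
# Statements of further parts
-/

namespace Pool.Agent.Y347.CO

open Finset Function

/-- large affine families which are not good -/
def S_AFFSH : Prop :=
  ∀ d m : ℕ, 1 ≤ d → ∃ S : Finset (Finset (Fin d → Fin ((d + 1) * m))), ¬ Good S ∧
    (∀ A ∈ S, ∀ B ∈ S, ∀ C ∈ S, symmDiff A (symmDiff B C) ∈ S) ∧
    S.card * 2 ^ m = 2 ^ (((d + 1) * m) ^ d)

/-- sets of words over `F_p` that are closed under `a - b + c` for some identifications of the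
alphabets with `F_p`, without a progression of length `k` -/
def S_AFFP : Prop :=
  ∀ (p k n : ℕ) [Fact p.Prime] (A : Finset (Fin n → ZMod p)) (σ : Fin n → ZMod p ≃ ZMod p),
    1 ≤ k → k ≤ p →
    (∀ x y : Fin n → ZMod p, (∀ j : ℕ, j < k → x + j • y ∈ A) → y = 0) →
    (∀ a ∈ A, ∀ b ∈ A, ∀ c ∈ A,
      (fun i => (σ i).symm (σ i (a i) - σ i (b i) + σ i (c i))) ∈ A) →
    A.card ^ ((k - 1) * (p - 1) + 1) * p ^ n ≤ (p ^ n) ^ ((k - 1) * (p - 1) + 1)

end Pool.Agent.Y347.CO
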