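import Pool.Agent.Y347.CO.Local

set_option autoImplicit false

/-!
# Bounds for local families
-/

namespace Pool.Agent.Y347.CO

open Finset Function

section
variable {ι : Type} [Fintype ι] [DecidableEq ι] {D : ι → Type} [∀ i, Fintype (D i)]
  [∀ i, DecidableEq (D i)]

theorem card_le_exp (A : Finset (∀ i, D i)) {L : ℝ} (hL : ∀ a ∈ A, ∑ i, avgLog A a i ≤ L) :
    (A.card : ℝ) ≤ Real.exp L := by
  have h1 := sum_exp_avgLog A
  have h2 : ∑ _a ∈ A, Real.exp (-L) ≤ ∑ a ∈ A, Real.exp (-∑ i, avgLog A a i) :=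
    sum_le_sum fun a ha => Real.exp_le_exp.2 (neg_le_neg (hL a ha))
  rw [sum_const, nsmul_eq_mul] at h2
  have h3 := h2.trans h1
  rw [Real.exp_neg] at h3
  have h4 := Real.exp_pos L
  rwa [← div_eq_mul_inv, div_le_one h4] at h3

/-- **Local families of bits with many critical coordinates**: every word of `A` has at least `k`
critical coordinates. -/
theorem local_bits {r : ℕ} (hr : 1 ≤ r) {A : Finset (∀ i, D i)} (hA : IsLocal r A)
    (hD : ∀ i, Fintype.card (D i) = 2) (k : ℕ)
    (hk : ∀ a ∈ A, ∃ J : Finset ι, k ≤ J.card ∧ ∀ i ∈ J, ∃ e : D i, update a i e ∉ A) :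
    (A.card : ℝ) ≤ (2 : ℝ) ^ ((Fintype.card ι : ℝ) - k / r) := by
  have hr0 : (0 : ℝ) < r := by exact_mod_cast hr
  have hlog : 0 < Real.log 2 := Real.log_pos (by norm_num)
  have h := card_le_exp A (L := ((Fintype.card ι : ℝ) - k / r) * Real.log 2) ?_
  · rwa [Real.rpow_def_of_pos (by norm_num), mul_comm (Real.log 2)]
  intro a ha
  obtain ⟨J, hJ, hcrit⟩ := hk a ha
  have h1 : ∀ i, avgLog A a i ≤ (1 - (if i ∈ J then (1 : ℝ) else 0) / r) * Real.log 2 := by
    intro i
    split_ifs with hi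
    · have := avgLog_le_crit hr hA ha (hcrit i hi)
      rw [hD i] at this
      norm_num at this
      simpa using this
    · have := avgLog_le A ha i
      rw [hD i] at this
      simpa using this
  refine (sum_le_sum fun i _ => h1 i).trans ?_
  rw [← sum_mul]
  apply mul_le_mul_of_nonneg_right _ hlog.le
  rw [sum_sub_distrib, ← sum_div, sum_ite_mem, univ_inter, sum_const, sum_const, card_univ,
    nsmul_eq_mul, nsmul_eq_mul, mul_one, mul_one]
  have h2 : (k : ℝ) / r ≤ J.card / r := div_le_div_of_nonneg_right (by exact_mod_cast hJ) hr0.le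
  linarith

open Classical in
/-- **Local families with short lines.** -/
theorem local_fib {r : ℕ} (hr : 1 ≤ r) {A : Finset (∀ i, D i)} (hA : IsLocal r A) {q f : ℕ}
    (hq : 1 ≤ q) (hfq : f ≤ q) (hD : ∀ i, Fintype.card (D i) = q)
    (hf : ∀ a ∈ A, ∀ i, (univ.filter fun e : D i => update a i e ∈ A).card ≤ f) :
    (A.card : ℝ) ≤ ((q : ℝ) - (q - f) / r) ^ Fintype.card ι := by
  have hr1 : (1 : ℝ) ≤ r := by exact_mod_cast hr
  have hr0 : (0 : ℝ) < r := by linarith
  have hq1 : (1 : ℝ) ≤ q := by exact_mod_cast hq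
  have hfq' : (f : ℝ) ≤ q := by exact_mod_cast hfq
  rcases A.eq_empty_or_nonempty with rfl | ⟨a₀, ha₀⟩
  · rw [card_empty, Nat.cast_zero]
    apply pow_nonneg
    have : ((q : ℝ) - f) / r ≤ q - f := div_le_self (by linarith) hr1
    have : (0 : ℝ) ≤ f := Nat.cast_nonneg _
    linarith
  rcases isEmpty_or_nonempty ι with hι | ⟨⟨i₀⟩⟩
  · rw [Fintype.card_eq_zero, pow_zero]
    have : A.card ≤ 1 := by
      rw [card_le_one]
      intro a _ b _
      exact Subsingleton.elim _ _
    exact_mod_cast this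
  have hf1 : 1 ≤ f := by
    refine le_trans ?_ (hf a₀ ha₀ i₀)
    rw [Nat.one_le_iff_ne_zero, card_ne_zero]
    exact ⟨a₀ i₀, by simp [ha₀]⟩
  have hf1' : (1 : ℝ) ≤ f := by exact_mod_cast hf1
  have hpos : 0 < (q : ℝ) - (q - f) / r := by
    have : ((q : ℝ) - f) / r ≤ q - f := div_le_self (by linarith) hr1
    linarith
  have h := card_le_exp A (L := Fintype.card ι * Real.log ((q : ℝ) - (q - f) / r)) ?_
  · rwa [← Real.log_pow, Real.exp_log (pow_pos hpos _)] at h
  intro a ha
  have h1 : ∀ i, avgLog A a i ≤ Real.log ((q : ℝ) - (q - f) / r) := by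
    intro i
    have := avgLog_le_fib hr hA ha i (f := f) (by convert hf a ha i)
    rwa [hD i] at this
  refine (sum_le_sum fun i _ => h1 i).trans ?_
  rw [sum_const, card_univ, nsmul_eq_mul]

end

end Pool.Agent.Y347.CO
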