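import Pool.Agent.Y347.CO.Local

set_option autoImplicit false

/-!
# Statements of the parts
-/

namespace Pool.Agent.Y347.CO

open Finset Function

/-- the function `f` depends on the coordinate `j` -/
def DependsOn {σ : Type} [DecidableEq σ] (f : (σ → Bool) → Bool) (j : σ) : Prop :=
  ∃ x : σ → Bool, f (update x j true) ≠ f (update x j false)

/-- `A` is closed under the coordinatewise operation `f` -/
def ClosedB {ι σ : Type} (A : Set (ι → Bool)) (f : (σ → Bool) → Bool) : Prop :=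
  ∀ a : σ → ι → Bool, (∀ l, a l ∈ A) → (fun i => f fun l => a l i) ∈ A

/-- A set of words closed under a coordinatewise operation that depends on two variables is closed
under AND, OR, majority or `x + y + z`. -/
def S_POST : Prop :=
  ∀ (ι : Type) (A : Set (ι → Bool)) (m : ℕ) (f : (Fin m → Bool) → Bool) (j j' : Fin m),
    j ≠ j' → DependsOn f j → DependsOn f j' → ClosedB A f →
      (∀ a ∈ A, ∀ b ∈ A, (fun i => a i && b i) ∈ A) ∨
      (∀ a ∈ A, ∀ b ∈ A, (fun i => a i || b i) ∈ A) ∨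
      (∀ a ∈ A, ∀ b ∈ A, ∀ c ∈ A, (fun i => (a i && b i) || (a i && c i) || (b i && c i)) ∈ A) ∨
      (∀ a ∈ A, ∀ b ∈ A, ∀ c ∈ A, (fun i => xor (a i) (xor (b i) (c i))) ∈ A)

/-- Corner-free sets closed under `a + b + c`. -/
def S_AFFC : Prop :=
  ∀ (n : ℕ) (A : Finset ((Fin n → ZMod 2) × (Fin n → ZMod 2))),
    (∀ x y z : Fin n → ZMod 2, (x, y) ∈ A → (x, y + z) ∈ A → (x + z, y) ∈ A → z = 0) →
    (∀ a ∈ A, ∀ b ∈ A, ∀ c ∈ A, a + b + c ∈ A) → A.card ^ 2 ≤ 8 ^ n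

/-- Families of subsets of `[N]^d` that are closed under `A ∆ B ∆ C` and not good. -/
def S_AFFG : Prop :=
  ∀ (d N : ℕ) (S : Finset (Finset (Fin d → Fin N))), 1 ≤ d →
    (∀ A ∈ S, ∀ B ∈ S, ∀ C ∈ S, symmDiff A (symmDiff B C) ∈ S) →
    (¬ ∃ A ∈ S, ∃ γ : Finset (Fin N), γ.Nonempty ∧
      Disjoint A (Fintype.piFinset (fun _ : Fin d => γ)) ∧
      A ∪ Fintype.piFinset (fun _ : Fin d => γ) ∈ S) →
    S.card ^ (d + 1) * 2 ^ N ≤ (2 ^ (N ^ d)) ^ (d + 1)

/-- A large corner-free set closed under all coordinatewise operations. -/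
def S_SHARP : Prop :=
  ∀ m : ℕ, ∃ A : Finset ((Fin (2 * m) → ZMod 2) × (Fin (2 * m) → ZMod 2)),
    (∀ x y z : Fin (2 * m) → ZMod 2, (x, y) ∈ A → (x, y + z) ∈ A → (x + z, y) ∈ A → z = 0) ∧
    (∀ (k : ℕ) (f : (Fin k → ZMod 2) → ZMod 2)
      (a : Fin k → (Fin (2 * m) → ZMod 2) × (Fin (2 * m) → ZMod 2)), (∀ l, a l ∈ A) →
        ((fun i => f fun l => (a l).1 i, fun i => f fun l => (a l).2 i) :
          (Fin (2 * m) → ZMod 2) × (Fin (2 * m) → ZMod 2)) ∈ A) ∧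
    A.card = 8 ^ m

/-- Baker-Pixley: closed under near unanimity operations of arity `r + 1` implies `r`-local. -/
def S_BP : Prop :=
  ∀ (ι : Type) [Fintype ι] [DecidableEq ι] (D : ι → Type) [∀ i, Fintype (D i)]
    [∀ i, DecidableEq (D i)] (r : ℕ) (A : Finset (∀ i, D i)) (f : ∀ i, (Fin (r + 1) → D i) → D i),
    (∀ (i : ι) (l : Fin (r + 1)) (x y : D i), f i (update (fun _ => x) l y) = x) →
    (∀ a : Fin (r + 1) → ∀ i, D i, (∀ l, a l ∈ A) → (fun i => f i fun l => a l i) ∈ A) →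
    IsLocal r A

end Pool.Agent.Y347.CO
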