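import Pool.Agent.Y347.CO.Ops
import Pool.Agent.Y347.CO.LocB
import Pool.Agent.Y347.CO.Stm
import Pool.Agent.Y48.CO.BP

set_option autoImplicit false

/-!
# Progression-free subsets of `F_p^n` closed under coordinatewise operations
-/

namespace Pool.Agent.Y347.CO

open Finset Function

section
variable {p : ℕ} [hp : Fact p.Prime] {n k : ℕ}

/-- no nontrivial `k`-term progression -/
def APFree (k : ℕ) {V : Type} [AddCommGroup V] (A : Finset V) : Prop :=
  ∀ x y : V, (∀ j : ℕ, j < k → x + j • y ∈ A) → y = 0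

open Classical in
/-- lines of progression-free sets are progression-free -/
theorem line_apFree {A : Finset (Fin n → ZMod p)} (hA : APFree k A) (i : Fin n)
    (a : Fin n → ZMod p) : APFree k (univ.filter fun e : ZMod p => update a i e ∈ A) := by
  intro x y h
  have h1 := hA (update a i x) (Pi.single i y) (by
    intro j hj
    have h2 := h j hj
    rw [mem_filter] at h2
    convert h2.2 using 1
    funext l
    rcases eq_or_ne l i with rfl | hl
    · simp
    · simp [update_of_ne hl, hl])
  have h2 := congrFun h1 i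
  simpa using h2

theorem not_apFree_univ : ¬ APFree k (univ : Finset (ZMod p)) := by
  intro h
  have := h 0 1 (fun j _ => mem_univ _)
  have h1 := hp.out.one_lt
  have : Nontrivial (ZMod p) := ZMod.nontrivial_iff.2 h1.ne'
  exact one_ne_zero ‹(1 : ZMod p) = 0›

/-- semilattice operations -/
theorem ap_semi (A : Finset (Fin n → ZMod p)) (hA : APFree k A)
    (s : Fin n → ZMod p → ZMod p → ZMod p) (hs : ∀ i, IsSemi (s i))
    (h : ∀ a ∈ A, ∀ b ∈ A, (fun i => s i (a i) (b i)) ∈ A) :
    (A.card : ℝ) ≤ cq p ^ n := by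
  classical
  have h1 := semi_ops (D := fun _ : Fin n => ZMod p) (q := p) hp.out.two_le
    (fun _ => by rw [ZMod.card]) s hs A h univ ?_
  · rw [card_univ, Fintype.card_fin, Nat.sub_self, pow_zero, mul_one] at h1
    exact h1
  · intro i _ a
    by_contra hcon
    push Not at hcon
    apply not_apFree_univ (p := p) (k := k)
    have h2 := line_apFree hA i a
    have h3 : (univ.filter fun e : ZMod p => update a i e ∈ A) = univ := by
      ext e
      simp [hcon e]
    rw [h3] at h2
    exact h2

/-- local sets -/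
theorem ap_local {r ρ : ℕ} (hr : 1 ≤ r)
    (hρ : ∀ S : Finset (ZMod p), APFree k S → S.card ≤ ρ) (hρ' : ρ ≤ p)
    (A : Finset (Fin n → ZMod p)) (hA : APFree k A) (hloc : IsLocal r A) :
    (A.card : ℝ) ≤ ((p : ℝ) - (p - ρ) / r) ^ n := by
  classical
  have h1 := local_fib hr hloc (q := p) (f := ρ) hp.out.one_lt.le hρ'
    (fun _ => by rw [ZMod.card]) ?_
  · rw [Fintype.card_fin] at h1
    exact h1
  · intro a _ i
    refine le_trans (le_of_eq ?_) (hρ _ (line_apFree hA i a))
    congr

/-- near unanimity operations -/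
theorem ap_nu {r ρ : ℕ} (hr : 1 ≤ r)
    (hρ : ∀ S : Finset (ZMod p), APFree k S → S.card ≤ ρ) (hρ' : ρ ≤ p)
    (A : Finset (Fin n → ZMod p)) (hA : APFree k A)
    (f : Fin n → (Fin (r + 1) → ZMod p) → ZMod p)
    (hf : ∀ i l x y, f i (update (fun _ => x) l y) = x)
    (h : ∀ a : Fin (r + 1) → Fin n → ZMod p, (∀ l, a l ∈ A) →
      (fun i => f i fun l => a l i) ∈ A) :
    (A.card : ℝ) ≤ ((p : ℝ) - (p - ρ) / r) ^ n :=
  ap_local hr hρ hρ' A hA (Y48.CO.BP.done (Fin n) (fun _ => ZMod p) r A f hf h)

end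

end Pool.Agent.Y347.CO
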