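import Pool.Agent.Y347.CO.ApRel

set_option autoImplicit false

/-!
# Progression-free sets and circuits reading the binary digits: final forms
-/

namespace Pool.Agent.Y347.CO.ApRel

open Finset Function

/-- one decided set without progressions is small -/
theorem ap_small {n k m w ℓ d : ℕ} (C : Y603.MS.Circuit w n) (hleak : C.leak = ∅) (hℓ : 1 ≤ ℓ)
    (hw : 1 ≤ w) (hd1 : 1 ≤ d) (hs : Nat.card C.Node ≤ 2 ^ ℓ) (hd : ∀ v, C.depth v ≤ d)
    (o : C.Node) (hm : 1 ≤ m) (hk : k ≤ 2 ^ m) (F : Finset ℕ) (hF0 : F ⊆ range (2 ^ n))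
    (hF : ∀ a < 2 ^ n, a ∈ F ↔ C.val o (dig n a) = true) (hA : Free k F) :
    (F.card : ℝ) ≤ 2 ^ n * (2 : ℝ) ^ (2 * ℓ + 3 * m + 7 -
      (n / m : ℕ) / (2 ^ (m + 2) * (d * KK d w ℓ)) : ℝ) := by
  have hX := one_le_dKK hd1 hw hℓ
  set X : ℝ := d * KK d w ℓ with hXdef
  have hX0 : 0 < X := by linarith
  have hFc : (F.card : ℝ) ≤ 2 ^ n := by
    have := card_le_card hF0
    rw [card_range] at this
    exact_mod_cast this
  rcases le_or_gt m n with hmn | hnm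
  · have hr : ∀ B ⊆ range (2 ^ m), Free k B → B.card ≤ 2 ^ m - 1 := by
      intro B hB hfree
      obtain ⟨t, ht, hnot⟩ := hfree 0 1 one_pos
      have h1 : B ⊂ range (2 ^ m) := by
        refine (ssubset_iff_of_subset hB).2 ⟨t, mem_range.2 (lt_of_lt_of_le ht hk), ?_⟩
        simpa using hnot
      have h2 := card_lt_card h1
      rw [card_range] at h2
      omega
    have h := rel_ap C hleak hℓ hw hd1 hs hd o hm hmn F F hF0 hF hA (2 ^ m - 1) hr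
      (ε := 1 / 2 ^ (m + 1)) (by positivity)
    rw [inter_self, ← hXdef] at h
    have e1 : ((2 ^ m - 1 : ℕ) : ℝ) = 2 ^ m - 1 := by
      rw [Nat.cast_sub Nat.one_le_two_pow]
      push_cast
      ring
    rw [e1] at h
    have hp : (0 : ℝ) < 2 ^ m := by positivity
    have e2 : ((2 : ℝ) ^ m - 1) / 2 ^ m + 1 / 2 ^ (m + 1) = 1 - 1 / 2 ^ (m + 1) := by
      rw [pow_succ]
      field_simp
      ring
    rw [e2] at h
    have e3 : (1 : ℝ) / 2 ^ (m + 1) / 2 * (n / m : ℕ) / X = (n / m : ℕ) / (2 ^ (m + 2) * X) := by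
      rw [pow_succ, pow_succ]
      field_simp
      ring
    rw [e3] at h
    set Y : ℝ := (n / m : ℕ) / (2 ^ (m + 2) * X) with hY
    have h1 : (F.card : ℝ) ≤ 2 ^ (m + 1) * (2 * m / (1 / 2 ^ (m + 1)) *
        (2 ^ n * (2 : ℝ) ^ (2 * ℓ + 4 - Y))) := by
      have h2 : 1 / 2 ^ (m + 1) * (F.card : ℝ) ≤ 2 * m / (1 / 2 ^ (m + 1)) *
        (2 ^ n * (2 : ℝ) ^ (2 * ℓ + 4 - Y)) := by linarith
      have h3 := mul_le_mul_of_nonneg_left h2 (by positivity : (0 : ℝ) ≤ 2 ^ (m + 1))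
      refine le_trans (le_of_eq ?_) h3
      field_simp
    refine h1.trans ?_
    have hm2 : (m : ℝ) ≤ 2 ^ m := by exact_mod_cast (Nat.lt_two_pow_self (n := m)).le
    have e4 : (2 : ℝ) ^ (m + 1) * (2 * m / (1 / 2 ^ (m + 1)) *
        (2 ^ n * (2 : ℝ) ^ (2 * ℓ + 4 - Y))) =
        2 ^ n * (m * (2 ^ (2 * m + 3) * (2 : ℝ) ^ (2 * ℓ + 4 - Y))) := by
      have : (2 : ℝ) ^ (2 * m + 3) = 2 ^ (m + 1) * 2 ^ (m + 1) * 2 := by
        rw [← pow_add, ← pow_succ]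
        congr 1
        ring
      rw [this]
      field_simp
    rw [e4]
    apply mul_le_mul_of_nonneg_left _ (by positivity)
    have e5 : (2 : ℝ) ^ (2 * ℓ + 3 * m + 7 - Y : ℝ) =
        2 ^ m * (2 ^ (2 * m + 3) * (2 : ℝ) ^ (2 * ℓ + 4 - Y : ℝ)) := by
      rw [← Real.rpow_natCast 2 m, ← Real.rpow_natCast 2 (2 * m + 3),
        ← Real.rpow_add (by norm_num), ← Real.rpow_add (by norm_num)]
      congr 1
      push_cast
      ring
    rw [e5]
    exact mul_le_mul_of_nonneg_right hm2 (by positivity)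
  · have h0 : n / m = 0 := Nat.div_eq_of_lt hnm
    rw [h0, Nat.cast_zero, zero_div, sub_zero]
    have h1 : (1 : ℝ) ≤ (2 : ℝ) ^ (2 * ℓ + 3 * m + 7 : ℝ) :=
      Real.one_le_rpow (by norm_num) (by positivity)
    have h2 : (0 : ℝ) < 2 ^ n := by positivity
    nlinarith

/-- relative Szemerédi theorem -/
theorem ap_rel_c (k : ℕ) (δ : ℝ) (hδ : 0 < δ) :
    ∃ c : ℝ, 0 < c ∧ ∀ (n w ℓ d : ℕ) (C : Y603.MS.Circuit w n), C.leak = ∅ →
      1 ≤ ℓ → 1 ≤ w → 1 ≤ d → Nat.card C.Node ≤ 2 ^ ℓ → (∀ v, C.depth v ≤ d) → ∀ (o : C.Node)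
      (F A : Finset ℕ), F ⊆ range (2 ^ n) →
      (∀ a < 2 ^ n, a ∈ F ↔ C.val o (dig n a) = true) → Free k A →
      ((A ∩ F).card : ℝ) ≤ δ * F.card +
        2 ^ n * (2 : ℝ) ^ (2 * ℓ + 1 / c - c * n / (d * KK d w ℓ)) := by
  classical
  obtain ⟨m, hm, h⟩ := szemeredi k (δ / 2) (by positivity)
  obtain ⟨c, hc0, hcc⟩ := num_c m hm (4 * m / δ) (δ / 4) (by positivity) (by positivity)
  refine ⟨c, hc0, fun n w ℓ d C hleak hℓ hw hd1 hs hd o F A hF0 hF hA => ?_⟩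
  obtain ⟨h1, h2⟩ := hcc n (d * KK d w ℓ) (2 * ℓ) (one_le_dKK hd1 hw hℓ) (by positivity)
  have hAF : ((A ∩ F).card : ℝ) ≤ F.card := by exact_mod_cast card_le_card inter_subset_right
  have hFc : (F.card : ℝ) ≤ 2 ^ n := by
    have := card_le_card hF0
    rw [card_range] at this
    exact_mod_cast this
  have hδF : 0 ≤ δ * F.card := by positivity
  have h4 : (0 : ℝ) < 2 ^ n := by positivity
  rcases le_or_gt m n with hmn | hnm
  · have h3 := h1 hmn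
    have hr : ∀ B ⊆ range (2 ^ m), Free k B → B.card ≤ ⌊δ / 2 * 2 ^ m⌋₊ := by
      intro B hB hfree
      exact Nat.le_floor (h B hB hfree).le
    have h5 := rel_ap C hleak hℓ hw hd1 hs hd o hm hmn F A hF0 hF hA _ hr
      (ε := δ / 2) (by positivity)
    have h6 : ((⌊δ / 2 * 2 ^ m⌋₊ : ℕ) : ℝ) ≤ δ / 2 * 2 ^ m := Nat.floor_le (by positivity)
    have h7 : ((⌊δ / 2 * 2 ^ m⌋₊ : ℕ) : ℝ) / 2 ^ m ≤ δ / 2 := by
      rw [div_le_iff₀ (by positivity)]
      exact h6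
    have h8 : (((⌊δ / 2 * 2 ^ m⌋₊ : ℕ) : ℝ) / 2 ^ m + δ / 2) * F.card ≤ δ * F.card := by
      apply mul_le_mul_of_nonneg_right _ (Nat.cast_nonneg _)
      linarith
    have h9 := mul_le_mul_of_nonneg_left h3 h4.le
    have h10 : 2 * m / (δ / 2) * (2 ^ n *
      (2 : ℝ) ^ (2 * ℓ + 4 - δ / 2 / 2 * (n / m : ℕ) / (d * KK d w ℓ))) =
      2 ^ n * (4 * m / δ *
      (2 : ℝ) ^ (2 * ℓ + 4 - δ / 4 * (n / m : ℕ) / (d * KK d w ℓ))) := by
      have e5 : δ / 2 / 2 = δ / 4 := by ring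
      have e6 : 2 * (m : ℝ) / (δ / 2) = 4 * m / δ := by
        field_simp
        ring
      rw [e5, e6]
      ring
    linarith
  · have h3 := h2 hnm
    have h5 := mul_le_mul_of_nonneg_left h3 h4.le
    linarith

/-- the numerical part of the lower bound for circuits -/
theorem num_lower (m : ℕ) (hm : 1 ≤ m) (κ C : ℝ) (hκ : 0 < κ) (hC : 0 ≤ C) (d : ℕ) (hd : 1 ≤ d) :
    ∃ c : ℝ, 0 < c ∧ ∀ n ℓ : ℕ, m ≤ n → 1 ≤ ℓ →
      (n / m : ℕ) / (2 ^ (m + 2) * (κ * (ℓ : ℝ) ^ d)) ≤ 2 * C * √n + 2 * ℓ + 3 * m + 7 →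
      c * (n : ℝ) ^ (1 / (2 * d) : ℝ) ≤ ℓ := by
  set C₁ : ℝ := 2 * C + 3 * m + 9 with hC₁
  have hC₁0 : 0 < C₁ := by positivity
  have hm' : (1 : ℝ) ≤ m := by exact_mod_cast hm
  set P : ℝ := 2 * m * 2 ^ (m + 2) * κ * C₁ with hP
  have hP0 : 0 < P := by positivity
  set c : ℝ := min 1 (1 / (2 * P)) with hc
  have hc0 : 0 < c := lt_min one_pos (by positivity)
  have hc1 : c ≤ 1 := min_le_left _ _
  have hc2 : c ≤ 1 / (2 * P) := min_le_right _ _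
  refine ⟨c, hc0, fun n ℓ hmn hℓ h => ?_⟩
  by_contra hcon
  push Not at hcon
  have hn1 : (1 : ℝ) ≤ n := by exact_mod_cast hm.trans hmn
  have hn0 : (0 : ℝ) < n := by linarith
  have hs1 : 1 ≤ √(n : ℝ) := Real.one_le_sqrt.2 hn1
  have hd' : (1 : ℝ) ≤ d := by exact_mod_cast hd
  have hroot : (n : ℝ) ^ (1 / (2 * d) : ℝ) ≤ √n := by
    rw [Real.sqrt_eq_rpow]
    apply Real.rpow_le_rpow_of_exponent_le hn1
    rw [div_le_div_iff₀ (by positivity) (by norm_num)]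
    linarith
  have hroot0 : 0 ≤ (n : ℝ) ^ (1 / (2 * d) : ℝ) := by positivity
  have hℓs : (ℓ : ℝ) ≤ √n := by nlinarith
  have hℓ0 : (0 : ℝ) < ℓ := by exact_mod_cast hℓ
  have hpowd : (ℓ : ℝ) ^ d ≤ c * √n := by
    have h1 : (ℓ : ℝ) ^ d ≤ (c * (n : ℝ) ^ (1 / (2 * d) : ℝ)) ^ d :=
      pow_le_pow_left₀ hℓ0.le hcon.le d
    have h2 : ((n : ℝ) ^ (1 / (2 * d) : ℝ)) ^ d = √n := by
      rw [← Real.rpow_natCast, ← Real.rpow_mul hn0.le, Real.sqrt_eq_rpow]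
      congr 1
      field_simp
    rw [mul_pow, h2] at h1
    refine h1.trans (mul_le_mul_of_nonneg_right ?_ (Real.sqrt_nonneg _))
    calc c ^ d ≤ c ^ 1 := pow_le_pow_of_le_one hc0.le hc1 hd
      _ = c := pow_one c
  have h3 : 2 * C * √n + 2 * ℓ + 3 * m + 7 ≤ C₁ * √n := by
    rw [hC₁]
    nlinarith
  have h4 : (n : ℝ) ≤ 2 * m * (n / m : ℕ) := by
    have h5 : n < (n / m + 1) * m := by
      have := Nat.lt_div_mul_add (a := n) (b := m) (by omega)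
      nlinarith
    have h6 : 1 ≤ n / m := (Nat.one_le_div_iff (by omega)).2 hmn
    have h7 : n ≤ 2 * m * (n / m) := by nlinarith
    exact_mod_cast h7
  have hX0 : (0 : ℝ) < 2 ^ (m + 2) * (κ * (ℓ : ℝ) ^ d) := by positivity
  have h8 := h.trans h3
  rw [div_le_iff₀ hX0] at h8
  have h9 : (n : ℝ) ≤ 2 * m * (C₁ * √n * (2 ^ (m + 2) * (κ * (ℓ : ℝ) ^ d))) :=
    h4.trans (mul_le_mul_of_nonneg_left h8 (by positivity))
  have h10 : 2 * m * (C₁ * √n * (2 ^ (m + 2) * (κ * (ℓ : ℝ) ^ d))) = P * √n * (ℓ : ℝ) ^ d := by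
    rw [hP]
    ring
  rw [h10] at h9
  have h11 : P * √n * (ℓ : ℝ) ^ d ≤ P * √n * (c * √n) :=
    mul_le_mul_of_nonneg_left hpowd (by positivity)
  have h12 : P * √n * (c * √n) = P * c * n := by
    have := Real.mul_self_sqrt hn0.le
    calc P * √n * (c * √n) = P * c * (√n * √n) := by ring
      _ = _ := by rw [this]
  have h13 : P * c ≤ 1 / 2 := by
    have := mul_le_mul_of_nonneg_left hc2 hP0.le
    refine this.trans (le_of_eq ?_)
    field_simp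
  have h14 : P * c * n ≤ 1 / 2 * n := mul_le_mul_of_nonneg_right h13 hn0.le
  linarith

/-- extremal sets are large (Behrend) -/
theorem roth_large (n : ℕ) (hn : 12 ≤ n) :
    (2 : ℝ) ^ n * (2 : ℝ) ^ (-(5 * √n) : ℝ) ≤ rothNumberNat (2 ^ n) := by
  have h1 : 4096 ≤ 2 ^ n := by
    calc 4096 = 2 ^ 12 := by norm_num
      _ ≤ 2 ^ n := Nat.pow_le_pow_right (by norm_num) hn
  have h2 := Behrend.roth_lower_bound_explicit h1
  refine le_trans ?_ h2.le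
  push_cast
  apply mul_le_mul_of_nonneg_left _ (by positivity)
  rw [Real.rpow_def_of_pos (by norm_num), Real.exp_le_exp, Real.log_pow]
  have h3 : √((n : ℝ) * Real.log 2) = √n * √(Real.log 2) := Real.sqrt_mul (Nat.cast_nonneg _) _
  rw [h3]
  have h4 : (0.69 : ℝ) ≤ Real.log 2 := by
    have := Real.log_two_gt_d9
    linarith
  have h5 : 0 ≤ √(n : ℝ) := Real.sqrt_nonneg _
  have h6 : √(Real.log 2) * √(Real.log 2) = Real.log 2 := Real.mul_self_sqrt (by linarith)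
  have h7 : 4 / 5 ≤ √(Real.log 2) := by
    apply Real.le_sqrt_of_sq_le
    norm_num
    linarith
  have h8 : 4 * √(Real.log 2) ≤ 5 * Real.log 2 := by
    have h9 := mul_le_mul_of_nonneg_right h7 (Real.sqrt_nonneg (Real.log 2))
    rw [h6] at h9
    linarith
  nlinarith

end Pool.Agent.Y347.CO.ApRel
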