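import Pool.Agent.Y347.CO.Bes

set_option autoImplicit false

/-!
# Progression-free sets of integers inside sets decided by circuits reading the binary digits
-/

namespace Pool.Agent.Y347.CO.ApRel

open Finset Function
open Pool.Agent.Y347.CO.Bes

/-- the number with given binary digits -/
def val {n : ℕ} (x : Fin n → Bool) : ℕ := ∑ i, if x i then 2 ^ (i : ℕ) else 0

/-- the binary digits of a number -/
def dig (n a : ℕ) : Fin n → Bool := fun i => a.testBit i

theorem val_dig (n : ℕ) : ∀ a : ℕ, a < 2 ^ n → val (dig n a) = a := by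
  induction n with
  | zero =>
    intro a ha
    simp at ha
    simp [val, ha]
  | succ n ih =>
    intro a ha
    have h1 : a / 2 < 2 ^ n := by
      rw [Nat.div_lt_iff_lt_mul (by norm_num)]
      rwa [pow_succ] at ha
    have h2 := ih _ h1
    unfold val dig at h2 ⊢
    rw [Fin.sum_univ_succ]
    have h3 : ∀ i : Fin n, (if a.testBit (i.succ : Fin (n + 1)) then 2 ^ ((i.succ : Fin (n + 1)) : ℕ)
        else 0) = 2 * (if (a / 2).testBit (i : ℕ) then 2 ^ (i : ℕ) else 0) := by
      intro i
      rw [Fin.val_succ, Nat.testBit_succ, pow_succ]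
      split_ifs <;> ring
    rw [sum_congr rfl fun i _ => h3 i, ← mul_sum, h2]
    simp only [Fin.val_zero, pow_zero, Nat.testBit_zero, decide_eq_true_eq]
    split_ifs with h <;> omega

theorem dig_bij (n : ℕ) : Bijective fun a : Fin (2 ^ n) => dig n a := by
  rw [Fintype.bijective_iff_injective_and_card]
  refine ⟨fun a b h => ?_, by simp⟩
  apply Fin.ext
  rw [← val_dig n a a.2, ← val_dig n b b.2]
  exact congrArg val h

theorem val_lt {n : ℕ} (x : Fin n → Bool) : val x < 2 ^ n := by
  obtain ⟨a, rfl⟩ := (dig_bij n).2 x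
  show val (dig n a) < 2 ^ n
  rw [val_dig n a a.2]
  exact a.2

theorem dig_val {n : ℕ} (x : Fin n → Bool) : dig n (val x) = x := by
  obtain ⟨a, rfl⟩ := (dig_bij n).2 x
  show dig n (val (dig n a)) = dig n a
  rw [val_dig n a a.2]

theorem val_inj {n : ℕ} : Injective (val (n := n)) := fun x y h => by
  rw [← dig_val x, h, dig_val]

/-- the words of the members -/
def wd (n : ℕ) (A : Finset ℕ) : Finset (Fin n → Bool) := univ.filter fun x => val x ∈ A

theorem mem_wd {n : ℕ} {A : Finset ℕ} {x : Fin n → Bool} : x ∈ wd n A ↔ val x ∈ A := by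
  simp [wd]

theorem wd_card {n : ℕ} {A : Finset ℕ} (hA : A ⊆ range (2 ^ n)) : (wd n A).card = A.card := by
  apply card_bij (fun x _ => val x)
  · intro x hx
    exact mem_wd.1 hx
  · intro x _ y _ h
    exact val_inj h
  · intro a ha
    have h := mem_range.1 (hA ha)
    exact ⟨dig n a, mem_wd.2 (by rwa [val_dig n a h]), val_dig n a h⟩

theorem wd_inter {n : ℕ} (A B : Finset ℕ) : wd n (A ∩ B) = wd n A ∩ wd n B := by
  ext x
  simp [wd]

/-- no progression with `k` terms -/
def Free (k : ℕ) (A : Finset ℕ) : Prop := ∀ a d : ℕ, 0 < d → ∃ t < k, a + t * d ∉ A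

theorem free_mono {k : ℕ} {A B : Finset ℕ} (h : B ⊆ A) (hA : Free k A) : Free k B := by
  intro a d hd
  obtain ⟨t, ht, hh⟩ := hA a d hd
  exact ⟨t, ht, fun h' => hh (h h')⟩

section block
variable {n m : ℕ}

theorem val_put (hm : 0 < m) {j : ℕ} (h : j < n / m) (z : Fin m → Bool) (x : Fin n → Bool) :
    val (put hm j z x) = val (put hm j (fun _ => false) x) + 2 ^ (j * m) * val z := by
  have h1 : ∀ z : Fin m → Bool, val (put hm j z x) =
      (∑ i ∈ univ.filter (fun i : Fin n => (i : ℕ) / m = j),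
        if z ⟨(i : ℕ) % m, Nat.mod_lt _ hm⟩ then 2 ^ (i : ℕ) else 0) +
      ∑ i ∈ univ.filter (fun i : Fin n => ¬ (i : ℕ) / m = j), if x i then 2 ^ (i : ℕ) else 0 := by
    intro z
    unfold val
    rw [← sum_filter_add_sum_filter_not univ (fun i : Fin n => (i : ℕ) / m = j)]
    congr 1
    · refine sum_congr rfl fun i hi => ?_
      rw [put, if_pos (mem_filter.1 hi).2]
    · refine sum_congr rfl fun i hi => ?_
      rw [put, if_neg (mem_filter.1 hi).2]
  have h2 : ∀ z : Fin m → Bool, (∑ i ∈ univ.filter (fun i : Fin n => (i : ℕ) / m = j),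
      if z ⟨(i : ℕ) % m, Nat.mod_lt _ hm⟩ then 2 ^ (i : ℕ) else 0) = 2 ^ (j * m) * val z := by
    intro z
    unfold val
    rw [mul_sum]
    symm
    apply sum_bij (fun (s : Fin m) _ => pos 0 j h s)
    · intro s _
      exact mem_filter.2 ⟨mem_univ _, pos_div hm h s⟩
    · intro s _ s' _ hs
      have := pos_mod h s
      rw [hs, pos_mod h s'] at this
      exact Fin.ext this.symm
    · intro i hi
      exact ⟨⟨(i : ℕ) % m, Nat.mod_lt _ hm⟩, mem_univ _, pos_eq hm h i (mem_filter.1 hi).2⟩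
    · intro s _
      have e : (⟨((pos 0 j h s : Fin n) : ℕ) % m, Nat.mod_lt _ hm⟩ : Fin m) = s :=
        Fin.ext (pos_mod h s)
      rw [e]
      have e2 : ((pos 0 j h s : Fin n) : ℕ) = j * m + s := rfl
      rw [e2, pow_add]
      split_ifs
      · rfl
      · exact mul_zero _
  have h3 : val (fun _ : Fin m => false) = 0 := by simp [val]
  have e1 := h1 z
  have e2 := h1 fun _ => false
  rw [h2 z] at e1
  rw [h2 fun _ => false, h3, mul_zero, zero_add] at e2
  rw [e1, e2]
  ring

/-- slices of progression-free sets -/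
theorem slice_free (hm : 0 < m) {j : ℕ} (h : j < n / m) {k : ℕ} (A : Finset ℕ) (hA : Free k A)
    (x : Fin n → Bool) :
    Free k ((univ.filter fun z : Fin m → Bool => put hm j z x ∈ wd n A).image val) := by
  intro a d hd
  obtain ⟨t, ht, hnot⟩ := hA (val (put hm j (fun _ => false) x) + 2 ^ (j * m) * a)
    (2 ^ (j * m) * d) (by positivity)
  refine ⟨t, ht, fun hmem => hnot ?_⟩
  obtain ⟨z, hz, hv⟩ := mem_image.1 hmem
  have h1 := mem_wd.1 (mem_filter.1 hz).2
  rw [val_put hm h, hv] at h1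
  convert h1 using 1
  ring

/-- exclusive or of a block -/
def chB (hm : 0 < m) (j : ℕ) (t : Fin m → Bool) (x : Fin n → Bool) : Fin n → Bool :=
  fun i => if (i : ℕ) / m = j then xor (x i) (t ⟨(i : ℕ) % m, Nat.mod_lt _ hm⟩) else x i

theorem chB_flip (hm : 0 < m) (j : ℕ) (t : Fin m → Bool) :
    ∃ v ⊆ posBlock n m j, ∀ x : Fin n → Bool, chB hm j t x = flipSet v x := by
  refine ⟨univ.filter fun i : Fin n => (i : ℕ) / m = j ∧
    t ⟨(i : ℕ) % m, Nat.mod_lt _ hm⟩ = true, ?_, ?_⟩
  · intro i hi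
    exact mem_filter.2 ⟨mem_univ _, (mem_filter.1 hi).2.1⟩
  · intro x
    funext i
    unfold flipSet chB
    simp only [mem_filter, mem_univ, true_and]
    by_cases h : (i : ℕ) / m = j
    · rw [if_pos h]
      cases h2 : t ⟨(i : ℕ) % m, Nat.mod_lt _ hm⟩
      · rw [if_neg (fun h3 => Bool.false_ne_true h3.2), Bool.xor_false]
      · rw [if_pos ⟨h, rfl⟩, Bool.xor_true]
    · rw [if_neg h, if_neg fun hh => h hh.1]

theorem chB_put (hm : 0 < m) {j : ℕ} (h : j < n / m) (t : Fin m → Bool) (x : Fin n → Bool) :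
    chB hm j t x = put hm j (fun s => xor (x (pos 0 j h s)) (t s)) x := by
  funext i
  unfold chB put
  by_cases hi : (i : ℕ) / m = j
  · rw [if_pos hi, if_pos hi]
    show xor (x i) _ = xor (x (pos 0 j h ⟨(i : ℕ) % m, Nat.mod_lt _ hm⟩)) _
    rw [pos_eq hm h i hi]
  · rw [if_neg hi, if_neg hi]

/-- **progression-free sets inside sets decided by circuits** -/
theorem rel_ap {k w ℓ d : ℕ} (C : Y603.MS.Circuit w n) (hleak : C.leak = ∅) (hℓ : 1 ≤ ℓ)
    (hw : 1 ≤ w) (hd1 : 1 ≤ d) (hs : Nat.card C.Node ≤ 2 ^ ℓ) (hd : ∀ v, C.depth v ≤ d)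
    (o : C.Node) (hm : 1 ≤ m) (hmn : m ≤ n) (F A : Finset ℕ) (hF0 : F ⊆ range (2 ^ n))
    (hF : ∀ a < 2 ^ n, a ∈ F ↔ C.val o (dig n a) = true) (hA : Free k A) (r : ℕ)
    (hr : ∀ B ⊆ range (2 ^ m), Free k B → B.card ≤ r) {ε : ℝ} (hε : 0 < ε) :
    ((A ∩ F).card : ℝ) ≤ (r / 2 ^ m + ε) * F.card +
      2 * m / ε * (2 ^ n * (2 : ℝ) ^ (2 * ℓ + 4 - ε / 2 * (n / m : ℕ) / (d * KK d w ℓ))) := by
  classical
  have hAF0 : A ∩ F ⊆ range (2 ^ n) := inter_subset_right.trans hF0
  rw [← wd_card hAF0, ← wd_card hF0, wd_inter]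
  by_cases hlarge : 2 * m / ε *
      (2 ^ n * (2 : ℝ) ^ (2 * ℓ + 4 - ε / 2 * (n / m : ℕ) / (d * KK d w ℓ))) ≤ (wd n F).card
  · have hk : 1 ≤ n / m := (Nat.one_le_div_iff hm).2 hmn
    have hT : (Fintype.card (Fin m → Bool) : ℝ) = 2 ^ m := by
      rw [Fintype.card_fun, Fintype.card_bool, Fintype.card_fin]
      push_cast
      rfl
    have h := rel_circ Y220.CO.done C hleak hℓ hw hd1 hs hd o (Equiv.refl (Fin n → Bool))
      (wd n F) (wd n A) (fun x => by
        rw [mem_wd, hF _ (val_lt x), dig_val]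
        rfl) (k := n / m) (q := m) hk (fun j => posBlock n m j)
      (fun j j' hjj => by
        rw [disjoint_left]
        intro i hi hi'
        exact hjj (Fin.ext ((mem_filter.1 hi).2.symm.trans (mem_filter.1 hi').2)))
      (fun j => posBlock_card hm j) (T := Fin m → Bool)
      (fun j t x => chB hm j t x) (fun j t => chB_flip hm j t) r ?_ hε hlarge
    · rw [hT] at h
      have h2 : 0 ≤ 2 * m / ε *
        (2 ^ n * (2 : ℝ) ^ (2 * ℓ + 4 - ε / 2 * (n / m : ℕ) / (d * KK d w ℓ))) := by positivity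
      linarith
    · intro j x
      have hj : (j : ℕ) < n / m := j.2
      set B := univ.filter fun z : Fin m → Bool => put hm j z x ∈ wd n A with hB
      have h5 : (univ.filter fun t : Fin m → Bool => chB hm j t x ∈ wd n A).card ≤ B.card := by
        refine card_le_card_of_injOn (fun t => fun s => xor (x (pos 0 j hj s)) (t s)) ?_ ?_
        · intro t ht
          have ht' := (mem_filter.1 (mem_coe.1 ht)).2
          rw [chB_put hm hj] at ht'
          exact mem_coe.2 (mem_filter.2 ⟨mem_univ _, ht'⟩)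
        · intro t _ t' _ htt
          funext s
          have h6 := congrFun htt s
          simpa using h6
      refine h5.trans ?_
      rw [← card_image_of_injective B val_inj]
      refine hr _ ?_ (slice_free hm hj A hA x)
      intro a ha
      obtain ⟨z, -, rfl⟩ := mem_image.1 ha
      exact mem_range.2 (val_lt z)
  · push Not at hlarge
    have h1 : ((wd n A ∩ wd n F).card : ℝ) ≤ (wd n F).card := by
      exact_mod_cast card_le_card inter_subset_right
    have h2 : 0 ≤ ((r : ℝ) / 2 ^ m + ε) * (wd n F).card := by positivity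
    linarith

end block

section szemeredi

/-- flatten a word of words -/
def flat {n s : ℕ} (z : Fin n → Fin s → Bool) : Fin (n * s) → Bool :=
  fun i => z (finProdFinEquiv.symm i).1 (finProdFinEquiv.symm i).2

theorem val_flat {n s : ℕ} (z : Fin n → Fin s → Bool) :
    val (flat z) = ∑ a : Fin n, 2 ^ (s * a) * val (z a) := by
  unfold val
  rw [← Equiv.sum_comp finProdFinEquiv, Fintype.sum_prod_type]
  refine sum_congr rfl fun a _ => ?_
  rw [mul_sum]
  refine sum_congr rfl fun t _ => ?_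
  unfold flat
  rw [Equiv.symm_apply_apply]
  have e : ((finProdFinEquiv (a, t) : Fin (n * s)) : ℕ) = s * a + t := by
    rw [finProdFinEquiv_apply_val]
    ring
  rw [e, pow_add]
  split_ifs
  · rfl
  · exact (mul_zero _).symm

theorem flat_inj {n s : ℕ} : Injective (flat (n := n) (s := s)) := by
  intro z z' h
  funext a t
  have := congrFun h (finProdFinEquiv (a, t))
  unfold flat at this
  rw [Equiv.symm_apply_apply] at this
  exact this

/-- Szemerédi's theorem for sets of words, from the density Hales-Jewett theorem -/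
theorem szemeredi (k : ℕ) (δ : ℝ) (hδ : 0 < δ) :
    ∃ m : ℕ, 1 ≤ m ∧ ∀ B : Finset ℕ, B ⊆ range (2 ^ m) → Free k B → (B.card : ℝ) < δ * 2 ^ m := by
  classical
  obtain ⟨s, hs1, hs⟩ : ∃ s : ℕ, 1 ≤ s ∧ k ≤ 2 ^ s := ⟨k + 1, by omega,
    ((Nat.lt_two_pow_self (n := k)).le.trans (Nat.pow_le_pow_right (by norm_num) (by omega)))⟩
  obtain ⟨n, hn⟩ := Helper903.DHJ.ldhj (Fin s → Bool) (min δ 1) (lt_min hδ one_pos)
  have hn0 : 0 < n := by
    by_contra h0
    obtain ⟨V, -⟩ := hn {x | True} (by
      rw [Y426.BES.dens_eq]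
      simp only [filter_true, card_univ]
      rw [div_self (by exact_mod_cast Fintype.card_ne_zero)]
      exact min_le_right _ _)
    obtain ⟨i, -⟩ := V.proper
    exact absurd i.2 (by omega)
  refine ⟨n * s, Nat.mul_pos hn0 hs1, fun B hB hfree => ?_⟩
  by_contra hcon
  push Not at hcon
  have hpos : (0 : ℝ) < Fintype.card (Fin n → Fin s → Bool) := by exact_mod_cast Fintype.card_pos
  have hcard : (Fintype.card (Fin n → Fin s → Bool) : ℝ) = 2 ^ (n * s) := by
    rw [Fintype.card_fun, Fintype.card_fun, Fintype.card_bool, Fintype.card_fin, Fintype.card_fin,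
      ← pow_mul, mul_comm s n]
    push_cast
    rfl
  have hBc : (univ.filter fun z : Fin n → Fin s → Bool => flat z ∈ wd (n * s) B).card = B.card := by
    rw [← wd_card hB]
    apply card_bij (fun z _ => flat z)
    · intro z hz
      exact (mem_filter.1 hz).2
    · intro z _ z' _ h
      exact flat_inj h
    · intro x hx
      refine ⟨fun a t => x (finProdFinEquiv (a, t)), ?_, ?_⟩
      · rw [mem_filter]
        refine ⟨mem_univ _, ?_⟩
        convert hx using 1
        funext i
        show x (finProdFinEquiv ((finProdFinEquiv.symm i).1, (finProdFinEquiv.symm i).2)) = x i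
        rw [Prod.mk.eta, Equiv.apply_symm_apply]
      · funext i
        show x (finProdFinEquiv ((finProdFinEquiv.symm i).1, (finProdFinEquiv.symm i).2)) = x i
        rw [Prod.mk.eta, Equiv.apply_symm_apply]
  obtain ⟨L, hL⟩ := hn {z | flat z ∈ wd (n * s) B} (by
    rw [Y426.BES.dens_eq]
    refine (min_le_left _ _).trans ?_
    rw [le_div_iff₀ hpos, hcard, hBc]
    exact hcon)
  -- the progression
  set K := ∑ a : Fin n, 2 ^ (s * a) * (L.idxFun a).elim 0 val with hK
  set D := ∑ a : Fin n, 2 ^ (s * a) * (L.idxFun a).elim 1 (fun _ => 0) with hD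
  have hval : ∀ c : Fin s → Bool, val (flat (L c)) = K + val c * D := by
    intro c
    rw [val_flat, hK, hD, mul_sum, ← sum_add_distrib]
    refine sum_congr rfl fun a _ => ?_
    have e0 : (L c) a = (L.idxFun a).getD c := rfl
    rw [e0]
    rcases L.idxFun a with _ | e
    · show 2 ^ (s * (a : ℕ)) * val c = 2 ^ (s * (a : ℕ)) * 0 + val c * (2 ^ (s * (a : ℕ)) * 1)
      ring
    · show 2 ^ (s * (a : ℕ)) * val e = 2 ^ (s * (a : ℕ)) * val e + val c * (2 ^ (s * (a : ℕ)) * 0)
      ring
  have hD0 : 0 < D := by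
    obtain ⟨a, ha⟩ := L.proper
    refine lt_of_lt_of_le ?_ (single_le_sum (f := fun a : Fin n =>
      2 ^ (s * (a : ℕ)) * (L.idxFun a).elim 1 (fun _ => 0)) (fun _ _ => Nat.zero_le _) (mem_univ a))
    rw [ha]
    show 0 < 2 ^ (s * (a : ℕ)) * 1
    positivity
  obtain ⟨t, ht, hnot⟩ := hfree K D hD0
  apply hnot
  have h1 := mem_wd.1 (hL (dig s t))
  rw [hval, val_dig s t (lt_of_lt_of_le ht hs)] at h1
  exact h1

end szemeredi

end Pool.Agent.Y347.CO.ApRel
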