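import Pool.Agent.Y347.CO.Final4
import Pool.Agent.Y426.BES.Graph

set_option autoImplicit false

/-!
# Sparse configurations of cells in products of quasigroups, inside sets decided by circuits
-/

namespace Pool.Agent.Y347.CO.Bes

open Finset Function

/-- bit strings of length `b` -/
abbrev Bits (b : ℕ) := Fin b → Bool

/-- no `e` members of `A` have at most `N` rows, columns and symbols together -/
def Free {n b : ℕ} (mul : Fin n → Bits b → Bits b → Bits b) (e N : ℕ)
    (A : Finset (Fin n → Bits b × Bits b)) : Prop :=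
  ∀ T ⊆ A, T.card = e → ∀ R C S : Finset (Fin n → Bits b),
    (∀ t ∈ T, (fun i => (t i).1) ∈ R ∧ (fun i => (t i).2) ∈ C ∧
      (fun i => mul i (t i).1 (t i).2) ∈ S) → N < R.card + C.card + S.card

section enc
variable {n b : ℕ}

/-- the bits of a cell -/
def encB (p : Fin n → Bits b × Bits b) : Fin (n * (b + b)) → Bool :=
  fun k => Fin.append (p (finProdFinEquiv.symm k).1).1 (p (finProdFinEquiv.symm k).1).2
    (finProdFinEquiv.symm k).2

/-- the encoding as an equivalence -/
def encE (n b : ℕ) : (Fin n → Bits b × Bits b) ≃ (Fin (n * (b + b)) → Bool) where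
  toFun := encB
  invFun z := fun i => (fun j => z (finProdFinEquiv (i, Fin.castAdd b j)),
    fun j => z (finProdFinEquiv (i, Fin.natAdd b j)))
  left_inv p := by
    funext i
    apply Prod.ext
    · funext j
      show Fin.append (p (finProdFinEquiv.symm (finProdFinEquiv (i, Fin.castAdd b j))).1).1
        (p (finProdFinEquiv.symm (finProdFinEquiv (i, Fin.castAdd b j))).1).2
        (finProdFinEquiv.symm (finProdFinEquiv (i, Fin.castAdd b j))).2 = (p i).1 j
      rw [Equiv.symm_apply_apply]
      exact Fin.append_left _ _ _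
    · funext j
      show Fin.append (p (finProdFinEquiv.symm (finProdFinEquiv (i, Fin.natAdd b j))).1).1
        (p (finProdFinEquiv.symm (finProdFinEquiv (i, Fin.natAdd b j))).1).2
        (finProdFinEquiv.symm (finProdFinEquiv (i, Fin.natAdd b j))).2 = (p i).2 j
      rw [Equiv.symm_apply_apply]
      exact Fin.append_right _ _ _
  right_inv z := by
    funext k
    obtain ⟨⟨i, j⟩, rfl⟩ := finProdFinEquiv.surjective k
    unfold encB
    simp only [Equiv.symm_apply_apply]
    refine Fin.addCases (fun l => ?_) (fun l => ?_) j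
    · rw [Fin.append_left]
    · rw [Fin.append_right]

theorem encE_apply (p : Fin n → Bits b × Bits b) : encE n b p = encB p := rfl

/-- exclusive or of cells -/
def xc (p t : Bits b × Bits b) : Bits b × Bits b :=
  (fun u => xor (p.1 u) (t.1 u), fun u => xor (p.2 u) (t.2 u))

theorem xc_inj (p : Bits b × Bits b) : Injective (xc p) := by
  intro t t' h
  unfold xc at h
  apply Prod.ext
  · funext u
    have h1 := congrFun (congrArg Prod.fst h) u
    simpa using h1
  · funext u
    have h1 := congrFun (congrArg Prod.snd h) u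
    simpa using h1

theorem append_xc (p t : Bits b × Bits b) (j : Fin (b + b)) :
    Fin.append (xc p t).1 (xc p t).2 j = xor (Fin.append p.1 p.2 j) (Fin.append t.1 t.2 j) := by
  refine Fin.addCases (fun l => ?_) (fun l => ?_) j
  · rw [Fin.append_left, Fin.append_left, Fin.append_left]
    rfl
  · rw [Fin.append_right, Fin.append_right, Fin.append_right]
    rfl

end enc

section block
variable {n m b : ℕ}

/-- the bits of a block -/
def blk (n m b j : ℕ) : Finset (Fin (n * (b + b))) :=
  ((posBlock n m j) ×ˢ (univ : Finset (Fin (b + b)))).map finProdFinEquiv.toEmbedding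

theorem mem_blk {j : ℕ} {k : Fin (n * (b + b))} :
    k ∈ blk n m b j ↔ ((finProdFinEquiv.symm k).1 : ℕ) / m = j := by
  unfold blk
  rw [mem_map_equiv, mem_product]
  simp [posBlock]

theorem blk_card (hm : 0 < m) (j : ℕ) : (blk n m b j).card ≤ m * (b + b) := by
  unfold blk
  rw [card_map, card_product, card_univ, Fintype.card_fin]
  exact Nat.mul_le_mul_right _ (posBlock_card hm j)

theorem blk_disjoint {j j' : ℕ} (h : j ≠ j') : Disjoint (blk n m b j) (blk n m b j') := by
  rw [disjoint_left]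
  intro k hk hk'
  rw [mem_blk] at hk hk'
  exact h (hk.symm.trans hk')

/-- change the block -/
def chg (hm : 0 < m) (j : ℕ) (t : Fin m → Bits b × Bits b) (p : Fin n → Bits b × Bits b) :
    Fin n → Bits b × Bits b :=
  fun i => if (i : ℕ) / m = j then xc (p i) (t ⟨(i : ℕ) % m, Nat.mod_lt _ hm⟩) else p i

theorem chg_flip (hm : 0 < m) (j : ℕ) (t : Fin m → Bits b × Bits b) :
    ∃ v ⊆ blk n m b j, ∀ p : Fin n → Bits b × Bits b,
      encE n b (chg hm j t p) = flipSet v (encE n b p) := by
  refine ⟨univ.filter fun k => ((finProdFinEquiv.symm k).1 : ℕ) / m = j ∧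
    Fin.append (t ⟨((finProdFinEquiv.symm k).1 : ℕ) % m, Nat.mod_lt _ hm⟩).1
      (t ⟨((finProdFinEquiv.symm k).1 : ℕ) % m, Nat.mod_lt _ hm⟩).2
      (finProdFinEquiv.symm k).2 = true, ?_, ?_⟩
  · intro k hk
    rw [mem_blk]
    exact (mem_filter.1 hk).2.1
  · intro p
    funext k
    rw [encE_apply, encE_apply]
    unfold flipSet
    simp only [mem_filter, mem_univ, true_and]
    unfold encB
    by_cases h : ((finProdFinEquiv.symm k).1 : ℕ) / m = j
    · have e1 : chg hm j t p (finProdFinEquiv.symm k).1 =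
          xc (p (finProdFinEquiv.symm k).1)
            (t ⟨((finProdFinEquiv.symm k).1 : ℕ) % m, Nat.mod_lt _ hm⟩) := by
        unfold chg
        rw [if_pos h]
      rw [e1, append_xc]
      cases h2 : Fin.append (t ⟨((finProdFinEquiv.symm k).1 : ℕ) % m, Nat.mod_lt _ hm⟩).1
        (t ⟨((finProdFinEquiv.symm k).1 : ℕ) % m, Nat.mod_lt _ hm⟩).2
        (finProdFinEquiv.symm k).2
      · rw [if_neg (fun h3 => Bool.false_ne_true h3.2), Bool.xor_false]
      · rw [if_pos ⟨h, rfl⟩, Bool.xor_true]
    · have e1 : chg hm j t p (finProdFinEquiv.symm k).1 = p (finProdFinEquiv.symm k).1 := by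
        unfold chg
        rw [if_neg h]
      rw [e1, if_neg fun hh => h hh.1]

/-- the position in a block -/
def pos (hj : ℕ) (j : ℕ) (h : j < n / m) (s : Fin m) : Fin n :=
  ⟨j * m + s, by
    have h1 : (j + 1) * m ≤ n / m * m := Nat.mul_le_mul_right _ h
    have h2 := Nat.div_mul_le_self n m
    have h3 := s.2
    have h4 : (j + 1) * m = j * m + m := by ring
    omega⟩

theorem pos_div (hm : 0 < m) {j : ℕ} (h : j < n / m) (s : Fin m) :
    ((pos 0 j h s : Fin n) : ℕ) / m = j := by
  show (j * m + (s : ℕ)) / m = j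
  rw [mul_comm, Nat.mul_add_div hm, Nat.div_eq_of_lt s.2, add_zero]

theorem pos_mod {j : ℕ} (h : j < n / m) (s : Fin m) :
    ((pos 0 j h s : Fin n) : ℕ) % m = s := by
  show (j * m + (s : ℕ)) % m = s
  rw [mul_comm, Nat.mul_add_mod, Nat.mod_eq_of_lt s.2]

theorem pos_eq (hm : 0 < m) {j : ℕ} (h : j < n / m) (i : Fin n) (hi : (i : ℕ) / m = j) :
    pos 0 j h ⟨(i : ℕ) % m, Nat.mod_lt _ hm⟩ = i := by
  apply Fin.ext
  show j * m + (i : ℕ) % m = i
  rw [← hi, mul_comm]
  exact Nat.div_add_mod _ _

/-- put a block into a word -/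
def put {X : Type} (hm : 0 < m) (j : ℕ) (z : Fin m → X) (p : Fin n → X) : Fin n → X :=
  fun i => if (i : ℕ) / m = j then z ⟨(i : ℕ) % m, Nat.mod_lt _ hm⟩ else p i

theorem put_inj {X : Type} (hm : 0 < m) {j : ℕ} (h : j < n / m) (p : Fin n → X) :
    Injective fun z : Fin m → X => put hm j z p := by
  intro z z' hz
  funext s
  have h1 := congrFun hz (pos 0 j h s)
  simp only [put, pos_div hm h s, if_true] at h1
  have e : (⟨((pos 0 j h s : Fin n) : ℕ) % m, Nat.mod_lt _ hm⟩ : Fin m) = s :=
    Fin.ext (pos_mod h s)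
  rw [e] at h1
  exact h1

theorem chg_put (hm : 0 < m) {j : ℕ} (h : j < n / m) (t : Fin m → Bits b × Bits b)
    (p : Fin n → Bits b × Bits b) :
    chg hm j t p = put hm j (fun s => xc (p (pos 0 j h s)) (t s)) p := by
  funext i
  unfold chg put
  by_cases hi : (i : ℕ) / m = j
  · rw [if_pos hi, if_pos hi]
    show xc (p i) _ = xc (p (pos 0 j h ⟨(i : ℕ) % m, Nat.mod_lt _ hm⟩)) _
    rw [pos_eq hm h i hi]
  · rw [if_neg hi, if_neg hi]

/-- slices of free sets are free -/
theorem slice_free (hm : 0 < m) {j : ℕ} (h : j < n / m)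
    (mul : Fin n → Bits b → Bits b → Bits b) {e N : ℕ} (A : Finset (Fin n → Bits b × Bits b))
    (hA : Free mul e N A) (p : Fin n → Bits b × Bits b) :
    Free (fun s => mul (pos 0 j h s)) e N
      (univ.filter fun z : Fin m → Bits b × Bits b => put hm j z p ∈ A) := by
  classical
  intro T hT hTe R C S hRCS
  have h1 := hA (T.image fun z => put hm j z p) ?_ ?_
    (R.image fun x => put hm j x fun i => (p i).1)
    (C.image fun x => put hm j x fun i => (p i).2)
    (S.image fun x => put hm j x fun i => mul i (p i).1 (p i).2) ?_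
  · have a1 : (R.image fun x => put hm j x fun i => (p i).1).card ≤ R.card := card_image_le
    have a2 : (C.image fun x => put hm j x fun i => (p i).2).card ≤ C.card := card_image_le
    have a3 : (S.image fun x => put hm j x fun i => mul i (p i).1 (p i).2).card ≤ S.card :=
      card_image_le
    omega
  · intro q hq
    obtain ⟨z, hz, rfl⟩ := mem_image.1 hq
    exact (mem_filter.1 (hT hz)).2
  · rw [card_image_of_injective _ (put_inj hm h p), hTe]
  · intro q hq
    obtain ⟨z, hz, rfl⟩ := mem_image.1 hq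
    obtain ⟨h2, h3, h4⟩ := hRCS z hz
    refine ⟨mem_image.2 ⟨_, h2, ?_⟩, mem_image.2 ⟨_, h3, ?_⟩, mem_image.2 ⟨_, h4, ?_⟩⟩
    · funext i
      unfold put
      split_ifs <;> rfl
    · funext i
      unfold put
      split_ifs <;> rfl
    · funext i
      unfold put
      split_ifs with hi
      · show mul (pos 0 j h ⟨(i : ℕ) % m, Nat.mod_lt _ hm⟩) _ _ = _
        rw [pos_eq hm h i hi]
      · rfl

theorem free_mono {mul : Fin n → Bits b → Bits b → Bits b} {e N : ℕ}
    {A B : Finset (Fin n → Bits b × Bits b)} (h : B ⊆ A) (hA : Free mul e N A) :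
    Free mul e N B := fun T hT => hA T (hT.trans h)

end block

/-- **free sets have small density on large sets decided by circuits** -/
theorem rel_gen (b e N m : ℕ) (hb : 1 ≤ b) (hm : 0 < m) (δ : ℝ) (hδ : 0 < δ) :
    ∃ c : ℝ, 0 < c ∧ ∀ (n w ℓ d : ℕ) (C : Y603.MS.Circuit w (n * (b + b))), C.leak = ∅ →
      1 ≤ ℓ → 1 ≤ w → 1 ≤ d → Nat.card C.Node ≤ 2 ^ ℓ → (∀ v, C.depth v ≤ d) → ∀ (o : C.Node)
      (mul : Fin n → Bits b → Bits b → Bits b),
      (∀ (j : ℕ) (h : j < n / m),
        Y426.BES.Cells (fun s : Fin m => mul (pos 0 j h s)) (δ / 2) e N) →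
      ∀ F A : Finset (Fin n → Bits b × Bits b),
      (∀ p, p ∈ F ↔ C.val o (encB p) = true) → Free mul e N A →
      ((A ∩ F).card : ℝ) ≤ δ * F.card +
        2 ^ (n * (b + b)) * (2 : ℝ) ^ (2 * ℓ + 1 / c - c * n / (d * KK d w ℓ)) := by
  classical
  obtain ⟨c, hc0, hcc⟩ := num_c m hm (4 * (m * (b + b) : ℕ) / δ) (δ / 4)
    (by
      have : 0 < m * (b + b) := Nat.mul_pos hm (by omega)
      have : (0 : ℝ) < (m * (b + b) : ℕ) := by exact_mod_cast this
      positivity) (by positivity)
  refine ⟨c, hc0, fun n w ℓ d C hleak hℓ hw hd1 hs hd o mul hcells F A hF hA => ?_⟩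
  obtain ⟨h1, h2⟩ := hcc n (d * KK d w ℓ) (2 * ℓ) (one_le_dKK hd1 hw hℓ) (by positivity)
  have hAF : ((A ∩ F).card : ℝ) ≤ F.card := by exact_mod_cast card_le_card inter_subset_right
  have hFc : (F.card : ℝ) ≤ 2 ^ (n * (b + b)) := by
    have h3 := card_le_univ F
    rw [Fintype.card_congr (encE n b), Fintype.card_fun, Fintype.card_bool,
      Fintype.card_fin] at h3
    exact_mod_cast h3
  have hδF : 0 ≤ δ * F.card := by positivity
  have h4 : (0 : ℝ) < 2 ^ (n * (b + b)) := by positivity
  rcases le_or_gt m n with hmn | hnm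
  · have h3 := h1 hmn
    have e4 : 2 * ((m * (b + b) : ℕ) : ℝ) / (δ / 2) = 4 * ((m * (b + b) : ℕ) : ℝ) / δ := by
      field_simp
      ring
    by_cases hlarge : 2 * ((m * (b + b) : ℕ) : ℝ) / (δ / 2) * (2 ^ (n * (b + b)) *
        (2 : ℝ) ^ (2 * ℓ + 4 - δ / 2 / 2 * (n / m : ℕ) / (d * KK d w ℓ))) ≤ F.card
    · have hk : 1 ≤ n / m := (Nat.one_le_div_iff hm).2 hmn
      have hcard : (Fintype.card (Fin m → Bits b × Bits b) : ℝ) =
          ((∏ _i : Fin m, Fintype.card (Bits b) : ℕ) : ℝ) ^ 2 := by
        rw [Fintype.card_pi]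
        simp only [Fintype.card_prod, prod_const, card_univ, Fintype.card_fin]
        push_cast
        ring
      have hpos : (0 : ℝ) < Fintype.card (Fin m → Bits b × Bits b) := by
        exact_mod_cast Fintype.card_pos
      set r : ℕ := ⌊δ / 2 * (Fintype.card (Fin m → Bits b × Bits b) : ℝ)⌋₊ with hr
      have h := rel_circ Y220.CO.done C hleak hℓ hw hd1 hs hd o (encE n b) F A hF (k := n / m)
        (q := m * (b + b)) hk (fun j => blk n m b j)
        (fun j j' hjj => blk_disjoint fun h => hjj (Fin.ext h))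
        (fun j => blk_card hm j) (T := Fin m → Bits b × Bits b)
        (fun j t p => chg hm j t p) (fun j t => chg_flip hm j t) r ?_ (ε := δ / 2)
        (by positivity) hlarge
      · have h5 : (r : ℝ) / Fintype.card (Fin m → Bits b × Bits b) ≤ δ / 2 := by
          rw [div_le_iff₀ hpos]
          exact Nat.floor_le (by positivity)
        have h6 : ((r : ℝ) / Fintype.card (Fin m → Bits b × Bits b) + δ / 2) * F.card ≤
            δ * F.card := by
          apply mul_le_mul_of_nonneg_right _ (Nat.cast_nonneg _)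
          linarith
        have h7 : (0 : ℝ) ≤ 2 ^ (n * (b + b)) *
          (2 : ℝ) ^ (2 * ℓ + 1 / c - c * n / (d * KK d w ℓ)) := by positivity
        linarith
      · intro j p
        have hj : (j : ℕ) < n / m := j.2
        set B := univ.filter fun z : Fin m → Bits b × Bits b => put hm j z p ∈ A with hB
        have h5 : (univ.filter fun t : Fin m → Bits b × Bits b => chg hm j t p ∈ A).card ≤
            B.card := by
          refine card_le_card_of_injOn (fun t => fun s => xc (p (pos 0 j hj s)) (t s)) ?_ ?_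
          · intro t ht
            have ht' := (mem_filter.1 (mem_coe.1 ht)).2
            rw [chg_put hm hj] at ht'
            exact mem_coe.2 (mem_filter.2 ⟨mem_univ _, ht'⟩)
          · intro t _ t' _ htt
            funext s
            exact xc_inj _ (congrFun htt s)
        refine h5.trans ?_
        rw [hr]
        apply Nat.le_floor
        by_contra hcon
        push Not at hcon
        rw [hcard] at hcon
        obtain ⟨T, hTB, hTe, R, C', S, hRCS, hT⟩ := hcells j hj B hcon.le
        have h6 := slice_free hm hj mul A hA p T hTB hTe R C' S hT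
        omega
    · push Not at hlarge
      have h5 := mul_le_mul_of_nonneg_left h3 h4.le
      rw [e4] at hlarge
      have e5 : δ / 2 / 2 = δ / 4 := by ring
      rw [e5] at hlarge
      have h6 : 4 * ((m * (b + b) : ℕ) : ℝ) / δ *
        (2 ^ (n * (b + b)) * (2 : ℝ) ^ (2 * ℓ + 4 - δ / 4 * (n / m : ℕ) / (d * KK d w ℓ))) =
        2 ^ (n * (b + b)) * (4 * ((m * (b + b) : ℕ) : ℝ) / δ *
          (2 : ℝ) ^ (2 * ℓ + 4 - δ / 4 * (n / m : ℕ) / (d * KK d w ℓ))) := by
        ring
      linarith
  · have h3 := h2 hnm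
    have h5 := mul_le_mul_of_nonneg_left h3 h4.le
    linarith

/-- products of arbitrary quasigroups: `e` cells with `e + 3` rows, columns and symbols -/
theorem cells_quasi (e b : ℕ) (hb : 1 ≤ b) (he : 1 ≤ e) (δ : ℝ) (hδ : 0 < δ) :
    ∃ m : ℕ, 0 < m ∧ ∀ mul : Fin m → Bits b → Bits b → Bits b, (∀ i a, Bijective (mul i a)) →
      (∀ i a, Bijective fun x => mul i x a) → Y426.BES.Cells mul δ e (e + 3) := by
  obtain ⟨N₀, hN₀⟩ := Y426.BES.cells_many.{0, 0} e he δ hδ
  refine ⟨N₀ + 1, by omega, fun mul h1 h2 => hN₀ (Fin (N₀ + 1)) (fun _ => Bits b) mul h1 h2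
    (by rw [Fintype.card_fin]; omega) (fun _ => ?_)⟩
  rw [Fintype.card_fun, Fintype.card_bool, Fintype.card_fin]
  calc 2 = 2 ^ 1 := rfl
    _ ≤ 2 ^ b := Nat.pow_le_pow_right (by norm_num) hb

/-- powers of one operation: full subtables -/
theorem cells_power (b j : ℕ) (hj : 1 ≤ j) (δ : ℝ) (hδ : 0 < δ) :
    ∃ m : ℕ, 0 < m ∧ ∀ op : Bits b → Bits b → Bits b,
      Y426.BES.Cells (fun _ : Fin m => op) δ ((2 ^ b) ^ (2 * j)) (3 * (2 ^ b) ^ j) := by
  classical
  obtain ⟨n, hn⟩ := Helper903.DHJ.mdhj (Bits b × Bits b) j (min δ 1) (lt_min hδ one_pos)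
  refine ⟨n, ?_, ?_⟩
  · by_contra h0
    obtain ⟨V, -⟩ := hn {x | True} (by
      rw [Y426.BES.dens_eq]
      simp only [filter_true, card_univ]
      rw [div_self (by exact_mod_cast Fintype.card_ne_zero)]
      exact min_le_right _ _)
    obtain ⟨i, -⟩ := V.proper ⟨0, hj⟩
    exact absurd i.2 (by omega)
  · intro op H hH
    have hpos : (0 : ℝ) < Fintype.card (Fin n → Bits b × Bits b) := by
      exact_mod_cast Fintype.card_pos
    have hcard : (Fintype.card (Fin n → Bits b × Bits b) : ℝ) =
        ((∏ _i : Fin n, Fintype.card (Bits b) : ℕ) : ℝ) ^ 2 := by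
      rw [Fintype.card_pi]
      simp only [Fintype.card_prod, prod_const, card_univ, Fintype.card_fin]
      push_cast
      ring
    obtain ⟨V, hV⟩ := hn {w | w ∈ H} (by
      rw [Y426.BES.dens_eq]
      refine (min_le_left _ _).trans ?_
      rw [le_div_iff₀ hpos, hcard]
      refine hH.trans (le_of_eq ?_)
      congr 2
      ext z
      simp)
    have hcf : Fintype.card (Fin j → Bits b) = (2 ^ b) ^ j := by
      rw [Fintype.card_fun, Fintype.card_fun, Fintype.card_bool, Fintype.card_fin,
        Fintype.card_fin]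
    refine ⟨univ.image fun z : Fin j → Bits b × Bits b => V z, ?_, ?_,
      univ.image fun x : Fin j → Bits b => fun i => (V (fun e => (x e, x e)) i).1,
      univ.image fun x : Fin j → Bits b => fun i => (V (fun e => (x e, x e)) i).2,
      univ.image fun x : Fin j → Bits b => fun i =>
        Sum.elim (fun c => op c.1 c.2) x (V.idxFun i), ?_, ?_⟩
    · intro p hp
      obtain ⟨z, -, rfl⟩ := mem_image.1 hp
      exact hV z
    · rw [card_image_of_injective _ (Helper903.DHJ.sub_inj V), card_univ, Fintype.card_fun,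
        Fintype.card_prod, Fintype.card_fun, Fintype.card_bool, Fintype.card_fin,
        Fintype.card_fin, pow_mul]
      congr 1
      ring
    · have a1 : ∀ g : (Fin j → Bits b) → (Fin n → Bits b),
          (univ.image g).card ≤ (2 ^ b) ^ j := by
        intro g
        rw [← hcf, ← card_univ]
        exact card_image_le
      have b1 := a1 fun x => fun i => (V (fun e => (x e, x e)) i).1
      have b2 := a1 fun x => fun i => (V (fun e => (x e, x e)) i).2
      have b3 := a1 fun x => fun i => Sum.elim (fun c => op c.1 c.2) x (V.idxFun i)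
      omega
    · intro p hp
      obtain ⟨z, -, rfl⟩ := mem_image.1 hp
      refine ⟨mem_image.2 ⟨fun e => (z e).1, mem_univ _, ?_⟩,
        mem_image.2 ⟨fun e => (z e).2, mem_univ _, ?_⟩,
        mem_image.2 ⟨fun e => op (z e).1 (z e).2, mem_univ _, ?_⟩⟩
      · funext i
        rw [Combinatorics.Subspace.apply_def, Combinatorics.Subspace.apply_def]
        rcases V.idxFun i with c | e <;> rfl
      · funext i
        rw [Combinatorics.Subspace.apply_def, Combinatorics.Subspace.apply_def]
        rcases V.idxFun i with c | e <;> rfl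
      · funext i
        rw [Combinatorics.Subspace.apply_def]
        rcases V.idxFun i with c | e <;> rfl

/-- from hypergraphs to cells -/
theorem graph_rel {n b : ℕ} (mul : Fin n → Bits b → Bits b → Bits b) (r e N : ℕ)
    (he : 1 ≤ e) (hN : 3 ≤ N) (F : Finset (Fin n → Bits b × Bits b))
    {V : Type} [DecidableEq V] (α β γ : (Fin n → Bits b) → V) (G : Finset (Finset V))
    (hG : ∀ f ∈ G, f.card = r ∧ ∃ p ∈ F, ∃ t ⊆ f, t.card = 3 ∧
      t = {α (fun i => (p i).1), β (fun i => (p i).2), γ (fun i => mul i (p i).1 (p i).2)})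
    (hfree : ∀ S ⊆ G, S.card = e → N + e * (r - 3) < (S.biUnion id).card) :
    ∃ A ⊆ F, Free mul e N A ∧ G.card ≤ A.card * e := by
  classical
  have hcell : ∀ f ∈ G, ∃ p ∈ F, ∃ t ⊆ f, t.card = 3 ∧
      t = {α (fun i => (p i).1), β (fun i => (p i).2), γ (fun i => mul i (p i).1 (p i).2)} :=
    fun f hf => (hG f hf).2
  choose! κ hκF hκ using hcell
  have hbig : ∀ p, (G.filter fun f => κ f = p).card < e := by
    intro p
    by_contra hp
    push Not at hp
    obtain ⟨S, hS, hSc⟩ := exists_subset_card_eq hp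
    have h0 := hfree S (fun f hf => (mem_filter.mp (hS hf)).1) hSc
    have h1 := Y426.BES.union_le S {α (fun i => (p i).1), β (fun i => (p i).2),
      γ (fun i => mul i (p i).1 (p i).2)} r (by
        intro f hf
        obtain ⟨hfG, hfp⟩ := mem_filter.mp (hS hf)
        obtain ⟨t, ht1, ht2, ht3⟩ := hκ f hfG
        rw [hfp] at ht3
        exact ⟨(hG f hfG).1, t, ht1, ht2, by rw [ht3]⟩)
    have h2 : ({α (fun i => (p i).1), β (fun i => (p i).2),
      γ (fun i => mul i (p i).1 (p i).2)} : Finset V).card ≤ 3 := card_le_three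
    rw [hSc] at h1
    omega
  refine ⟨G.image κ, ?_, ?_, ?_⟩
  · intro p hp
    obtain ⟨f, hf, rfl⟩ := mem_image.1 hp
    exact hκF f hf
  · intro T hTH hTc R C S hT
    by_contra hRCS
    push Not at hRCS
    have hsec : ∀ t ∈ T, ∃ f ∈ G, κ f = t := fun t ht => mem_image.mp (hTH ht)
    choose! φ hφ using hsec
    have hφinj : Set.InjOn φ T := by
      intro t ht t' ht' h
      rw [← (hφ t ht).2, ← (hφ t' ht').2, h]
    have h0 := hfree (T.image φ) (by
      intro f hf
      obtain ⟨t, ht, rfl⟩ := mem_image.mp hf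
      exact (hφ t ht).1) (by rw [card_image_of_injOn hφinj, hTc])
    have h1 := Y426.BES.union_le (T.image φ) (R.image α ∪ C.image β ∪ S.image γ) r (by
        intro f hf
        obtain ⟨t, ht, rfl⟩ := mem_image.mp hf
        obtain ⟨hfG, hfp⟩ := hφ t ht
        obtain ⟨s, hs1, hs2, hs3⟩ := hκ (φ t) hfG
        rw [hfp] at hs3
        obtain ⟨hR, hC, hS⟩ := hT t ht
        refine ⟨(hG _ hfG).1, s, hs1, hs2, ?_⟩
        rw [hs3]
        intro z hz
        simp only [mem_insert, mem_singleton] at hz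
        rcases hz with rfl | rfl | rfl
        · exact mem_union_left _ (mem_union_left _ (mem_image_of_mem _ hR))
        · exact mem_union_left _ (mem_union_right _ (mem_image_of_mem _ hC))
        · exact mem_union_right _ (mem_image_of_mem _ hS))
    have h2 : (R.image α ∪ C.image β ∪ S.image γ).card ≤ N := by
      have a1 := card_union_le (R.image α ∪ C.image β) (S.image γ)
      have a2 := card_union_le (R.image α) (C.image β)
      have a3 : (R.image α).card ≤ R.card := card_image_le
      have a4 : (C.image β).card ≤ C.card := card_image_le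
      have a5 : (S.image γ).card ≤ S.card := card_image_le
      omega
    rw [card_image_of_injOn hφinj, hTc] at h1
    omega
  · rw [card_eq_sum_card_image κ G, ← smul_eq_mul, ← sum_const]
    exact sum_le_sum fun p _ => (hbig p).le

/-- the relative theorem for hypergraphs -/
theorem hyper_rel (b r e N m : ℕ) (hb : 1 ≤ b) (he : 1 ≤ e) (hN : 3 ≤ N) (hm : 0 < m) (δ : ℝ)
    (hδ : 0 < δ) :
    ∃ c : ℝ, 0 < c ∧ ∀ (n w ℓ d : ℕ) (C : Y603.MS.Circuit w (n * (b + b))), C.leak = ∅ →
      1 ≤ ℓ → 1 ≤ w → 1 ≤ d → Nat.card C.Node ≤ 2 ^ ℓ → (∀ v, C.depth v ≤ d) → ∀ (o : C.Node)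
      (mul : Fin n → Bits b → Bits b → Bits b),
      (∀ (j : ℕ) (h : j < n / m),
        Y426.BES.Cells (fun s : Fin m => mul (pos 0 j h s)) (δ / e / 2) e N) →
      ∀ F : Finset (Fin n → Bits b × Bits b), (∀ p, p ∈ F ↔ C.val o (encB p) = true) →
      ∀ (V : Type) [DecidableEq V] (α β γ : (Fin n → Bits b) → V) (G : Finset (Finset V)),
      (∀ f ∈ G, f.card = r ∧ ∃ p ∈ F, ∃ t ⊆ f, t.card = 3 ∧
        t = {α (fun i => (p i).1), β (fun i => (p i).2), γ (fun i => mul i (p i).1 (p i).2)}) →
      (∀ S ⊆ G, S.card = e → N + e * (r - 3) < (S.biUnion id).card) →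
      (G.card : ℝ) ≤ δ * F.card +
        2 ^ (n * (b + b)) * (2 : ℝ) ^ (2 * ℓ + 1 / c - c * n / (d * KK d w ℓ)) := by
  have he0 : (0 : ℝ) < e := by exact_mod_cast he
  obtain ⟨c, hc, h⟩ := rel_gen b e N m hb hm (δ / e) (by positivity)
  have hc' : 0 < 1 / (1 / c + e) := by positivity
  have hcc : 1 / (1 / c + e) ≤ c := by
    rw [div_le_iff₀ (by positivity), mul_add, mul_one_div_cancel hc.ne']
    have : 0 ≤ c * e := by positivity
    linarith
  refine ⟨1 / (1 / c + e), hc', ?_⟩
  intro n w ℓ d C hleak hℓ hw hd1 hs hd o mul hcells F hF V _ α β γ G hG hfree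
  obtain ⟨A, hAF, hA, hGA⟩ := graph_rel mul r e N he hN F α β γ G hG hfree
  have h1 := h n w ℓ d C hleak hℓ hw hd1 hs hd o mul hcells F A hF hA
  rw [inter_eq_left.2 hAF] at h1
  have h2 : (G.card : ℝ) ≤ A.card * e := by exact_mod_cast hGA
  have h3 := mul_le_mul_of_nonneg_right h1 he0.le
  have h4 : (e : ℝ) ≤ (2 : ℝ) ^ (e : ℝ) := by
    rw [Real.rpow_natCast]
    exact_mod_cast (Nat.lt_two_pow_self (n := e)).le
  have hX := one_le_dKK hd1 hw hℓ
  have h5 : (2 : ℝ) ^ (2 * ℓ + 1 / c - c * n / (d * KK d w ℓ)) * e ≤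
      (2 : ℝ) ^ (2 * ℓ + 1 / (1 / (1 / c + e)) - 1 / (1 / c + e) * n / (d * KK d w ℓ)) := by
    refine (mul_le_mul_of_nonneg_left h4 (by positivity)).trans ?_
    rw [← Real.rpow_add (by norm_num)]
    apply Real.rpow_le_rpow_of_exponent_le (by norm_num)
    rw [one_div_one_div]
    have h6 : 1 / (1 / c + e) * n / (d * KK d w ℓ) ≤ c * n / (d * KK d w ℓ) := by
      apply div_le_div_of_nonneg_right _ (by linarith)
      exact mul_le_mul_of_nonneg_right hcc (Nat.cast_nonneg _)
    linarith
  have h7 := mul_le_mul_of_nonneg_left h5 (by positivity : (0 : ℝ) ≤ 2 ^ (n * (b + b)))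
  have h8 : (δ / e * F.card + 2 ^ (n * (b + b)) *
      (2 : ℝ) ^ (2 * ℓ + 1 / c - c * n / (d * KK d w ℓ))) * e =
      δ * F.card + 2 ^ (n * (b + b)) *
      ((2 : ℝ) ^ (2 * ℓ + 1 / c - c * n / (d * KK d w ℓ)) * e) := by
    field_simp
  linarith

end Pool.Agent.Y347.CO.Bes
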