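import Pool.Agent.Y347.CO.Ops

set_option autoImplicit false

/-!
# Families of binary words closed under meets without edges in some directions
-/

namespace Pool.Agent.Y347.CO

open Finset Function

section
variable {ι : Type} [Fintype ι] [DecidableEq ι] {D : ι → Type} [∀ i, Fintype (D i)]
  [∀ i, SemilatticeInf (D i)]

open Classical in
/-- `U` contains all coordinates in which two words of `A` differ -/
theorem bits_aux (hD : ∀ i, Fintype.card (D i) ≤ 2) (I : Finset ι) :
    ∀ (k : ℕ) (U : Finset ι) (A : Finset (∀ i, D i)), U.card = k →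
      (∀ a ∈ A, ∀ b ∈ A, a ⊓ b ∈ A) → (∀ a ∈ A, ∀ b ∈ A, ∀ i, i ∉ U → a i = b i) →
      (∀ i ∈ I, ∀ a ∈ A, ∀ d, d ≠ a i → update a i d ∉ A) →
      A.card ^ 2 ≤ ∏ i ∈ U, (if i ∈ I then 2 else 4) := by
  intro k
  induction k using Nat.strong_induction_on with
  | _ k ih =>
  intro U A hUk hinf hU hI
  have hprod1 : ∀ s : Finset ι, 1 ≤ ∏ i ∈ s, (if i ∈ I then 2 else 4) := by
    intro s
    apply Nat.one_le_iff_ne_zero.2
    rw [prod_ne_zero_iff]
    intro i _
    split_ifs <;> norm_num
  rcases A.eq_empty_or_nonempty with rfl | hA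
  · simp
  obtain ⟨m, hm, hmle⟩ : ∃ m ∈ A, ∀ a ∈ A, m ≤ a := by
    refine ⟨A.inf' hA id, ?_, fun a ha => inf'_le id ha⟩
    exact inf'_mem (A : Set (∀ i, D i)) (fun x hx y hy => hinf x hx y hy) A hA id
      (fun i hi => hi)
  by_cases hone : ∀ a ∈ A, a = m
  · have : A = {m} := by
      ext a
      rw [mem_singleton]
      exact ⟨hone a, fun h => h ▸ hm⟩
    rw [this, card_singleton, one_pow]
    exact hprod1 U
  push Not at hone
  obtain ⟨c, hc, hcmin⟩ : ∃ c, (c ∈ A ∧ c ≠ m) ∧ ∀ a ∈ A, a ≠ m → a ≤ c → c ≤ a := by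
    obtain ⟨a, ha, ham⟩ := hone
    obtain ⟨c, hc⟩ := (A.filter fun a => a ≠ m).exists_minimal ⟨a, mem_filter.2 ⟨ha, ham⟩⟩
    refine ⟨c, mem_filter.1 hc.1, fun a ha ham hac => hc.2 (mem_filter.2 ⟨ha, ham⟩) hac⟩
  have hmc : m ≤ c := hmle c hc.1
  set T : Finset ι := univ.filter fun i => c i ≠ m i with hT
  have hTU : T ⊆ U := by
    intro i hi
    by_contra h
    exact (mem_filter.1 hi).2 (hU c hc.1 m hm i h)
  have htwo : ∀ i ∈ T, ∀ d : D i, d = m i ∨ d = c i := by
    intro i hi d
    by_contra hcon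
    push Not at hcon
    have h1 : ({d, m i, c i} : Finset (D i)).card = 3 := by
      rw [card_eq_three]
      exact ⟨d, m i, c i, hcon.1, hcon.2, Ne.symm (mem_filter.1 hi).2, rfl⟩
    have h2 := card_le_univ ({d, m i, c i} : Finset (D i))
    have := hD i
    omega
  -- the product over `T` is at least 4
  have hTprod : 4 ≤ ∏ i ∈ T, (if i ∈ I then 2 else 4) := by
    obtain ⟨i, hi⟩ : T.Nonempty := by
      rw [Finset.nonempty_iff_ne_empty]
      intro h
      apply hc.2
      funext i
      by_contra h'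
      have : i ∈ T := mem_filter.2 ⟨mem_univ _, h'⟩
      rw [h] at this
      exact absurd this (notMem_empty i)
    rw [← mul_prod_erase _ _ hi]
    by_cases hiI : i ∈ I
    · rw [if_pos hiI]
      obtain ⟨j, hj⟩ : (T.erase i).Nonempty := by
        rw [Finset.nonempty_iff_ne_empty]
        intro h
        have hcu : update m i (c i) = c := by
          funext l
          rcases eq_or_ne l i with rfl | hl
          · rw [update_self]
          · rw [update_of_ne hl]
            by_contra h'
            have : l ∈ T.erase i :=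
              mem_erase.2 ⟨hl, mem_filter.2 ⟨mem_univ _, fun e => h' e.symm⟩⟩
            rw [h] at this
            exact absurd this (notMem_empty l)
        exact hI i hiI m hm (c i) (mem_filter.1 hi).2 (by rw [hcu]; exact hc.1)
      rw [← mul_prod_erase _ _ hj]
      have h1 : 2 ≤ (if j ∈ I then 2 else 4) := by split_ifs <;> norm_num
      have h2 := hprod1 ((T.erase i).erase j)
      nlinarith
    · rw [if_neg hiI]
      have h2 := hprod1 (T.erase i)
      nlinarith
  have hsplit : (∏ i ∈ U \ T, (if i ∈ I then 2 else 4)) * ∏ i ∈ T, (if i ∈ I then 2 else 4) =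
      ∏ i ∈ U, (if i ∈ I then 2 else 4) := prod_sdiff hTU
  have hTne : T.Nonempty := by
    rw [Finset.nonempty_iff_ne_empty]
    rintro h
    rw [h, prod_empty] at hTprod
    omega
  have hlt : (U \ T).card < k := by
    rw [← hUk]
    apply card_lt_card
    refine ⟨sdiff_subset, fun h => ?_⟩
    obtain ⟨i, hi⟩ := hTne
    exact (mem_sdiff.1 (h (hTU hi))).2 hi
  have sub_inf : ∀ (p : (∀ i, D i) → Prop) [DecidablePred p], (∀ a b, p a → p b → p (a ⊓ b)) →
      ∀ a ∈ A.filter p, ∀ b ∈ A.filter p, a ⊓ b ∈ A.filter p := by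
    intro p _ hp a ha b hb
    rw [mem_filter] at ha hb ⊢
    exact ⟨hinf a ha.1 b hb.1, hp a b ha.2 hb.2⟩
  have sub_I : ∀ B : Finset (∀ i, D i), B ⊆ A → ∀ i ∈ I, ∀ a ∈ B, ∀ d, d ≠ a i →
      update a i d ∉ B := fun B hB i hi a ha d hd h => hI i hi a (hB ha) d hd (hB h)
  set A1 := A.filter (fun a => c ≤ a) with hA1
  set A2 := A.filter (fun a => ¬ c ≤ a) with hA2
  have hcard : A1.card + A2.card = A.card := by
    rw [hA1, hA2, card_filter_add_card_filter_not]
  have h1 := ih _ hlt (U \ T) A1 rfl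
    (sub_inf (fun a => c ≤ a) fun _ _ ha hb => le_inf ha hb) ?_ (sub_I A1 (filter_subset _ _))
  swap
  · intro a ha b hb i hi
    rw [hA1, mem_filter] at ha hb
    by_cases hiT : i ∈ T
    · have key : ∀ x : ∀ i, D i, c ≤ x → x i = c i := by
        intro x hx
        rcases htwo i hiT (x i) with h | h
        · exfalso
          have : c i ≤ m i := by rw [← h]; exact hx i
          exact (mem_filter.1 hiT).2 (le_antisymm this (hmc i))
        · exact h
      rw [key a ha.2, key b hb.2]
    · exact hU a ha.1 b hb.1 i (fun h => hi (mem_sdiff.2 ⟨h, hiT⟩))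
  have h2 := ih _ hlt (U \ T) A2 rfl
    (sub_inf (fun a => ¬ c ≤ a) fun _ _ ha _ h => ha (le_trans h inf_le_left)) ?_
    (sub_I A2 (filter_subset _ _))
  swap
  · intro a ha b hb i hi
    rw [hA2, mem_filter] at ha hb
    by_cases hiT : i ∈ T
    · have key : ∀ x ∈ A, ¬ c ≤ x → x i = m i := by
        intro x hx hcx
        have e : x ⊓ c = m := by
          by_contra hne
          exact hcx ((hcmin (x ⊓ c) (hinf x hx c hc.1) hne inf_le_right).trans inf_le_left)
        rcases htwo i hiT (x i) with h | h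
        · exact h
        · exfalso
          have h3 := congrFun e i
          rw [Pi.inf_apply, h, inf_idem] at h3
          exact (mem_filter.1 hiT).2 h3
      rw [key a ha.1 ha.2, key b hb.1 hb.2]
    · exact hU a ha.1 b hb.1 i (fun h => hi (mem_sdiff.2 ⟨h, hiT⟩))
  rw [← hsplit, ← hcard]
  set P := ∏ i ∈ U \ T, (if i ∈ I then 2 else 4)
  set Q := ∏ i ∈ T, (if i ∈ I then 2 else 4)
  have h3 : (A1.card + A2.card) ^ 2 ≤ 2 * (A1.card ^ 2 + A2.card ^ 2) := by
    zify
    nlinarith [sq_nonneg ((A1.card : ℤ) - A2.card)]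
  have h4 : P * 4 ≤ P * Q := Nat.mul_le_mul_left _ hTprod
  omega

end

section
variable {ι : Type} [Fintype ι] [DecidableEq ι] {D : ι → Type} [∀ i, Fintype (D i)]

/-- **Binary words closed under semilattice operations without edges in the directions of `I`.** -/
theorem bits_ops (hD : ∀ i, Fintype.card (D i) ≤ 2)
    (s : ∀ i, D i → D i → D i) (hs : ∀ i, IsSemi (s i)) (A : Finset (∀ i, D i))
    (hA : ∀ a ∈ A, ∀ b ∈ A, (fun i => s i (a i) (b i)) ∈ A) (I : Finset ι)
    (hI : ∀ i ∈ I, ∀ a ∈ A, ∀ d, d ≠ a i → update a i d ∉ A) :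
    A.card ^ 2 ≤ 2 ^ I.card * 4 ^ (Fintype.card ι - I.card) := by
  classical
  letI : ∀ i, SemilatticeInf (D i) := fun i => semiOf (s i) (hs i)
  have h := bits_aux hD I _ univ A rfl (fun a ha b hb => hA a ha b hb)
    (fun a _ b _ i hi => absurd (mem_univ i) hi) (by convert hI)
  refine h.trans (le_of_eq ?_)
  rw [prod_ite, prod_const, prod_const]
  have e1 : (univ.filter fun i => i ∈ I) = I := by ext; simp
  have e2 : (univ.filter fun i => i ∉ I) = Iᶜ := by ext; simp
  rw [e1, e2, card_compl]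

end

end Pool.Agent.Y347.CO
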