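import Mathlib

set_option autoImplicit false

/-!
# Sets without patterns inside sets with few boundary edges
-/

namespace Pool.Agent.Y347.CO

open Finset Function

section
variable {W : Type} [Fintype W] [DecidableEq W]

/-- `A ⊆ F` contains no pair `x`, `a x` -/
theorem cover_edge (a : W → W) (ha : ∀ x, a (a x) = x) (F A : Finset W) (hAF : A ⊆ F)
    (hA : ∀ x, ¬ (x ∈ A ∧ a x ∈ A)) :
    2 * A.card ≤ F.card + (F.filter fun x => a x ∉ F).card := by
  have hinj : Injective a := fun x y h => by rw [← ha x, h, ha]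
  set A1 := A.filter fun x => a x ∈ F
  set A2 := A.filter fun x => ¬ a x ∈ F
  have h1 : A1.card + A2.card = A.card := card_filter_add_card_filter_not _
  set F1 := F.filter fun x => a x ∈ F
  set F2 := F.filter fun x => ¬ a x ∈ F
  have h2 : F1.card + F2.card = F.card := card_filter_add_card_filter_not _
  have h3 : A2.card ≤ F2.card := card_le_card (filter_subset_filter _ hAF)
  have h4 : A1.card + (A1.image a).card ≤ F1.card := by
    rw [← card_union_of_disjoint]
    · apply card_le_card
      apply union_subset (filter_subset_filter _ hAF)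
      intro y hy
      obtain ⟨x, hx, rfl⟩ := mem_image.1 hy
      rw [mem_filter] at hx ⊢
      exact ⟨hx.2, by rw [ha]; exact hAF hx.1⟩
    · rw [disjoint_left]
      intro y hy hy'
      obtain ⟨x, hx, rfl⟩ := mem_image.1 hy'
      exact hA x ⟨(mem_filter.1 hx).1, (mem_filter.1 hy).1⟩
  rw [card_image_of_injective _ hinj] at h4
  have : F2 = F.filter fun x => a x ∉ F := rfl
  omega

theorem square_key' : ∀ p0 p1 p2 p3 q0 q1 q2 q3 : Bool,
    ((!q0 || p0) && (!q1 || p1) && (!q2 || p2) && (!q3 || p3) && !(q0 && q1 && q2) &&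
      !(q1 && q0 && q3) && !(q2 && q3 && q0) && !(q3 && q2 && q1)) = true →
    2 * (q0.toNat + q1.toNat + q2.toNat + q3.toNat) ≤
      (p0.toNat + (p0 && !p1).toNat + (p0 && !p2).toNat) +
      (p1.toNat + (p1 && !p0).toNat + (p1 && !p3).toNat) +
      (p2.toNat + (p2 && !p3).toNat + (p2 && !p0).toNat) +
      (p3.toNat + (p3 && !p2).toNat + (p3 && !p1).toNat) := by
  decide

theorem imp_bool {q p : Bool} (h : q = true → p = true) : (!q || p) = true := by
  cases q <;> simp_all

theorem not_bool {q r s : Bool} (h : ¬ (q = true ∧ r = true ∧ s = true)) :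
    (!(q && r && s)) = true := by
  cases q <;> cases r <;> cases s <;> simp_all

theorem square_key (p0 p1 p2 p3 q0 q1 q2 q3 : Bool) (h0 : q0 = true → p0 = true)
    (h1 : q1 = true → p1 = true) (h2 : q2 = true → p2 = true) (h3 : q3 = true → p3 = true)
    (k0 : ¬ (q0 = true ∧ q1 = true ∧ q2 = true)) (k1 : ¬ (q1 = true ∧ q0 = true ∧ q3 = true))
    (k2 : ¬ (q2 = true ∧ q3 = true ∧ q0 = true)) (k3 : ¬ (q3 = true ∧ q2 = true ∧ q1 = true)) :
    2 * (q0.toNat + q1.toNat + q2.toNat + q3.toNat) ≤
      (p0.toNat + (p0 && !p1).toNat + (p0 && !p2).toNat) +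
      (p1.toNat + (p1 && !p0).toNat + (p1 && !p3).toNat) +
      (p2.toNat + (p2 && !p3).toNat + (p2 && !p0).toNat) +
      (p3.toNat + (p3 && !p2).toNat + (p3 && !p1).toNat) := by
  apply square_key'
  simp only [imp_bool h0, imp_bool h1, imp_bool h2, imp_bool h3, not_bool k0, not_bool k1,
    not_bool k2, not_bool k3, Bool.and_self]

/-- `A ⊆ F` contains no corner `x`, `a x`, `b x` -/
theorem cover_square (a b : W → W) (ha : ∀ x, a (a x) = x) (hb : ∀ x, b (b x) = x)
    (hab : ∀ x, a (b x) = b (a x)) (F A : Finset W) (hAF : A ⊆ F)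
    (hA : ∀ x, ¬ (x ∈ A ∧ a x ∈ A ∧ b x ∈ A)) :
    2 * A.card ≤ F.card + (F.filter fun x => a x ∉ F).card + (F.filter fun x => b x ∉ F).card := by
  let ea : W ≃ W := ⟨a, a, ha, ha⟩
  let eb : W ≃ W := ⟨b, b, hb, hb⟩
  let q : W → ℕ := fun x => (decide (x ∈ A)).toNat
  let g : W → ℕ := fun x => (decide (x ∈ F)).toNat + (decide (x ∈ F) && !decide (a x ∈ F)).toNat +
    (decide (x ∈ F) && !decide (b x ∈ F)).toNat
  have hcard : ∀ S : Finset W, ∑ x, (decide (x ∈ S)).toNat = S.card := by
    intro S
    rw [card_eq_sum_ones, ← sum_filter_add_sum_filter_not univ (fun x => x ∈ S)]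
    have e : (univ.filter fun x => x ∈ S) = S := by ext; simp
    rw [e]
    have h1 : ∑ x ∈ S, (decide (x ∈ S)).toNat = ∑ x ∈ S, 1 :=
      sum_congr rfl fun x hx => by simp [hx]
    have h2 : ∑ x ∈ univ.filter (fun x => ¬ x ∈ S), (decide (x ∈ S)).toNat = 0 :=
      sum_eq_zero fun x hx => by simp [(mem_filter.1 hx).2]
    rw [h1, h2, add_zero]
  have hA' : ∑ x, q x = A.card := hcard A
  have hg' : ∑ x, g x = F.card + (F.filter fun x => a x ∉ F).card +
      (F.filter fun x => b x ∉ F).card := by
    show ∑ x, ((decide (x ∈ F)).toNat + (decide (x ∈ F) && !decide (a x ∈ F)).toNat +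
      (decide (x ∈ F) && !decide (b x ∈ F)).toNat) = _
    rw [sum_add_distrib, sum_add_distrib, hcard F, ← hcard (F.filter fun x => a x ∉ F),
      ← hcard (F.filter fun x => b x ∉ F)]
    congr 1
    · congr 1
      apply sum_congr rfl
      intro x _
      congr 1
      by_cases h1 : x ∈ F <;> by_cases h2 : a x ∈ F <;> simp [h1, h2]
    · apply sum_congr rfl
      intro x _
      congr 1
      by_cases h1 : x ∈ F <;> by_cases h2 : b x ∈ F <;> simp [h1, h2]
  have hpt : ∀ x, 2 * (q x + q (a x) + q (b x) + q (a (b x))) ≤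
      g x + g (a x) + g (b x) + g (a (b x)) := by
    intro x
    have h := square_key (decide (x ∈ F)) (decide (a x ∈ F)) (decide (b x ∈ F))
      (decide (a (b x) ∈ F)) (decide (x ∈ A)) (decide (a x ∈ A)) (decide (b x ∈ A))
      (decide (a (b x) ∈ A)) (by simpa using fun h => hAF h) (by simpa using fun h => hAF h)
      (by simpa using fun h => hAF h) (by simpa using fun h => hAF h)
      (by
        have := hA x
        simpa using this)
      (by
        have := hA (a x)
        rw [ha, ← hab] at this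
        simpa using this)
      (by
        have := hA (b x)
        rw [hb] at this
        simpa using this)
      (by
        have := hA (a (b x))
        rw [ha, ← hab, hb] at this
        simpa using this)
    have e1 : b (a x) = a (b x) := (hab x).symm
    have e2 : b (a (b x)) = a x := by rw [← hab, hb]
    show 2 * ((decide (x ∈ A)).toNat + (decide (a x ∈ A)).toNat + (decide (b x ∈ A)).toNat +
      (decide (a (b x) ∈ A)).toNat) ≤
      ((decide (x ∈ F)).toNat + (decide (x ∈ F) && !decide (a x ∈ F)).toNat +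
        (decide (x ∈ F) && !decide (b x ∈ F)).toNat) +
      ((decide (a x ∈ F)).toNat + (decide (a x ∈ F) && !decide (a (a x) ∈ F)).toNat +
        (decide (a x ∈ F) && !decide (b (a x) ∈ F)).toNat) +
      ((decide (b x ∈ F)).toNat + (decide (b x ∈ F) && !decide (a (b x) ∈ F)).toNat +
        (decide (b x ∈ F) && !decide (b (b x) ∈ F)).toNat) +
      ((decide (a (b x) ∈ F)).toNat + (decide (a (b x) ∈ F) && !decide (a (a (b x)) ∈ F)).toNat +
        (decide (a (b x) ∈ F) && !decide (b (a (b x)) ∈ F)).toNat)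
    rw [ha x, ha (b x), hb x, e1, e2]
    exact h
  have hsum := sum_le_sum fun x (_ : x ∈ (univ : Finset W)) => hpt x
  rw [← mul_sum, sum_add_distrib, sum_add_distrib, sum_add_distrib, sum_add_distrib,
    sum_add_distrib, sum_add_distrib] at hsum
  have t1 : ∀ φ : W → ℕ, ∑ x, φ (a x) = ∑ x, φ x := fun φ => Equiv.sum_comp ea φ
  have t2 : ∀ φ : W → ℕ, ∑ x, φ (b x) = ∑ x, φ x := fun φ => Equiv.sum_comp eb φ
  have t3 : ∀ φ : W → ℕ, ∑ x, φ (a (b x)) = ∑ x, φ x := fun φ =>
    (t2 fun y => φ (a y)).trans (t1 φ)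
  rw [t1 q, t2 q, t3 q, t1 g, t2 g, t3 g, hA', hg'] at hsum
  omega

end

end Pool.Agent.Y347.CO
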