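import Pool.Agent.Y347.CO.Sens
import Pool.Agent.Y347.CO.Cover

set_option autoImplicit false

/-!
# Patterns inside sets decided by circuits of constant depth
-/

namespace Pool.Agent.Y347.CO

open Finset Function

section general
variable {W : Type} [Fintype W] [DecidableEq W] {M : ℕ}

theorem card_enc (enc : W ≃ (Fin M → Bool)) (F : Finset W) :
    (F.map enc.toEmbedding).card = F.card := card_map _

/-- the sum of the boundary edges is the total sensitivity -/
theorem sum_boundary (enc : W ≃ (Fin M → Bool)) (f : (Fin M → Bool) → Bool) (F : Finset W)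
    (hF : ∀ p, p ∈ F ↔ f (enc p) = true) (D : Finset (Fin M)) (fl : Fin M → W → W)
    (hfl : ∀ i ∈ D, ∀ p, enc (fl i p) = update (enc p) i (!(enc p i))) :
    ∑ i ∈ D, (F.filter fun p => fl i p ∉ F).card =
      ∑ x ∈ F.map enc.toEmbedding, ((sens f x) ∩ D).card := by
  classical
  rw [sum_map]
  have h1 : ∀ i ∈ D, (F.filter fun p => fl i p ∉ F).card =
      ∑ p ∈ F, if i ∈ sens f (enc p) then 1 else 0 := by
    intro i hi
    rw [card_filter]
    apply sum_congr rfl
    intro p hp
    have hp1 : f (enc p) = true := (hF p).1 hp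
    have h2 : fl i p ∉ F ↔ i ∈ sens f (enc p) := by
      rw [hF, hfl i hi, sens, mem_filter, hp1]
      simp
    by_cases h3 : i ∈ sens f (enc p)
    · rw [if_pos h3, if_pos (h2.2 h3)]
    · rw [if_neg h3, if_neg (fun h => h3 (h2.1 h))]
  rw [sum_congr rfl h1, sum_comm]
  apply sum_congr rfl
  intro p _
  show _ = ((sens f (enc p)) ∩ D).card
  rw [← card_filter, inter_comm]
  congr 1

end general

section corners
variable {n : ℕ}

/-- the bits of a pair of words -/
def encC (n : ℕ) : ((Fin n → ZMod 2) × (Fin n → ZMod 2)) ≃ (Fin (n + n) → Bool) where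
  toFun p := fun j => decide (Fin.append p.1 p.2 j = 1)
  invFun w := (fun i => if w (Fin.castAdd n i) then 1 else 0,
    fun i => if w (Fin.natAdd n i) then 1 else 0)
  left_inv p := by
    have key : ∀ z : ZMod 2, (if decide (z = 1) = true then (1 : ZMod 2) else 0) = z := by decide
    refine Prod.ext ?_ ?_
    · funext i
      show (if decide (Fin.append p.1 p.2 (Fin.castAdd n i) = 1) = true then (1 : ZMod 2) else 0) =
        p.1 i
      rw [Fin.append_left]
      exact key _
    · funext i
      show (if decide (Fin.append p.1 p.2 (Fin.natAdd n i) = 1) = true then (1 : ZMod 2) else 0) =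
        p.2 i
      rw [Fin.append_right]
      exact key _
  right_inv w := by
    have key2 : ∀ b : Bool, decide ((if b = true then (1 : ZMod 2) else 0) = 1) = b := by decide
    funext j
    refine Fin.addCases (fun i => ?_) (fun i => ?_) j
    · show decide (Fin.append
          (fun i => if w (Fin.castAdd n i) = true then (1 : ZMod 2) else 0)
          (fun i => if w (Fin.natAdd n i) = true then (1 : ZMod 2) else 0) (Fin.castAdd n i) = 1) =
        w (Fin.castAdd n i)
      rw [Fin.append_left]
      exact key2 _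
    · show decide (Fin.append
          (fun i => if w (Fin.castAdd n i) = true then (1 : ZMod 2) else 0)
          (fun i => if w (Fin.natAdd n i) = true then (1 : ZMod 2) else 0) (Fin.natAdd n i) = 1) =
        w (Fin.natAdd n i)
      rw [Fin.append_right]
      exact key2 _

theorem flip_left (p : (Fin n → ZMod 2) × (Fin n → ZMod 2)) (i : Fin n) :
    encC n (p.1 + Pi.single i 1, p.2) =
      update (encC n p) (Fin.castAdd n i) (!(encC n p (Fin.castAdd n i))) := by
  have key : ∀ z : ZMod 2, decide (z + 1 = 1) = !decide (z = 1) := by decide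
  funext j
  refine Fin.addCases (fun l => ?_) (fun l => ?_) j
  · rcases eq_or_ne l i with rfl | hl
    · simp only [encC, Equiv.coe_fn_mk, update_self, Fin.append_left, Pi.add_apply,
        Pi.single_eq_same]
      exact key _
    · rw [update_of_ne (by simpa [Fin.ext_iff] using fun h => hl (Fin.ext h))]
      simp [encC, hl]
  · rw [update_of_ne (by
      intro h
      have := congrArg Fin.val h
      simp at this
      omega)]
    show decide (Fin.append (p.1 + Pi.single i 1) p.2 (Fin.natAdd n l) = 1) =
      decide (Fin.append p.1 p.2 (Fin.natAdd n l) = 1)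
    rw [Fin.append_right, Fin.append_right]

theorem flip_right (p : (Fin n → ZMod 2) × (Fin n → ZMod 2)) (i : Fin n) :
    encC n (p.1, p.2 + Pi.single i 1) =
      update (encC n p) (Fin.natAdd n i) (!(encC n p (Fin.natAdd n i))) := by
  have key : ∀ z : ZMod 2, decide (z + 1 = 1) = !decide (z = 1) := by decide
  funext j
  refine Fin.addCases (fun l => ?_) (fun l => ?_) j
  · rw [update_of_ne (by
      intro h
      have := congrArg Fin.val h
      simp at this
      omega)]
    show decide (Fin.append p.1 (p.2 + Pi.single i 1) (Fin.castAdd n l) = 1) =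
      decide (Fin.append p.1 p.2 (Fin.castAdd n l) = 1)
    rw [Fin.append_left, Fin.append_left]
  · rcases eq_or_ne l i with rfl | hl
    · simp only [encC, Equiv.coe_fn_mk, update_self, Fin.append_right, Pi.add_apply,
        Pi.single_eq_same]
      exact key _
    · rw [update_of_ne (by simpa [Fin.ext_iff] using fun h => hl (Fin.ext h))]
      show decide (Fin.append p.1 (p.2 + Pi.single i 1) (Fin.natAdd n l) = 1) =
        decide (Fin.append p.1 p.2 (Fin.natAdd n l) = 1)
      rw [Fin.append_right, Fin.append_right, Pi.add_apply, Pi.single_eq_of_ne hl, add_zero]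

theorem two_add_two : ∀ z : ZMod 2, z + 1 + 1 = z := by decide

theorem single_twice (x : Fin n → ZMod 2) (i : Fin n) :
    x + Pi.single i 1 + Pi.single i 1 = x := by
  funext l
  rcases eq_or_ne l i with rfl | hl
  · simpa using two_add_two (x l)
  · simp [hl]

/-- corner-free sets decided by circuits -/
theorem corner_circ_small (hT : S_TAIL) {w ℓ d : ℕ} (C : Y603.MS.Circuit w (n + n))
    (hleak : C.leak = ∅) (hℓ : 1 ≤ ℓ) (hw : 1 ≤ w) (hd1 : 1 ≤ d) (hs : Nat.card C.Node ≤ 2 ^ ℓ)
    (hd : ∀ v, C.depth v ≤ d) (o : C.Node)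
    (F : Finset ((Fin n → ZMod 2) × (Fin n → ZMod 2)))
    (hF : ∀ p, p ∈ F ↔ C.val o (encC n p) = true)
    (hc : ∀ x y z : Fin n → ZMod 2, (x, y) ∈ F → (x, y + z) ∈ F → (x + z, y) ∈ F → z = 0) :
    (F.card : ℝ) ≤ 4 ^ n * (2 : ℝ) ^ (2 * ℓ + 4 - n / (d * KK d w ℓ) : ℝ) := by
  classical
  have h := tail_real hT C hleak hℓ hw hd1 hs hd o (n : ℝ) (F.map (encC n).toEmbedding) ?_
  · rw [card_enc] at h
    have e : (2 : ℝ) ^ (n + n) = 4 ^ n := by
      rw [← two_mul, pow_mul]; norm_num
    rw [e] at h
    exact h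
  intro x hx
  obtain ⟨p, hp, rfl⟩ := mem_map.1 hx
  have hp' : C.val o (encC n p) = true := (hF p).1 hp
  have hch : ∀ i : Fin n, ∃ j : Fin (n + n), (j = Fin.castAdd n i ∨ j = Fin.natAdd n i) ∧
      j ∈ sens (C.val o) (encC n p) := by
    intro i
    by_contra hcon
    push Not at hcon
    have h1 := hcon _ (Or.inl rfl)
    have h2 := hcon _ (Or.inr rfl)
    simp only [sens, mem_filter, mem_univ, true_and, not_not] at h1 h2
    rw [← flip_left, hp', ← hF] at h1
    rw [← flip_right, hp', ← hF] at h2
    have := hc p.1 p.2 (Pi.single i 1) hp h2 h1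
    have h4 := congrFun this i
    simp at h4
  choose g hg1 hg2 using hch
  have hginj : Injective g := by
    intro i i' h
    have h1 := hg1 i
    have h2 := hg1 i'
    rw [← h] at h2
    apply Fin.ext
    rcases h1 with h1 | h1 <;> rcases h2 with h2 | h2 <;> rw [h1] at h2 <;>
      have h3 := congrArg Fin.val h2 <;> simp at h3 <;> omega
  have h5 : (univ.image g).card ≤ (sens (C.val o) (encC n p)).card := by
    apply card_le_card
    intro j hj
    obtain ⟨i, -, rfl⟩ := mem_image.1 hj
    exact hg2 i
  rw [card_image_of_injective _ hginj, card_univ, Fintype.card_fin] at h5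
  exact_mod_cast h5

/-- corner-free sets cover at most about one half of every large set decided by a circuit -/
theorem corner_circ_half (hT : S_TAIL) {w ℓ d : ℕ} (C : Y603.MS.Circuit w (n + n))
    (hleak : C.leak = ∅) (hℓ : 1 ≤ ℓ) (hw : 1 ≤ w) (hd1 : 1 ≤ d) (hs : Nat.card C.Node ≤ 2 ^ ℓ)
    (hd : ∀ v, C.depth v ≤ d) (o : C.Node) (hn : 1 ≤ n)
    (F A : Finset ((Fin n → ZMod 2) × (Fin n → ZMod 2)))
    (hF : ∀ p, p ∈ F ↔ C.val o (encC n p) = true)
    (hc : ∀ x y z : Fin n → ZMod 2, (x, y) ∈ A → (x, y + z) ∈ A → (x + z, y) ∈ A → z = 0)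
    {ε : ℝ} (hε : 0 < ε)
    (hlarge : 2 / ε * (4 ^ n * (2 : ℝ) ^ (2 * ℓ + 4 - ε * n / (d * KK d w ℓ) : ℝ)) ≤ F.card) :
    ((A ∩ F).card : ℝ) ≤ (1 / 2 + ε) * F.card := by
  classical
  have hsum := sum_sens hT C hleak hℓ hw hd1 hs hd o univ (F.map (encC n).toEmbedding) hε (by
    rw [card_enc, card_univ, Fintype.card_fin]
    have e : (2 : ℝ) ^ (n + n) = 4 ^ n := by
      rw [← two_mul, pow_mul]; norm_num
    have e2 : ε / 2 * ((n + n : ℕ) : ℝ) = ε * n := by push_cast; ring
    rw [e, e2]
    exact hlarge)
  rw [card_enc, card_univ, Fintype.card_fin] at hsum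
  let fl : Fin (n + n) → ((Fin n → ZMod 2) × (Fin n → ZMod 2)) →
      ((Fin n → ZMod 2) × (Fin n → ZMod 2)) :=
    Fin.addCases (fun i p => (p.1 + Pi.single i 1, p.2)) (fun i p => (p.1, p.2 + Pi.single i 1))
  have hfl : ∀ j ∈ (univ : Finset (Fin (n + n))), ∀ p,
      encC n (fl j p) = update (encC n p) j (!(encC n p j)) := by
    intro j _ p
    refine Fin.addCases (fun i => ?_) (fun i => ?_) j
    · simp only [fl, Fin.addCases_left]
      exact flip_left p i
    · simp only [fl, Fin.addCases_right]
      exact flip_right p i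
  have hb := sum_boundary (encC n) (C.val o) F hF univ fl hfl
  rw [Fin.sum_univ_add] at hb
  have hb' : ∑ i : Fin n, ((F.filter fun p => (p.1 + Pi.single i 1, p.2) ∉ F).card +
      (F.filter fun p => (p.1, p.2 + Pi.single i 1) ∉ F).card) =
        ∑ x ∈ F.map (encC n).toEmbedding, ((sens (C.val o) x) ∩ univ).card := by
    rw [← hb, sum_add_distrib]
    congr 1
    · apply sum_congr rfl
      intro i _
      simp only [fl, Fin.addCases_left]
    · apply sum_congr rfl
      intro i _
      simp only [fl, Fin.addCases_right]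
  -- a good direction
  obtain ⟨i, hi⟩ : ∃ i : Fin n, (((F.filter fun p => (p.1 + Pi.single i 1, p.2) ∉ F).card +
      (F.filter fun p => (p.1, p.2 + Pi.single i 1) ∉ F).card : ℕ) : ℝ) ≤ 2 * ε * F.card := by
    by_contra hcon
    push Not at hcon
    have hne : (univ : Finset (Fin n)).Nonempty := ⟨⟨0, hn⟩, mem_univ _⟩
    have h1 := sum_lt_sum_of_nonempty hne fun i _ => hcon i
    rw [sum_const, card_univ, Fintype.card_fin, nsmul_eq_mul, ← Nat.cast_sum, hb'] at h1
    push_cast at h1 hsum
    nlinarith
  have hcov := cover_square (fun p : (Fin n → ZMod 2) × (Fin n → ZMod 2) =>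
      (p.1 + Pi.single i 1, p.2)) (fun p => (p.1, p.2 + Pi.single i 1))
    (fun p => by simp [single_twice]) (fun p => by simp [single_twice]) (fun p => rfl) F (A ∩ F)
    inter_subset_right (by
      rintro p ⟨h1, h2, h3⟩
      have := hc p.1 p.2 (Pi.single i 1) (mem_inter.1 h1).1 (mem_inter.1 h3).1 (mem_inter.1 h2).1
      have h4 := congrFun this i
      simp at h4)
  have hcov' : 2 * ((A ∩ F).card : ℝ) ≤ F.card +
      (((F.filter fun p => (p.1 + Pi.single i 1, p.2) ∉ F).card +
      (F.filter fun p => (p.1, p.2 + Pi.single i 1) ∉ F).card : ℕ) : ℝ) := by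
    exact_mod_cast (by linarith [hcov] : 2 * (A ∩ F).card ≤ F.card +
      ((F.filter fun p => (p.1 + Pi.single i 1, p.2) ∉ F).card +
      (F.filter fun p => (p.1, p.2 + Pi.single i 1) ∉ F).card))
  linarith

end corners

end Pool.Agent.Y347.CO
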