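import Pool.Agent.Y347.CO.Ops
import Pool.Agent.Y347.CO.LocB
import Pool.Agent.Y347.CO.Stm

set_option autoImplicit false

/-!
# Corner-free sets closed under coordinatewise operations
-/

namespace Pool.Agent.Y347.CO

open Finset Function

section
variable {n : ℕ}

/-- a subset of `F_2^2` with at least three elements contains a corner -/
theorem three_corner : ∀ S : Finset (Bool × Bool), ¬ S.card ≤ 2 →
    ∃ x y : Bool, (x, y) ∈ S ∧ (x, !y) ∈ S ∧ (!x, y) ∈ S := by decide

theorem zadd_one : ∀ (β : ZMod 2 ≃ Bool) (b : Bool), β.symm (!b) = β.symm b + 1 := by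
  intro β b
  have h1 : β.symm (!b) ≠ β.symm b := by
    intro h
    have := β.symm.injective h
    cases b <;> simp at this
  have key : ∀ u v : ZMod 2, u ≠ v → u = v + 1 := by decide
  exact key _ _ h1

/-- the words of pairs of bits -/
def pairEquiv (β : ZMod 2 ≃ Bool) (n : ℕ) :
    ((Fin n → ZMod 2) × (Fin n → ZMod 2)) ≃ (Fin n → Bool × Bool) where
  toFun p i := (β (p.1 i), β (p.2 i))
  invFun w := (fun i => β.symm (w i).1, fun i => β.symm (w i).2)
  left_inv p := by simp
  right_inv w := by simp

/-- corner-free sets closed under a semilattice operation on the bits -/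
theorem corner_semi (β : ZMod 2 ≃ Bool) (A : Finset ((Fin n → ZMod 2) × (Fin n → ZMod 2)))
    (hc : ∀ x y z : Fin n → ZMod 2, (x, y) ∈ A → (x, y + z) ∈ A → (x + z, y) ∈ A → z = 0)
    (h : ∀ a ∈ A, ∀ b ∈ A, ((fun i => β.symm (β (a.1 i) && β (b.1 i)),
      fun i => β.symm (β (a.2 i) && β (b.2 i))) : (Fin n → ZMod 2) × (Fin n → ZMod 2)) ∈ A) :
    (A.card : ℝ) ≤ (1 + Real.sqrt 5) ^ n := by
  classical
  set B : Finset (Fin n → Bool × Bool) := A.map (pairEquiv β n).toEmbedding with hB
  have hmem : ∀ w, w ∈ B ↔ (pairEquiv β n).symm w ∈ A := by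
    intro w
    rw [hB, mem_map_equiv]
  have h1 := semi_and B ?_ ?_
  · rw [hB, card_map, Fintype.card_fin] at h1
    exact h1
  · intro a ha b hb
    rw [hmem] at ha hb ⊢
    have := h _ ha _ hb
    simpa [pairEquiv] using this
  · intro i a
    by_contra hcon
    have key := three_corner (univ.filter fun d => update a i d ∈ B) (by convert hcon)
    obtain ⟨x, y, h1, h2, h3⟩ := key
    simp only [mem_filter, mem_univ, true_and] at h1 h2 h3
    rw [hmem] at h1 h2 h3
    set p := (pairEquiv β n).symm (update a i (x, y)) with hp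
    have e2 : (pairEquiv β n).symm (update a i (x, !y)) = (p.1, p.2 + Pi.single i 1) := by
      refine Prod.ext ?_ ?_
      · funext l
        rcases eq_or_ne l i with rfl | hl
        · simp [hp, pairEquiv]
        · simp [hp, pairEquiv, update_of_ne hl]
      · funext l
        rcases eq_or_ne l i with rfl | hl
        · simp [hp, pairEquiv, zadd_one]
        · simp [hp, pairEquiv, update_of_ne hl, hl]
    have e3 : (pairEquiv β n).symm (update a i (!x, y)) = (p.1 + Pi.single i 1, p.2) := by
      refine Prod.ext ?_ ?_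
      · funext l
        rcases eq_or_ne l i with rfl | hl
        · simp [hp, pairEquiv, zadd_one]
        · simp [hp, pairEquiv, update_of_ne hl, hl]
      · funext l
        rcases eq_or_ne l i with rfl | hl
        · simp [hp, pairEquiv]
        · simp [hp, pairEquiv, update_of_ne hl]
    rw [e2] at h2
    rw [e3] at h3
    have := hc p.1 p.2 (Pi.single i 1) h1 h2 h3
    have h4 := congrFun this i
    simp at h4

/-- the words of bits -/
def wordEquiv {G : Type} (n : ℕ) : ((Fin n → G) × (Fin n → G)) ≃ (Fin n ⊕ Fin n → G) where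
  toFun p := Sum.elim p.1 p.2
  invFun w := (fun i => w (Sum.inl i), fun i => w (Sum.inr i))
  left_inv p := by simp
  right_inv w := by
    funext i
    cases i <;> rfl

/-- **Corner-free sets defined by constraints on at most `r` of the `2 n` bits.** -/
theorem corner_local {r : ℕ} (hr : 1 ≤ r) (A : Finset ((Fin n → ZMod 2) × (Fin n → ZMod 2)))
    (hc : ∀ x y z : Fin n → ZMod 2, (x, y) ∈ A → (x, y + z) ∈ A → (x + z, y) ∈ A → z = 0)
    (hloc : IsLocal r (A.map (wordEquiv (G := ZMod 2) n).toEmbedding)) :
    (A.card : ℝ) ≤ (2 : ℝ) ^ ((2 - 1 / r : ℝ) * n) := by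
  classical
  set B : Finset (Fin n ⊕ Fin n → ZMod 2) := A.map (wordEquiv n).toEmbedding with hB
  have hmem : ∀ w, w ∈ B ↔ (wordEquiv n).symm w ∈ A := by
    intro w
    rw [hB, mem_map_equiv]
  have h1 := local_bits hr hloc (fun _ => by simp [ZMod.card]) n ?_
  · rw [hB, card_map] at h1
    refine h1.trans (le_of_eq ?_)
    congr 1
    rw [Fintype.card_sum, Fintype.card_fin]
    push_cast
    ring
  intro a ha
  have hch : ∀ i : Fin n, ∃ j : Fin n ⊕ Fin n, (j = Sum.inl i ∨ j = Sum.inr i) ∧
      update a j (a j + 1) ∉ B := by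
    intro i
    by_contra hcon
    push Not at hcon
    have h1 := hcon (Sum.inl i) (Or.inl rfl)
    have h2 := hcon (Sum.inr i) (Or.inr rfl)
    rw [hmem] at h1 h2 ha
    set p := (wordEquiv n).symm a with hp
    have e1 : (wordEquiv n).symm (update a (Sum.inl i) (a (Sum.inl i) + 1)) =
        (p.1 + Pi.single i 1, p.2) := by
      refine Prod.ext ?_ ?_
      · funext l
        rcases eq_or_ne l i with rfl | hl
        · simp [hp, wordEquiv]
        · have : Sum.inl l ≠ (Sum.inl i : Fin n ⊕ Fin n) := by simpa using hl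
          simp [hp, wordEquiv, hl]
      · funext l
        simp [hp, wordEquiv]
    have e2 : (wordEquiv n).symm (update a (Sum.inr i) (a (Sum.inr i) + 1)) =
        (p.1, p.2 + Pi.single i 1) := by
      refine Prod.ext ?_ ?_
      · funext l
        simp [hp, wordEquiv]
      · funext l
        rcases eq_or_ne l i with rfl | hl
        · simp [hp, wordEquiv]
        · have : Sum.inr l ≠ (Sum.inr i : Fin n ⊕ Fin n) := by simpa using hl
          simp [hp, wordEquiv, hl]
    rw [e1] at h1
    rw [e2] at h2
    have := hc p.1 p.2 (Pi.single i 1) ha h2 h1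
    have h4 := congrFun this i
    simp at h4
  choose g hg1 hg2 using hch
  have hginj : Injective g := by
    intro i i' h
    have h1 := hg1 i
    have h2 := hg1 i'
    rw [← h] at h2
    rcases h1 with h1 | h1 <;> rcases h2 with h2 | h2 <;> rw [h1] at h2 <;> simpa using h2
  refine ⟨univ.image g, ?_, ?_⟩
  · rw [card_image_of_injective _ hginj, card_univ, Fintype.card_fin]
  · intro j hj
    obtain ⟨i, -, rfl⟩ := mem_image.1 hj
    exact ⟨_, hg2 i⟩

end

end Pool.Agent.Y347.CO
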