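import Pool.Agent.Y347.CO.Rel
import Pool.Agent.Y347.CO.Circ

set_option autoImplicit false

/-!
# Corner-free sets inside sets decided by circuits of constant depth
-/

namespace Pool.Agent.Y347.CO

open Finset Function

section
variable {n m : ℕ}

/-- adding a vector flips bits -/
theorem encC_add (p q : (Fin n → ZMod 2) × (Fin n → ZMod 2)) :
    encC n (p + q) = flipSet (univ.filter fun i => encC n q i = true) (encC n p) := by
  have key : ∀ a b : ZMod 2, decide (a + b = 1) =
      if decide (b = 1) = true then !decide (a = 1) else decide (a = 1) := by decide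
  funext j
  unfold flipSet
  refine Fin.addCases (fun l => ?_) (fun l => ?_) j
  · have e1 : ∀ r : (Fin n → ZMod 2) × (Fin n → ZMod 2),
        encC n r (Fin.castAdd n l) = decide (r.1 l = 1) := by
      intro r
      show decide (Fin.append r.1 r.2 (Fin.castAdd n l) = 1) = _
      rw [Fin.append_left]
    simp only [mem_filter, mem_univ, true_and, e1]
    exact key _ _
  · have e1 : ∀ r : (Fin n → ZMod 2) × (Fin n → ZMod 2),
        encC n r (Fin.natAdd n l) = decide (r.2 l = 1) := by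
      intro r
      show decide (Fin.append r.1 r.2 (Fin.natAdd n l) = 1) = _
      rw [Fin.append_right]
    simp only [mem_filter, mem_univ, true_and]
    rw [e1, e1, e1]
    exact key _ _

/-- the block of positions -/
def posBlock (n m j : ℕ) : Finset (Fin n) := univ.filter fun i => (i : ℕ) / m = j

theorem posBlock_card (hm : 0 < m) (j : ℕ) : (posBlock n m j).card ≤ m := by
  have h : ((posBlock n m j).image fun i : Fin n => (i : ℕ) % m).card = (posBlock n m j).card := by
    apply card_image_of_injOn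
    intro i hi i' hi' h
    have h1 : (i : ℕ) / m = j := (mem_filter.1 hi).2
    have h2 : (i' : ℕ) / m = j := (mem_filter.1 hi').2
    have h' : (i : ℕ) % m = (i' : ℕ) % m := h
    apply Fin.ext
    rw [← Nat.div_add_mod (i : ℕ) m, ← Nat.div_add_mod (i' : ℕ) m, h1, h2, h']
  rw [← h]
  refine (card_le_card (t := range m) ?_).trans (card_range m).le
  intro t ht
  obtain ⟨i, -, rfl⟩ := mem_image.1 ht
  exact mem_range.2 (Nat.mod_lt _ hm)

/-- the bits in a block -/
def bitBlock (n m j : ℕ) : Finset (Fin (n + n)) :=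
  (posBlock n m j).image (Fin.castAdd n) ∪ (posBlock n m j).image (Fin.natAdd n)

theorem bitBlock_card (hm : 0 < m) (j : ℕ) : (bitBlock n m j).card ≤ 2 * m := by
  refine (card_union_le _ _).trans ?_
  have h1 : ((posBlock n m j).image (Fin.castAdd n)).card ≤ m :=
    card_image_le.trans (posBlock_card hm j)
  have h2 : ((posBlock n m j).image (Fin.natAdd n)).card ≤ m :=
    card_image_le.trans (posBlock_card hm j)
  omega

theorem mem_bitBlock {j : ℕ} {b : Fin (n + n)} (hb : b ∈ bitBlock n m j) :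
    ∃ i : Fin n, (i : ℕ) / m = j ∧ (b = Fin.castAdd n i ∨ b = Fin.natAdd n i) := by
  rcases mem_union.1 hb with h | h
  · obtain ⟨i, hi, rfl⟩ := mem_image.1 h
    exact ⟨i, (mem_filter.1 hi).2, Or.inl rfl⟩
  · obtain ⟨i, hi, rfl⟩ := mem_image.1 h
    exact ⟨i, (mem_filter.1 hi).2, Or.inr rfl⟩

theorem bitBlock_disjoint {j j' : ℕ} (h : j ≠ j') :
    Disjoint (bitBlock n m j) (bitBlock n m j') := by
  rw [disjoint_left]
  intro b hb hb'
  obtain ⟨i, hi, h1⟩ := mem_bitBlock hb
  obtain ⟨i', hi', h2⟩ := mem_bitBlock hb'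
  have hii : i = i' := by
    apply Fin.ext
    have hi2 := i.2
    have hi2' := i'.2
    rcases h1 with h1 | h1 <;> rcases h2 with h2 | h2 <;> rw [h1] at h2 <;>
      have h3 := congrArg Fin.val h2 <;>
      simp only [Fin.val_castAdd, Fin.val_natAdd] at h3 <;> omega
  subst hii
  exact h (hi.symm.trans hi')

/-- extension by zero -/
def ext (n : ℕ) (hm : 0 < m) (j : ℕ) (s : Fin m → ZMod 2) : Fin n → ZMod 2 :=
  fun i => if (i : ℕ) / m = j then s ⟨(i : ℕ) % m, Nat.mod_lt _ hm⟩ else 0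

theorem ext_add (hm : 0 < m) (j : ℕ) (s t : Fin m → ZMod 2) :
    ext n hm j (s + t) = ext n hm j s + ext n hm j t := by
  funext i
  show (if (i : ℕ) / m = j then (s + t) ⟨(i : ℕ) % m, Nat.mod_lt _ hm⟩ else 0) =
    (if (i : ℕ) / m = j then s ⟨(i : ℕ) % m, Nat.mod_lt _ hm⟩ else 0) +
      (if (i : ℕ) / m = j then t ⟨(i : ℕ) % m, Nat.mod_lt _ hm⟩ else 0)
  by_cases h : (i : ℕ) / m = j
  · rw [if_pos h, if_pos h, if_pos h]
    rfl
  · rw [if_neg h, if_neg h, if_neg h, add_zero]

theorem ext_eq_zero (hm : 0 < m) {j : ℕ} (hj : j < n / m) {s : Fin m → ZMod 2}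
    (h : ext n hm j s = 0) : s = 0 := by
  funext t
  have hlt : j * m + t < n := by
    have h1 : (j + 1) * m ≤ n / m * m := Nat.mul_le_mul_right _ hj
    have h2 := Nat.div_mul_le_self n m
    have h3 := t.2
    have h4 : (j + 1) * m = j * m + m := by ring
    omega
  have h1 := congrFun h ⟨j * m + t, hlt⟩
  unfold ext at h1
  have e1 : (j * m + (t : ℕ)) / m = j := by
    rw [mul_comm, Nat.mul_add_div hm, Nat.div_eq_of_lt t.2, add_zero]
  have e2 : (j * m + (t : ℕ)) % m = t := by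
    rw [mul_comm, Nat.mul_add_mod, Nat.mod_eq_of_lt t.2]
  simp only [e1, if_true, Pi.zero_apply] at h1
  have e3 : (⟨(j * m + (t : ℕ)) % m, Nat.mod_lt _ hm⟩ : Fin m) = t := Fin.ext e2
  rw [e3] at h1
  exact h1

/-- **corner-free sets have small density on large sets decided by circuits** -/
theorem corner_rel (hT : S_TAIL) {w ℓ d : ℕ} (C : Y603.MS.Circuit w (n + n))
    (hleak : C.leak = ∅) (hℓ : 1 ≤ ℓ) (hw : 1 ≤ w) (hd1 : 1 ≤ d) (hs : Nat.card C.Node ≤ 2 ^ ℓ)
    (hd : ∀ v, C.depth v ≤ d) (o : C.Node) (hm : 1 ≤ m) (hmn : m ≤ n)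
    (F A : Finset ((Fin n → ZMod 2) × (Fin n → ZMod 2)))
    (hF : ∀ p, p ∈ F ↔ C.val o (encC n p) = true)
    (hc : ∀ x y z : Fin n → ZMod 2, (x, y) ∈ A → (x, y + z) ∈ A → (x + z, y) ∈ A → z = 0)
    (r : ℕ) (hr : ∀ B : Finset ((Fin m → ZMod 2) × (Fin m → ZMod 2)),
      (∀ x y z : Fin m → ZMod 2, (x, y) ∈ B → (x, y + z) ∈ B → (x + z, y) ∈ B → z = 0) →
        B.card ≤ r)
    {ε : ℝ} (hε : 0 < ε)
    (hlarge : 4 * m / ε * (4 ^ n * (2 : ℝ) ^ (2 * ℓ + 4 - ε / 2 * (n / m : ℕ) / (d * KK d w ℓ))) ≤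
      F.card) :
    ((A ∩ F).card : ℝ) ≤ (r / 4 ^ m + ε) * F.card := by
  classical
  have hk : 1 ≤ n / m := (Nat.one_le_div_iff hm).2 hmn
  have h := rel_circ hT C hleak hℓ hw hd1 hs hd o (encC n) F A hF (k := n / m) (q := 2 * m) hk
    (fun j => bitBlock n m j) (fun j j' hjj => bitBlock_disjoint fun h => hjj (Fin.ext h))
    (fun j => bitBlock_card hm j) (T := (Fin m → ZMod 2) × (Fin m → ZMod 2))
    (fun j t p => p + (ext n hm j t.1, ext n hm j t.2)) ?_ r ?_ hε ?_
  · have e : (Fintype.card ((Fin m → ZMod 2) × (Fin m → ZMod 2)) : ℝ) = 4 ^ m := by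
      rw [Fintype.card_prod, Fintype.card_pi, prod_const, card_univ, Fintype.card_fin, ZMod.card]
      push_cast
      rw [← mul_pow]
      norm_num
    rw [e] at h
    exact h
  · intro j t
    refine ⟨univ.filter fun i => encC n (ext n hm j t.1, ext n hm j t.2) i = true, ?_,
      fun p => encC_add p _⟩
    intro b hb
    rw [mem_filter] at hb
    have hb' := hb.2
    revert hb'
    refine Fin.addCases (fun l => ?_) (fun l => ?_) b
    · intro hb'
      have h1 : decide (Fin.append (ext n hm j t.1) (ext n hm j t.2) (Fin.castAdd n l) = 1) = true :=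
        hb'
      rw [Fin.append_left] at h1
      refine mem_union.2 (Or.inl (mem_image.2 ⟨l, mem_filter.2 ⟨mem_univ _, ?_⟩, rfl⟩))
      by_contra hcon
      rw [ext, if_neg hcon] at h1
      simp at h1
    · intro hb'
      have h1 : decide (Fin.append (ext n hm j t.1) (ext n hm j t.2) (Fin.natAdd n l) = 1) = true :=
        hb'
      rw [Fin.append_right] at h1
      refine mem_union.2 (Or.inr (mem_image.2 ⟨l, mem_filter.2 ⟨mem_univ _, ?_⟩, rfl⟩))
      by_contra hcon
      rw [ext, if_neg hcon] at h1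
      simp at h1
  · intro j p
    apply hr
    intro x y z h1 h2 h3
    rw [mem_filter] at h1 h2 h3
    have h1' := h1.2
    have h2' := h2.2
    have h3' := h3.2
    have g1 : (p.1 + ext n hm j x, p.2 + ext n hm j y) ∈ A := h1'
    have g2 : (p.1 + ext n hm j x, p.2 + ext n hm j (y + z)) ∈ A := h2'
    have g3 : (p.1 + ext n hm j (x + z), p.2 + ext n hm j y) ∈ A := h3'
    rw [ext_add, ← add_assoc] at g2 g3
    exact ext_eq_zero hm j.2 (hc _ _ _ g1 g2 g3)
  · refine le_trans (le_of_eq ?_) hlarge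
    have e : (2 : ℝ) ^ (n + n) = 4 ^ n := by
      rw [← two_mul, pow_mul]; norm_num
    rw [e]
    push_cast
    ring

/-- **relative corners theorem** -/
theorem corner_rel_all (hT : S_TAIL) (δ : ℝ) (hδ : 0 < δ) :
    ∃ m : ℕ, 1 ≤ m ∧ ∀ (n w ℓ d : ℕ) (C : Y603.MS.Circuit w (n + n)), m ≤ n → C.leak = ∅ →
      1 ≤ ℓ → 1 ≤ w → 1 ≤ d → Nat.card C.Node ≤ 2 ^ ℓ → (∀ v, C.depth v ≤ d) → ∀ (o : C.Node)
      (F A : Finset ((Fin n → ZMod 2) × (Fin n → ZMod 2))),
      (∀ p, p ∈ F ↔ C.val o (encC n p) = true) →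
      (∀ x y z : Fin n → ZMod 2, (x, y) ∈ A → (x, y + z) ∈ A → (x + z, y) ∈ A → z = 0) →
      8 * m / δ * (4 ^ n * (2 : ℝ) ^ (2 * ℓ + 4 - δ / 4 * (n / m : ℕ) / (d * KK d w ℓ))) ≤
        F.card →
      ((A ∩ F).card : ℝ) ≤ δ * F.card := by
  classical
  set m := cornersTheoremBound (δ / 2) + 1 with hm
  refine ⟨m, by omega, ?_⟩
  intro n w ℓ d C hmn hleak hℓ hw hd1 hs hd o F A hF hc hlarge
  have hr : ∀ B : Finset ((Fin m → ZMod 2) × (Fin m → ZMod 2)),
      (∀ x y z : Fin m → ZMod 2, (x, y) ∈ B → (x, y + z) ∈ B → (x + z, y) ∈ B → z = 0) →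
        B.card ≤ ⌊δ / 2 * 4 ^ m⌋₊ := by
    intro B hB
    apply Nat.le_floor
    by_contra hcon
    push Not at hcon
    have hcard : (Fintype.card (Fin m → ZMod 2)) = 2 ^ m := by
      rw [Fintype.card_pi, prod_const, card_univ, Fintype.card_fin, ZMod.card]
    refine corners_theorem (G := Fin m → ZMod 2) (δ / 2) (by positivity) ?_ B ?_ ?_
    · rw [hcard]
      have : m < 2 ^ m := Nat.lt_two_pow_self
      omega
    · rw [hcard]
      push_cast
      rw [← pow_mul, mul_comm m 2, pow_mul]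
      norm_num
      linarith
    · intro x₁ y₁ x₂ y₂ h
      have h1 := h.fst_fst_mem
      have h2 := h.fst_snd_mem
      have h3 := h.snd_fst_mem
      have h4 := h.add_eq_add
      have h5 := hB x₁ y₁ (x₂ - x₁) (by simpa using h1) ?_ ?_
      · exact (sub_eq_zero.1 h5).symm
      · have : y₁ + (x₂ - x₁) = y₂ := by
          have : x₁ + (y₁ + (x₂ - x₁)) = x₁ + y₂ := by
            rw [h4]
            abel
          exact add_left_cancel this
        rw [this]
        simpa using h2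
      · have : x₁ + (x₂ - x₁) = x₂ := by abel
        rw [this]
        simpa using h3
  have h := corner_rel hT C hleak hℓ hw hd1 hs hd o (by omega : 1 ≤ m) hmn F A hF hc _ hr
    (ε := δ / 2) (by positivity) (by
      refine le_trans (le_of_eq ?_) hlarge
      have e1 : 4 * (m : ℝ) / (δ / 2) = 8 * m / δ := by field_simp; ring
      have e2 : δ / 2 / 2 = δ / 4 := by ring
      rw [e1, e2])
  refine h.trans (mul_le_mul_of_nonneg_right ?_ (Nat.cast_nonneg _))
  have h1 : ((⌊δ / 2 * 4 ^ m⌋₊ : ℕ) : ℝ) ≤ δ / 2 * 4 ^ m := Nat.floor_le (by positivity)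
  have h2 : ((⌊δ / 2 * 4 ^ m⌋₊ : ℕ) : ℝ) / 4 ^ m ≤ δ / 2 := by
    rw [div_le_iff₀ (by positivity)]
    exact h1
  linarith

end

end Pool.Agent.Y347.CO
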