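import Pool.Agent.Y347.CO.Corner
import Pool.Agent.Y48.CO.BP
import Pool.Agent.Y48.CO.Sharp
import Pool.Agent.Y48.CO.AffC
import Pool.Agent.Y356.CO.Post

set_option autoImplicit false

/-!
# Corner-free sets closed under coordinatewise operations: main theorems
-/

namespace Pool.Agent.Y347.CO

open Finset Function

/-- no nontrivial corner -/
def CornerFree {H : Type} [AddCommGroup H] (A : Finset (H × H)) : Prop :=
  ∀ x y z : H, (x, y) ∈ A → (x, y + z) ∈ A → (x + z, y) ∈ A → z = 0

/-- `A` is closed under the coordinatewise operation `f` -/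
def Closed {G : Type} {n k : ℕ} (A : Finset ((Fin n → G) × (Fin n → G)))
    (f : (Fin k → G) → G) : Prop :=
  ∀ a : Fin k → (Fin n → G) × (Fin n → G), (∀ l, a l ∈ A) →
    ((fun i => f fun l => (a l).1 i, fun i => f fun l => (a l).2 i) :
      (Fin n → G) × (Fin n → G)) ∈ A

/-- `f` depends on the variable `j` -/
def Depends {G : Type} {k : ℕ} (f : (Fin k → G) → G) (j : Fin k) : Prop :=
  ∃ (x : Fin k → G) (b : G), f (update x j b) ≠ f x

/-- the usual identification -/
def zb : ZMod 2 ≃ Bool where
  toFun x := decide (x = 1)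
  invFun b := if b then 1 else 0
  left_inv := by decide
  right_inv := by decide

theorem zb_true : zb.symm true = 1 := rfl
theorem zb_false : zb.symm false = 0 := rfl

/-- the complementary identification -/
def zb' : ZMod 2 ≃ Bool := zb.trans (Equiv.boolNot)

theorem and_eq : ∀ x y : ZMod 2, zb.symm (zb x && zb y) = x * y := by decide
theorem or_eq : ∀ x y : ZMod 2, zb'.symm (zb' x && zb' y) = x + y + x * y := by decide

section
variable {n : ℕ}

/-- the majority of three bits -/
def maj (v : Fin 3 → ZMod 2) : ZMod 2 := v 0 * v 1 + v 0 * v 2 + v 1 * v 2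

theorem maj_nu : ∀ (l : Fin 3) (x y : ZMod 2), maj (update (fun _ => x) l y) = x := by decide

theorem local_of_nu {G : Type} [Fintype G] [DecidableEq G] {r : ℕ}
    (A : Finset ((Fin n → G) × (Fin n → G))) (f : (Fin (r + 1) → G) → G)
    (hf : ∀ (l : Fin (r + 1)) (x y : G), f (update (fun _ => x) l y) = x) (hcl : Closed A f) :
    IsLocal r (A.map (wordEquiv (G := G) n).toEmbedding) := by
  apply Y48.CO.BP.done (Fin n ⊕ Fin n) (fun _ => G) r _ (fun _ => f) (fun _ => hf)
  intro a ha
  rw [mem_map_equiv]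
  have h1 := hcl (fun l => (wordEquiv n).symm (a l)) (fun l => by
    have := ha l
    rwa [mem_map_equiv] at this)
  exact h1

/-- closed under a near unanimity operation of arity `r + 1` -/
theorem corner_nu {r : ℕ} (hr : 1 ≤ r) (A : Finset ((Fin n → ZMod 2) × (Fin n → ZMod 2)))
    (hc : CornerFree A) (f : (Fin (r + 1) → ZMod 2) → ZMod 2)
    (hf : ∀ (l : Fin (r + 1)) (x y : ZMod 2), f (update (fun _ => x) l y) = x)
    (hcl : Closed A f) :
    (A.card : ℝ) ≤ (2 : ℝ) ^ ((2 - 1 / r : ℝ) * n) :=
  corner_local hr A hc (local_of_nu A f hf hcl)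

theorem sq_le_of {x : ℝ} (hx : 0 ≤ x) (h : x ≤ (2 : ℝ) ^ ((2 - 1 / (2 : ℕ) : ℝ) * n)) :
    x ^ 2 ≤ 8 ^ n := by
  have h1 : x ^ 2 ≤ ((2 : ℝ) ^ ((2 - 1 / (2 : ℕ) : ℝ) * n)) ^ 2 := by
    gcongr
  refine h1.trans (le_of_eq ?_)
  rw [← Real.rpow_natCast, ← Real.rpow_mul (by norm_num)]
  have : ((2 - 1 / (2 : ℕ) : ℝ) * n) * ((2 : ℕ) : ℝ) = (3 : ℝ) * n := by
    push_cast
    ring
  rw [this, Real.rpow_mul (by norm_num), Real.rpow_natCast]
  norm_num

/-- closed under the majority -/
theorem corner_maj (A : Finset ((Fin n → ZMod 2) × (Fin n → ZMod 2))) (hc : CornerFree A)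
    (hcl : Closed A maj) : A.card ^ 2 ≤ 8 ^ n := by
  have h := sq_le_of (Nat.cast_nonneg _) (corner_nu (r := 2) (by norm_num) A hc maj maj_nu hcl)
  exact_mod_cast h

theorem of_sq {A : Finset ((Fin n → ZMod 2) × (Fin n → ZMod 2))} (h : A.card ^ 2 ≤ 8 ^ n) :
    (A.card : ℝ) ≤ (1 + Real.sqrt 5) ^ n := by
  have h5 := Real.sq_sqrt (show (0 : ℝ) ≤ 5 by norm_num)
  have h6 : 2 ≤ Real.sqrt 5 := by
    rw [Real.le_sqrt (by norm_num) (by norm_num)]; norm_num
  have h1 : (A.card : ℝ) ^ 2 ≤ ((1 + Real.sqrt 5) ^ n) ^ 2 := by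
    rw [← pow_mul, mul_comm n 2, pow_mul]
    calc (A.card : ℝ) ^ 2 ≤ 8 ^ n := by exact_mod_cast h
      _ ≤ ((1 + Real.sqrt 5) ^ 2) ^ n := by
        apply pow_le_pow_left₀ (by norm_num)
        nlinarith
  exact le_of_sq_le_sq h1 (by positivity)

/-- **Main theorem for corners.** -/
theorem corner_op {k : ℕ} (f : (Fin k → ZMod 2) → ZMod 2) {j j' : Fin k} (hjj : j ≠ j')
    (hj : Depends f j) (hj' : Depends f j') (A : Finset ((Fin n → ZMod 2) × (Fin n → ZMod 2)))
    (hc : CornerFree A) (hcl : Closed A f) : (A.card : ℝ) ≤ (1 + Real.sqrt 5) ^ n := by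
  classical
  set W : Set (Fin n ⊕ Fin n → Bool) := {w | ((fun i => zb.symm (w (Sum.inl i)),
    fun i => zb.symm (w (Sum.inr i))) : (Fin n → ZMod 2) × (Fin n → ZMod 2)) ∈ A} with hW
  have hmem : ∀ a : (Fin n → ZMod 2) × (Fin n → ZMod 2), a ∈ A ↔
      (Sum.elim (fun i => zb (a.1 i)) (fun i => zb (a.2 i)) : Fin n ⊕ Fin n → Bool) ∈ W := by
    intro a
    simp [hW]
  set F : (Fin k → Bool) → Bool := fun v => zb (f fun l => zb.symm (v l)) with hF
  have hFcl : ClosedB W F := by
    intro a ha
    have := hcl (fun l => ((fun i => zb.symm (a l (Sum.inl i)), fun i =>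
      zb.symm (a l (Sum.inr i))) : (Fin n → ZMod 2) × (Fin n → ZMod 2))) ha
    simpa [hW, hF] using this
  have hdep : ∀ j, Depends f j → DependsOn F j := by
    rintro j ⟨x, b, hxb⟩
    have h1 : ∀ c : ZMod 2, F (update (fun l => zb (x l)) j (zb c)) = zb (f (update x j c)) := by
      intro c
      show zb (f fun l => zb.symm (update (fun l => zb (x l)) j (zb c) l)) = zb (f (update x j c))
      congr 2
      funext l
      rcases eq_or_ne l j with rfl | hl
      · simp
      · simp [update_of_ne hl]
    refine ⟨fun l => zb (x l), ?_⟩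
    intro h
    apply hxb
    have h2 : f (update x j 1) = f (update x j 0) := by
      apply zb.injective
      rw [← h1, ← h1]
      exact h
    have key : ∀ c : ZMod 2, f (update x j c) = f (update x j 0) := by
      intro c
      have : c = 0 ∨ c = 1 := by revert c; decide
      rcases this with rfl | rfl
      · rfl
      · exact h2
    rw [key b, ← key (x j), update_eq_self]
  rcases Y356.CO.done _ W k F j j' hjj (hdep j hj) (hdep j' hj') hFcl with h | h | h | h
  · refine corner_semi zb A hc ?_
    intro a ha b hb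
    rw [hmem] at ha hb ⊢
    have := h _ ha _ hb
    convert this using 1
    funext i
    cases i <;> simp
  · refine corner_semi zb' A hc ?_
    intro a ha b hb
    rw [hmem] at ha hb ⊢
    have := h _ ha _ hb
    have key : ∀ x y : ZMod 2, zb (zb'.symm (zb' x && zb' y)) = (zb x || zb y) := by decide
    convert this using 1
    funext i
    cases i <;> simp [key]
  · refine of_sq (corner_maj A hc ?_)
    intro a ha
    rw [hmem]
    have := h _ ((hmem _).1 (ha 0)) _ ((hmem _).1 (ha 1)) _ ((hmem _).1 (ha 2))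
    have key : ∀ x y z : ZMod 2, zb (x * y + x * z + y * z) =
      ((zb x && zb y) || (zb x && zb z) || (zb y && zb z)) := by decide
    convert this using 1
    funext i
    cases i <;> simp [key, maj]
  · refine of_sq (Y48.CO.AffC.done n A hc ?_)
    intro a ha b hb c hcc
    rw [hmem]
    have := h _ ((hmem _).1 ha) _ ((hmem _).1 hb) _ ((hmem _).1 hcc)
    have key : ∀ x y z : ZMod 2, zb (x + y + z) = xor (zb x) (xor (zb y) (zb z)) := by decide
    convert this using 1
    funext i
    cases i <;> simp [key]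

end

section
variable {n : ℕ} {G : Type} [AddCommGroup G] [Fintype G] [DecidableEq G]

/-- the words of pairs of letters -/
def letterEquiv (n : ℕ) (G : Type) :
    ((Fin n → G) × (Fin n → G)) ≃ (Fin n → G × G) where
  toFun p i := (p.1 i, p.2 i)
  invFun w := (fun i => (w i).1, fun i => (w i).2)
  left_inv p := rfl
  right_inv w := rfl

/-- lines of corner-free sets are corner-free -/
theorem line_cornerFree {A : Finset ((Fin n → G) × (Fin n → G))} (hc : CornerFree A) (i : Fin n)
    (a : Fin n → G × G) :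
    CornerFree (univ.filter fun e : G × G =>
      update a i e ∈ A.map (letterEquiv n G).toEmbedding) := by
  intro x y z h1 h2 h3
  simp only [mem_filter, mem_univ, true_and] at h1 h2 h3
  rw [mem_map_equiv] at h1 h2 h3
  set p := (letterEquiv n G).symm (update a i (x, y)) with hp
  have e2 : (letterEquiv n G).symm (update a i (x, y + z)) = (p.1, p.2 + Pi.single i z) := by
    refine Prod.ext ?_ ?_
    · funext l
      rcases eq_or_ne l i with rfl | hl
      · simp [hp, letterEquiv]
      · simp [hp, letterEquiv, update_of_ne hl]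
    · funext l
      rcases eq_or_ne l i with rfl | hl
      · simp [hp, letterEquiv]
      · simp [hp, letterEquiv, update_of_ne hl, hl]
  have e3 : (letterEquiv n G).symm (update a i (x + z, y)) = (p.1 + Pi.single i z, p.2) := by
    refine Prod.ext ?_ ?_
    · funext l
      rcases eq_or_ne l i with rfl | hl
      · simp [hp, letterEquiv]
      · simp [hp, letterEquiv, update_of_ne hl, hl]
    · funext l
      rcases eq_or_ne l i with rfl | hl
      · simp [hp, letterEquiv]
      · simp [hp, letterEquiv, update_of_ne hl]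
  rw [e2] at h2
  rw [e3] at h3
  have := hc p.1 p.2 (Pi.single i z) h1 h2 h3
  have h4 := congrFun this i
  simpa using h4

/-- corner-free sets closed under semilattice operations on the pairs of letters -/
theorem corner_semi_letters [Nontrivial G] (A : Finset ((Fin n → G) × (Fin n → G)))
    (hc : CornerFree A) (s : Fin n → G × G → G × G → G × G) (hs : ∀ i, IsSemi (s i))
    (h : ∀ a ∈ A, ∀ b ∈ A, ((fun i => (s i (a.1 i, a.2 i) (b.1 i, b.2 i)).1,
      fun i => (s i (a.1 i, a.2 i) (b.1 i, b.2 i)).2) : (Fin n → G) × (Fin n → G)) ∈ A) :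
    (A.card : ℝ) ≤ cq (Fintype.card G ^ 2) ^ n := by
  classical
  have hG : 1 < Fintype.card G := Fintype.one_lt_card
  have h1 := semi_ops (D := fun _ : Fin n => G × G) (q := Fintype.card G ^ 2) (by nlinarith)
    (fun _ => by rw [Fintype.card_prod, sq]) s hs (A.map (letterEquiv n G).toEmbedding) ?_ univ ?_
  · rw [card_map, card_univ, Fintype.card_fin, Nat.sub_self, pow_zero, mul_one] at h1
    exact h1
  · intro a ha b hb
    rw [mem_map_equiv] at ha hb ⊢
    exact h _ ha _ hb
  · intro i _ a
    by_contra hcon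
    push Not at hcon
    obtain ⟨g, hg⟩ := exists_ne (0 : G)
    have hall : ∀ d : G × G, d ∈ univ.filter fun e : G × G =>
        update a i e ∈ A.map (letterEquiv n G).toEmbedding :=
      fun d => mem_filter.2 ⟨mem_univ _, hcon d⟩
    exact hg (line_cornerFree hc i a 0 0 g (hall _) (hall _) (hall _))

/-- corner-free sets closed under near unanimity operations on the pairs of letters -/
theorem corner_nu_letters {r ρ : ℕ} (hr : 1 ≤ r)
    (hρ : ∀ S : Finset (G × G), CornerFree S → S.card ≤ ρ) (hρ' : ρ ≤ Fintype.card G ^ 2)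
    (A : Finset ((Fin n → G) × (Fin n → G))) (hc : CornerFree A)
    (f : Fin n → (Fin (r + 1) → G × G) → G × G)
    (hf : ∀ (i : Fin n) (l : Fin (r + 1)) (x y : G × G), f i (update (fun _ => x) l y) = x)
    (h : ∀ a : Fin (r + 1) → (Fin n → G) × (Fin n → G), (∀ l, a l ∈ A) →
      ((fun i => (f i fun l => ((a l).1 i, (a l).2 i)).1,
        fun i => (f i fun l => ((a l).1 i, (a l).2 i)).2) : (Fin n → G) × (Fin n → G)) ∈ A) :
    (A.card : ℝ) ≤ ((Fintype.card G : ℝ) ^ 2 - ((Fintype.card G : ℝ) ^ 2 - ρ) / r) ^ n := by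
  classical
  have hloc : IsLocal r (A.map (letterEquiv n G).toEmbedding) := by
    apply Y48.CO.BP.done (Fin n) (fun _ => G × G) r _ f hf
    intro a ha
    rw [mem_map_equiv]
    exact h (fun l => (letterEquiv n G).symm (a l)) (fun l => by
      have := ha l
      rwa [mem_map_equiv] at this)
  have hG : 1 ≤ Fintype.card G := Fintype.card_pos
  have h1 := local_fib hr hloc (q := Fintype.card G ^ 2) (f := ρ) (Nat.one_le_pow _ _ hG) hρ'
    (fun _ => by rw [Fintype.card_prod, sq]) ?_
  · rw [card_map, Fintype.card_fin] at h1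
    push_cast at h1
    exact h1
  · intro a _ i
    refine le_trans (le_of_eq ?_) (hρ _ (line_cornerFree hc i a))
    congr

end

end Pool.Agent.Y347.CO
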