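import Pool.Agent.Y347.CO.Rel
import Pool.Agent.Y347.CO.Cover

set_option autoImplicit false

/-!
# Families of subsets of `[N]^h` inside families decided by circuits of constant depth
-/

namespace Pool.Agent.Y347.CO

open Finset Function

section
variable {h N M m : ℕ}

/-- good families -/
def GoodH (S : Finset (Finset (Fin h → Fin N))) : Prop :=
  ∃ A ∈ S, ∃ γ : Finset (Fin N), γ.Nonempty ∧
    Disjoint A (Fintype.piFinset (fun _ : Fin h => γ)) ∧
    A ∪ Fintype.piFinset (fun _ : Fin h => γ) ∈ S

/-- the bits of a set -/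
def encS (e : (Fin h → Fin N) ≃ Fin M) : Finset (Fin h → Fin N) ≃ (Fin M → Bool) where
  toFun A := fun j => decide (e.symm j ∈ A)
  invFun w := univ.filter fun c => w (e c) = true
  left_inv A := by
    ext c
    simp
  right_inv w := by
    funext j
    simp

theorem encS_symmDiff (e : (Fin h → Fin N) ≃ Fin M) (A B : Finset (Fin h → Fin N)) :
    encS e (symmDiff A B) = flipSet (B.map e.toEmbedding) (encS e A) := by
  funext j
  show decide (e.symm j ∈ symmDiff A B) =
    if j ∈ B.map e.toEmbedding then !decide (e.symm j ∈ A) else decide (e.symm j ∈ A)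
  by_cases h1 : e.symm j ∈ B
  · rw [if_pos ((mem_map_equiv).2 h1)]
    by_cases h2 : e.symm j ∈ A <;> simp [mem_symmDiff, h1, h2]
  · rw [if_neg (fun h => h1 ((mem_map_equiv).1 h))]
    by_cases h2 : e.symm j ∈ A <;> simp [mem_symmDiff, h1, h2]

/-- the cells of a block -/
def cellEmb (hm : 0 < m) {j : ℕ} (hj : j < N / m) : (Fin h → Fin m) ↪ (Fin h → Fin N) where
  toFun c := fun l => ⟨j * m + c l, by
    have h1 : (j + 1) * m ≤ N / m * m := Nat.mul_le_mul_right _ hj
    have h2 := Nat.div_mul_le_self N m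
    have h3 := (c l).2
    have h4 : (j + 1) * m = j * m + m := by ring
    omega⟩
  inj' c c' hc := by
    funext l
    have h1 := congrArg Fin.val (congrFun hc l)
    apply Fin.ext
    have h2 : j * m + (c l : ℕ) = j * m + (c' l : ℕ) := h1
    omega

theorem cellEmb_val (hm : 0 < m) {j : ℕ} (hj : j < N / m) (c : Fin h → Fin m) (l : Fin h) :
    ((cellEmb hm hj c l : Fin N) : ℕ) = j * m + c l := rfl

/-- the embedding of the positions of a block -/
def posEmb (hm : 0 < m) {j : ℕ} (hj : j < N / m) : Fin m ↪ Fin N where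
  toFun t := ⟨j * m + t, by
    have h1 : (j + 1) * m ≤ N / m * m := Nat.mul_le_mul_right _ hj
    have h2 := Nat.div_mul_le_self N m
    have h3 := t.2
    have h4 : (j + 1) * m = j * m + m := by ring
    omega⟩
  inj' t t' ht := by
    have h1 := congrArg Fin.val ht
    apply Fin.ext
    have h2 : j * m + (t : ℕ) = j * m + (t' : ℕ) := h1
    omega

theorem cube_map (hm : 0 < m) {j : ℕ} (hj : j < N / m) (γ : Finset (Fin m)) :
    Fintype.piFinset (fun _ : Fin h => γ.map (posEmb hm hj)) =
      (Fintype.piFinset (fun _ : Fin h => γ)).map (cellEmb (h := h) hm hj) := by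
  ext c
  rw [Fintype.mem_piFinset, mem_map]
  constructor
  · intro hc
    have hc' : ∀ l, ∃ t ∈ γ, posEmb hm hj t = c l := fun l => mem_map.1 (hc l)
    choose g hg1 hg2 using hc'
    exact ⟨g, Fintype.mem_piFinset.2 hg1, funext hg2⟩
  · rintro ⟨g, hg, rfl⟩ l
    exact mem_map.2 ⟨g l, Fintype.mem_piFinset.1 hg l, rfl⟩

/-- the part of a set outside the block together with a set inside the block -/
theorem symmDiff_map (φ : (Fin h → Fin m) ↪ (Fin h → Fin N)) (A : Finset (Fin h → Fin N))
    (t : Finset (Fin h → Fin m)) :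
    symmDiff A (t.map φ) =
      (A \ univ.map φ) ∪ (symmDiff t (univ.filter fun c => φ c ∈ A)).map φ := by
  ext x
  by_cases hx : ∃ c, φ c = x
  · obtain ⟨c, rfl⟩ := hx
    simp only [mem_symmDiff, mem_map', mem_union, mem_sdiff, mem_univ, mem_filter, true_and]
    tauto
  · have h1 : ∀ u : Finset (Fin h → Fin m), x ∉ u.map φ := by
      intro u hu
      obtain ⟨c, -, hc⟩ := mem_map.1 hu
      exact hx ⟨c, hc⟩
    simp only [mem_symmDiff, mem_union, mem_sdiff, h1]
    tauto

/-- **families that are not good have small density on large families decided by circuits** -/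
theorem hj_rel (hT : S_TAIL) {w ℓ d : ℕ} (C : Y603.MS.Circuit w M)
    (hleak : C.leak = ∅) (hℓ : 1 ≤ ℓ) (hw : 1 ≤ w) (hd1 : 1 ≤ d) (hs : Nat.card C.Node ≤ 2 ^ ℓ)
    (hd : ∀ v, C.depth v ≤ d) (o : C.Node) (e : (Fin h → Fin N) ≃ Fin M) (hh : 1 ≤ h)
    (hm : 1 ≤ m) (hmn : m ≤ N)
    (F S : Finset (Finset (Fin h → Fin N)))
    (hF : ∀ A, A ∈ F ↔ C.val o (encS e A) = true) (hc : ¬ GoodH S)
    (r : ℕ) (hr : ∀ B : Finset (Finset (Fin h → Fin m)), ¬ GoodH B → B.card ≤ r)
    {ε : ℝ} (hε : 0 < ε)
    (hlarge : 2 * m ^ h / ε * (2 ^ (N ^ h) *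
      (2 : ℝ) ^ (2 * ℓ + 4 - ε / 2 * (N / m : ℕ) / (d * KK d w ℓ))) ≤ F.card) :
    ((S ∩ F).card : ℝ) ≤ (r / 2 ^ (m ^ h) + ε) * F.card := by
  classical
  have hM : M = N ^ h := by
    have := Fintype.card_congr e
    simpa using this.symm
  have hk : 1 ≤ N / m := (Nat.one_le_div_iff hm).2 hmn
  have hrel := rel_circ hT C hleak hℓ hw hd1 hs hd o (encS e) F S hF (k := N / m) (q := m ^ h) hk
    (fun j => ((univ : Finset (Fin h → Fin m)).map (cellEmb hm j.2)).map e.toEmbedding) ?_ ?_
    (T := Finset (Fin h → Fin m))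
    (fun j t A => symmDiff A (t.map (cellEmb hm j.2))) ?_ r ?_ hε ?_
  · have e1 : (Fintype.card (Finset (Fin h → Fin m)) : ℝ) = 2 ^ (m ^ h) := by
      rw [Fintype.card_finset, Fintype.card_pi, prod_const, card_univ, Fintype.card_fin,
        Fintype.card_fin]
      push_cast
      rfl
    rw [e1] at hrel
    exact hrel
  · intro j j' hjj
    rw [disjoint_left]
    intro b hb hb'
    rw [mem_map_equiv] at hb hb'
    obtain ⟨c, -, hc1⟩ := mem_map.1 hb
    obtain ⟨c', -, hc1'⟩ := mem_map.1 hb'
    have h1 : (cellEmb hm j.2 c : Fin h → Fin N) = cellEmb hm j'.2 c' := hc1.trans hc1'.symm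
    have h2 := congrArg Fin.val (congrFun h1 ⟨0, hh⟩)
    rw [cellEmb_val, cellEmb_val] at h2
    have h3 := (c ⟨0, hh⟩).2
    have h4 := (c' ⟨0, hh⟩).2
    apply hjj
    apply Fin.ext
    have h5 : ((j : ℕ) * m + (c ⟨0, hh⟩ : ℕ)) / m = j := by
      rw [mul_comm, Nat.mul_add_div hm, Nat.div_eq_of_lt h3, add_zero]
    have h6 : ((j' : ℕ) * m + (c' ⟨0, hh⟩ : ℕ)) / m = j' := by
      rw [mul_comm, Nat.mul_add_div hm, Nat.div_eq_of_lt h4, add_zero]
    rw [← h5, h2, h6]
  · intro j
    rw [card_map, card_map, card_univ, Fintype.card_pi, prod_const, card_univ, Fintype.card_fin,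
      Fintype.card_fin]
  · intro j t
    refine ⟨(t.map (cellEmb hm j.2)).map e.toEmbedding, ?_, fun A => encS_symmDiff e A _⟩
    exact map_subset_map.2 (map_subset_map.2 (subset_univ _))
  · intro j A
    set φ : (Fin h → Fin m) ↪ (Fin h → Fin N) := cellEmb hm j.2 with hφ
    set t0 : Finset (Fin h → Fin m) := univ.filter fun c => φ c ∈ A with ht0
    have h1 : (univ.filter fun t : Finset (Fin h → Fin m) => symmDiff A (t.map φ) ∈ S).card ≤
        (univ.filter fun t : Finset (Fin h → Fin m) => (A \ univ.map φ) ∪ t.map φ ∈ S).card := by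
      apply card_le_card_of_injOn (fun t => symmDiff t t0)
      · intro t ht
        have ht' := (mem_filter.1 (mem_coe.1 ht)).2
        rw [symmDiff_map] at ht'
        exact mem_coe.2 (mem_filter.2 ⟨mem_univ _, ht'⟩)
      · intro t _ t' _ htt
        exact symmDiff_left_injective t0 htt
    refine h1.trans (hr _ ?_)
    rintro ⟨t, ht, γ, hγ, hdis, hun⟩
    rw [mem_filter] at ht hun
    apply hc
    refine ⟨_, ht.2, γ.map (posEmb hm j.2), hγ.map, ?_, ?_⟩
    · rw [cube_map, disjoint_left]
      intro x hx hx'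
      obtain ⟨c, hc1, rfl⟩ := mem_map.1 hx'
      rcases mem_union.1 hx with h2 | h2
      · exact (mem_sdiff.1 h2).2 (mem_map_of_mem _ (mem_univ _))
      · have h3 : c ∈ t := (mem_map' _).1 h2
        exact disjoint_left.1 hdis h3 hc1
    · rw [cube_map, union_assoc, ← map_union]
      exact hun.2
  · refine le_trans (le_of_eq ?_) hlarge
    rw [hM]
    push_cast
    ring

/-- families decided by circuits that are not good -/
theorem hj_small (hT : S_TAIL) {w ℓ d : ℕ} (C : Y603.MS.Circuit w M)
    (hleak : C.leak = ∅) (hℓ : 1 ≤ ℓ) (hw : 1 ≤ w) (hd1 : 1 ≤ d) (hs : Nat.card C.Node ≤ 2 ^ ℓ)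
    (hd : ∀ v, C.depth v ≤ d) (o : C.Node) (e : (Fin h → Fin N) ≃ Fin M) (hh : 1 ≤ h)
    (F : Finset (Finset (Fin h → Fin N)))
    (hF : ∀ A, A ∈ F ↔ C.val o (encS e A) = true) (hc : ¬ GoodH F) :
    (F.card : ℝ) ≤ 2 ^ (N ^ h) * (2 : ℝ) ^ (2 * ℓ + 4 - N / (d * KK d w ℓ) : ℝ) := by
  classical
  have hM : M = N ^ h := by
    have := Fintype.card_congr e
    simpa using this.symm
  have ht := tail_real hT C hleak hℓ hw hd1 hs hd o (N : ℝ) (F.map (encS e).toEmbedding) ?_
  · rw [card_map, hM] at ht
    exact ht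
  intro x hx
  obtain ⟨A, hA, rfl⟩ := mem_map.1 hx
  have hA' : C.val o (encS e A) = true := (hF A).1 hA
  have hdg : ∀ i : Fin N, e (fun _ => i) ∈ sens (C.val o) (encS e A) := by
    intro i
    by_contra hcon
    simp only [sens, mem_filter, mem_univ, true_and, not_not] at hcon
    have h1 : update (encS e A) (e fun _ => i) (!(encS e A (e fun _ => i))) =
        encS e (symmDiff A {fun _ => i}) := by
      rw [encS_symmDiff, map_singleton]
      funext j
      by_cases hj : j = e fun _ => i
      · subst hj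
        simp [flipSet]
      · rw [update_of_ne hj]
        simp [flipSet, hj]
    have h2 : C.val o (encS e (symmDiff A {fun _ => i})) = true := by
      rw [← h1]
      exact hcon.trans hA'
    have h3 := (hF _).2 h2
    have hcube : Fintype.piFinset (fun _ : Fin h => ({i} : Finset (Fin N))) = {fun _ => i} := by
      ext c
      simp [Fintype.mem_piFinset, funext_iff]
    by_cases h4 : (fun _ => i) ∈ A
    · apply hc
      refine ⟨_, h3, {i}, singleton_nonempty i, ?_, ?_⟩
      · rw [hcube, disjoint_singleton_right, mem_symmDiff]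
        simp [h4]
      · rw [hcube]
        convert hA using 1
        ext c
        simp only [mem_union, mem_symmDiff, mem_singleton]
        constructor
        · rintro ((⟨h5, -⟩ | ⟨h5, h6⟩) | h5)
          · exact h5
          · rw [h5] at h6
            exact absurd h4 h6
          · rw [h5]
            exact h4
        · intro h5
          by_cases h6 : c = fun _ => i
          · exact Or.inr h6
          · exact Or.inl (Or.inl ⟨h5, h6⟩)
    · apply hc
      refine ⟨_, hA, {i}, singleton_nonempty i, ?_, ?_⟩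
      · rw [hcube, disjoint_singleton_right]
        exact h4
      · rw [hcube]
        convert h3 using 1
        ext c
        simp only [mem_union, mem_symmDiff, mem_singleton]
        constructor
        · rintro (h5 | h5)
          · exact Or.inl ⟨h5, fun h6 => h4 (h6 ▸ h5)⟩
          · exact Or.inr ⟨h5, fun h6 => h4 (h5 ▸ h6)⟩
        · rintro (⟨h5, -⟩ | ⟨h5, -⟩)
          · exact Or.inl h5
          · exact Or.inr h5
  have hinj : Injective fun i : Fin N => e (fun _ : Fin h => i) := by
    intro i i' hi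
    have h1 := e.injective hi
    exact congrFun h1 ⟨0, hh⟩
  have h5 : (univ.image fun i : Fin N => e (fun _ : Fin h => i)).card ≤
      (sens (C.val o) (encS e A)).card := by
    apply card_le_card
    intro j hj
    obtain ⟨i, -, rfl⟩ := mem_image.1 hj
    exact hdg i
  rw [card_image_of_injective _ hinj, card_univ, Fintype.card_fin] at h5
  exact_mod_cast h5

end

end Pool.Agent.Y347.CO
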