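import Pool.Agent.Y347.CO.CornerRel
import Pool.Agent.Y347.CO.HjRel
import Pool.Agent.Y220.CO.Tail

set_option autoImplicit false

/-!
# Sets decided by circuits of constant depth: final forms
-/

namespace Pool.Agent.Y347.CO

open Finset Function

/-- a single constant -/
theorem num_c (m : ℕ) (hm : 1 ≤ m) (Q β : ℝ) (hQ : 0 < Q) (hβ : 0 < β) :
    ∃ c : ℝ, 0 < c ∧ ∀ (n : ℕ) (X a : ℝ), 1 ≤ X → 0 ≤ a →
      (m ≤ n → Q * (2 : ℝ) ^ (a + 4 - β * (n / m : ℕ) / X) ≤ (2 : ℝ) ^ (a + 1 / c - c * n / X)) ∧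
      (n < m → 1 ≤ (2 : ℝ) ^ (a + 1 / c - c * n / X)) := by
  set L : ℝ := max (Real.logb 2 Q) 0 with hL
  have hL0 : 0 ≤ L := le_max_right _ _
  have hm' : (1 : ℝ) ≤ m := by exact_mod_cast hm
  set c : ℝ := min (β / (2 * m)) (1 / (4 + L + m)) with hc
  have hc0 : 0 < c := lt_min (by positivity) (by positivity)
  have hc1 : c ≤ β / (2 * m) := min_le_left _ _
  have hc2 : c ≤ 1 / (4 + L + m) := min_le_right _ _
  have hc3 : 4 + L + m ≤ 1 / c := by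
    rw [le_div_iff₀ hc0]
    rw [le_div_iff₀ (by positivity)] at hc2
    linarith
  have hc4 : c ≤ 1 := by
    refine hc2.trans ?_
    rw [div_le_one (by positivity)]
    linarith
  refine ⟨c, hc0, fun n X a hX ha => ⟨fun hmn => ?_, fun hnm => ?_⟩⟩
  · have hX0 : 0 < X := by linarith
    have hQ2 : Q ≤ (2 : ℝ) ^ L := by
      calc Q = (2 : ℝ) ^ (Real.logb 2 Q) := (Real.rpow_logb (by norm_num) (by norm_num) hQ).symm
        _ ≤ _ := Real.rpow_le_rpow_of_exponent_le (by norm_num) (le_max_left _ _)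
    have h1 : Q * (2 : ℝ) ^ (a + 4 - β * (n / m : ℕ) / X) ≤
        (2 : ℝ) ^ (L + (a + 4 - β * (n / m : ℕ) / X)) := by
      rw [Real.rpow_add (by norm_num)]
      exact mul_le_mul_of_nonneg_right hQ2 (by positivity)
    refine h1.trans (Real.rpow_le_rpow_of_exponent_le (by norm_num) ?_)
    have h2 : (n : ℝ) ≤ 2 * m * (n / m : ℕ) := by
      have h3 : n < (n / m + 1) * m := by
        have := Nat.lt_div_mul_add (a := n) (b := m) (by omega)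
        nlinarith
      have h4 : 1 ≤ n / m := (Nat.one_le_div_iff (by omega)).2 hmn
      have h5 : n ≤ 2 * m * (n / m) := by nlinarith
      exact_mod_cast h5
    have h6 : c * n / X ≤ β * (n / m : ℕ) / X := by
      apply div_le_div_of_nonneg_right _ hX0.le
      calc c * n ≤ β / (2 * m) * n := mul_le_mul_of_nonneg_right hc1 (Nat.cast_nonneg _)
        _ ≤ β / (2 * m) * (2 * m * (n / m : ℕ)) := mul_le_mul_of_nonneg_left h2 (by positivity)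
        _ = β * (n / m : ℕ) := by field_simp
    linarith
  · apply Real.one_le_rpow (by norm_num)
    have hnm' : (n : ℝ) ≤ m := by exact_mod_cast hnm.le
    have h1 : c * n / X ≤ m := by
      rw [div_le_iff₀ (by linarith)]
      have : c * n ≤ 1 * n := mul_le_mul_of_nonneg_right hc4 (Nat.cast_nonneg _)
      nlinarith
    linarith

theorem one_le_dKK {d w ℓ : ℕ} (hd : 1 ≤ d) (hw : 1 ≤ w) (hℓ : 1 ≤ ℓ) :
    (1 : ℝ) ≤ (d : ℝ) * KK d w ℓ := by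
  have h1 : 1 ≤ KK d w ℓ := by
    rw [KK]
    have : 0 < w * ℓ := Nat.mul_pos hw hℓ
    exact Nat.one_le_iff_ne_zero.2 (by positivity)
  exact_mod_cast Nat.mul_pos hd h1

section corners
variable {n m : ℕ}

theorem cf_mono {A B : Finset ((Fin n → ZMod 2) × (Fin n → ZMod 2))} (h : B ⊆ A)
    (hc : ∀ x y z : Fin n → ZMod 2, (x, y) ∈ A → (x, y + z) ∈ A → (x + z, y) ∈ A → z = 0) :
    ∀ x y z : Fin n → ZMod 2, (x, y) ∈ B → (x, y + z) ∈ B → (x + z, y) ∈ B → z = 0 :=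
  fun x y z h1 h2 h3 => hc x y z (h h1) (h h2) (h h3)

/-- additive form -/
theorem corner_rel_add {w ℓ d : ℕ} (C : Y603.MS.Circuit w (n + n))
    (hleak : C.leak = ∅) (hℓ : 1 ≤ ℓ) (hw : 1 ≤ w) (hd1 : 1 ≤ d) (hs : Nat.card C.Node ≤ 2 ^ ℓ)
    (hd : ∀ v, C.depth v ≤ d) (o : C.Node) (hm : 1 ≤ m) (hmn : m ≤ n)
    (F A : Finset ((Fin n → ZMod 2) × (Fin n → ZMod 2)))
    (hF : ∀ p, p ∈ F ↔ C.val o (encC n p) = true)
    (hc : ∀ x y z : Fin n → ZMod 2, (x, y) ∈ A → (x, y + z) ∈ A → (x + z, y) ∈ A → z = 0)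
    (r : ℕ) (hr : ∀ B : Finset ((Fin m → ZMod 2) × (Fin m → ZMod 2)),
      (∀ x y z : Fin m → ZMod 2, (x, y) ∈ B → (x, y + z) ∈ B → (x + z, y) ∈ B → z = 0) →
        B.card ≤ r)
    {ε : ℝ} (hε : 0 < ε) :
    ((A ∩ F).card : ℝ) ≤ (r / 4 ^ m + ε) * F.card +
      4 * m / ε * (4 ^ n * (2 : ℝ) ^ (2 * ℓ + 4 - ε / 2 * (n / m : ℕ) / (d * KK d w ℓ))) := by
  by_cases hlarge : 4 * m / ε *
    (4 ^ n * (2 : ℝ) ^ (2 * ℓ + 4 - ε / 2 * (n / m : ℕ) / (d * KK d w ℓ))) ≤ F.card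
  · have h := corner_rel Y220.CO.done C hleak hℓ hw hd1 hs hd o hm hmn F A hF hc r hr hε hlarge
    have h2 : 0 ≤ 4 * m / ε *
      (4 ^ n * (2 : ℝ) ^ (2 * ℓ + 4 - ε / 2 * (n / m : ℕ) / (d * KK d w ℓ))) := by positivity
    linarith
  · push Not at hlarge
    have h1 : ((A ∩ F).card : ℝ) ≤ F.card := by exact_mod_cast card_le_card inter_subset_right
    have h2 : 0 ≤ ((r : ℝ) / 4 ^ m + ε) * F.card := by positivity
    linarith

/-- relative corners theorem, additive form -/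
theorem corner_rel_c (δ : ℝ) (hδ : 0 < δ) :
    ∃ c : ℝ, 0 < c ∧ ∀ (n w ℓ d : ℕ) (C : Y603.MS.Circuit w (n + n)), C.leak = ∅ →
      1 ≤ ℓ → 1 ≤ w → 1 ≤ d → Nat.card C.Node ≤ 2 ^ ℓ → (∀ v, C.depth v ≤ d) → ∀ (o : C.Node)
      (F A : Finset ((Fin n → ZMod 2) × (Fin n → ZMod 2))),
      (∀ p, p ∈ F ↔ C.val o (encC n p) = true) →
      (∀ x y z : Fin n → ZMod 2, (x, y) ∈ A → (x, y + z) ∈ A → (x + z, y) ∈ A → z = 0) →
      ((A ∩ F).card : ℝ) ≤ δ * F.card +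
        4 ^ n * (2 : ℝ) ^ (2 * ℓ + 1 / c - c * n / (d * KK d w ℓ)) := by
  classical
  obtain ⟨m, hm, h⟩ := corner_rel_all Y220.CO.done δ hδ
  obtain ⟨c, hc0, hcc⟩ := num_c m hm (8 * m / δ) (δ / 4) (by positivity) (by positivity)
  refine ⟨c, hc0, fun n w ℓ d C hleak hℓ hw hd1 hs hd o F A hF hc => ?_⟩
  obtain ⟨h1, h2⟩ := hcc n (d * KK d w ℓ) (2 * ℓ) (one_le_dKK hd1 hw hℓ) (by positivity)
  have hAF : ((A ∩ F).card : ℝ) ≤ F.card := by exact_mod_cast card_le_card inter_subset_right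
  have hFc : (F.card : ℝ) ≤ 4 ^ n := by
    have := card_le_univ F
    rw [Fintype.card_prod, Fintype.card_pi, prod_const, card_univ, Fintype.card_fin, ZMod.card,
      ← mul_pow] at this
    exact_mod_cast this
  have hδF : 0 ≤ δ * F.card := by positivity
  have h4 : (0 : ℝ) < 4 ^ n := by positivity
  rcases le_or_gt m n with hmn | hnm
  · have h3 := h1 hmn
    by_cases hlarge : 8 * m / δ *
        (4 ^ n * (2 : ℝ) ^ (2 * ℓ + 4 - δ / 4 * (n / m : ℕ) / (d * KK d w ℓ))) ≤ F.card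
    · have := h n w ℓ d C hmn hleak hℓ hw hd1 hs hd o F A hF hc hlarge
      have h5 : (0 : ℝ) ≤ 4 ^ n * (2 : ℝ) ^ (2 * ℓ + 1 / c - c * n / (d * KK d w ℓ)) := by
        positivity
      linarith
    · push Not at hlarge
      have h5 := mul_le_mul_of_nonneg_left h3 h4.le
      have h6 : 8 * m / δ *
        (4 ^ n * (2 : ℝ) ^ (2 * ℓ + 4 - δ / 4 * (n / m : ℕ) / (d * KK d w ℓ))) =
        4 ^ n * (8 * m / δ * (2 : ℝ) ^ (2 * ℓ + 4 - δ / 4 * (n / m : ℕ) / (d * KK d w ℓ))) := by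
        ring
      linarith
  · have h3 := h2 hnm
    have h5 := mul_le_mul_of_nonneg_left h3 h4.le
    linarith

end corners

section sets
variable {h N : ℕ}

theorem goodH_mono {S S' : Finset (Finset (Fin h → Fin N))} (hs : S ⊆ S') (hg : GoodH S) :
    GoodH S' := by
  obtain ⟨A, hA, γ, h1, h2, h3⟩ := hg
  exact ⟨A, hs hA, γ, h1, h2, hs h3⟩

/-- additive form -/
theorem hj_rel_add {m M w ℓ d : ℕ} (C : Y603.MS.Circuit w M)
    (hleak : C.leak = ∅) (hℓ : 1 ≤ ℓ) (hw : 1 ≤ w) (hd1 : 1 ≤ d) (hs : Nat.card C.Node ≤ 2 ^ ℓ)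
    (hd : ∀ v, C.depth v ≤ d) (o : C.Node) (e : (Fin h → Fin N) ≃ Fin M) (hh : 1 ≤ h)
    (hm : 1 ≤ m) (hmn : m ≤ N)
    (F S : Finset (Finset (Fin h → Fin N)))
    (hF : ∀ A, A ∈ F ↔ C.val o (encS e A) = true) (hc : ¬ GoodH S)
    (r : ℕ) (hr : ∀ B : Finset (Finset (Fin h → Fin m)), ¬ GoodH B → B.card ≤ r)
    {ε : ℝ} (hε : 0 < ε) :
    ((S ∩ F).card : ℝ) ≤ (r / 2 ^ (m ^ h) + ε) * F.card + 2 * m ^ h / ε * (2 ^ (N ^ h) *
      (2 : ℝ) ^ (2 * ℓ + 4 - ε / 2 * (N / m : ℕ) / (d * KK d w ℓ))) := by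
  by_cases hlarge : 2 * m ^ h / ε * (2 ^ (N ^ h) *
      (2 : ℝ) ^ (2 * ℓ + 4 - ε / 2 * (N / m : ℕ) / (d * KK d w ℓ))) ≤ F.card
  · have h1 := hj_rel Y220.CO.done C hleak hℓ hw hd1 hs hd o e hh hm hmn F S hF hc r hr hε hlarge
    have h2 : 0 ≤ 2 * m ^ h / ε * (2 ^ (N ^ h) *
      (2 : ℝ) ^ (2 * ℓ + 4 - ε / 2 * (N / m : ℕ) / (d * KK d w ℓ))) := by positivity
    linarith
  · push Not at hlarge
    have h1 : ((S ∩ F).card : ℝ) ≤ F.card := by exact_mod_cast card_le_card inter_subset_right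
    have h2 : 0 ≤ ((r : ℝ) / 2 ^ (m ^ h) + ε) * F.card := by positivity
    linarith

/-- the relative theorem for all densities above a density for which the conjecture holds -/
theorem hj_rel_c (h : ℕ) (hh : 1 ≤ h) (θ θ' : ℝ) (hθ0 : 0 ≤ θ) (hθ : θ < θ')
    (hcrit : ∀ δ : ℝ, θ < δ → ∃ m : ℕ, 1 ≤ m ∧ ∀ S : Finset (Finset (Fin h → Fin m)),
      δ * (2 : ℝ) ^ (m ^ h) < S.card → GoodH S) :
    ∃ c : ℝ, 0 < c ∧ ∀ (N w ℓ d : ℕ) (C : Y603.MS.Circuit w (N ^ h)), C.leak = ∅ →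
      1 ≤ ℓ → 1 ≤ w → 1 ≤ d → Nat.card C.Node ≤ 2 ^ ℓ → (∀ v, C.depth v ≤ d) → ∀ (o : C.Node)
      (e : (Fin h → Fin N) ≃ Fin (N ^ h)) (F S : Finset (Finset (Fin h → Fin N))),
      (∀ A, A ∈ F ↔ C.val o (encS e A) = true) → ¬ GoodH S →
      ((S ∩ F).card : ℝ) ≤ θ' * F.card +
        2 ^ (N ^ h) * (2 : ℝ) ^ (2 * ℓ + 1 / c - c * N / (d * KK d w ℓ)) := by
  classical
  set δ : ℝ := (θ + θ') / 2 with hδ
  set ε : ℝ := (θ' - θ) / 2 with hεdef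
  have hε : 0 < ε := by rw [hεdef]; linarith
  have hδ0 : 0 ≤ δ := by rw [hδ]; linarith
  obtain ⟨m, hm1, hN₀⟩ := hcrit δ (by rw [hδ]; linarith)
  obtain ⟨c, hc0, hcc⟩ := num_c m hm1 (2 * m ^ h / ε) (ε / 2) (by positivity) (by positivity)
  refine ⟨c, hc0, fun N w ℓ d C hleak hℓ hw hd1 hs hd o e F S hF hS => ?_⟩
  obtain ⟨h1, h2⟩ := hcc N (d * KK d w ℓ) (2 * ℓ) (one_le_dKK hd1 hw hℓ) (by positivity)
  have hAF : ((S ∩ F).card : ℝ) ≤ F.card := by exact_mod_cast card_le_card inter_subset_right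
  have hFc : (F.card : ℝ) ≤ 2 ^ (N ^ h) := by
    have := card_le_univ F
    rw [Fintype.card_finset, Fintype.card_pi, prod_const, card_univ, Fintype.card_fin,
      Fintype.card_fin] at this
    exact_mod_cast this
  have hθF : 0 ≤ θ' * F.card := by
    have : 0 ≤ θ' := by linarith
    positivity
  have h4 : (0 : ℝ) < 2 ^ (N ^ h) := by positivity
  rcases le_or_gt m N with hmn | hnm
  · have hr : ∀ B : Finset (Finset (Fin h → Fin m)), ¬ GoodH B → B.card ≤ ⌊δ * 2 ^ (m ^ h)⌋₊ := by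
      intro B hB
      apply Nat.le_floor
      by_contra hcon
      push Not at hcon
      exact hB (hN₀ B hcon)
    have h3 := h1 hmn
    have h5 := hj_rel_add C hleak hℓ hw hd1 hs hd o e hh hm1 hmn F S hF hS _ hr hε
    have h6 : ((⌊δ * 2 ^ (m ^ h)⌋₊ : ℕ) : ℝ) ≤ δ * 2 ^ (m ^ h) := Nat.floor_le (by positivity)
    have h7 : ((⌊δ * 2 ^ (m ^ h)⌋₊ : ℕ) : ℝ) / 2 ^ (m ^ h) ≤ δ := by
      rw [div_le_iff₀ (by positivity)]
      exact h6
    have h8 : (((⌊δ * 2 ^ (m ^ h)⌋₊ : ℕ) : ℝ) / 2 ^ (m ^ h) + ε) * F.card ≤ θ' * F.card := by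
      apply mul_le_mul_of_nonneg_right _ (Nat.cast_nonneg _)
      rw [hδ] at h7
      rw [hεdef]
      linarith
    have h9 := mul_le_mul_of_nonneg_left h3 h4.le
    have h10 : 2 * m ^ h / ε * (2 ^ (N ^ h) *
      (2 : ℝ) ^ (2 * ℓ + 4 - ε / 2 * (N / m : ℕ) / (d * KK d w ℓ))) =
      2 ^ (N ^ h) * (2 * m ^ h / ε *
      (2 : ℝ) ^ (2 * ℓ + 4 - ε / 2 * (N / m : ℕ) / (d * KK d w ℓ))) := by ring
    linarith
  · have h3 := h2 hnm
    have h5 := mul_le_mul_of_nonneg_left h3 h4.le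
    linarith

end sets

end Pool.Agent.Y347.CO
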