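import Pool.Agent.Y347.CO.Ops
import Pool.Agent.Y347.CO.LocB
import Pool.Agent.Y347.CO.Stm
import Pool.Agent.Y48.CO.BP
import Pool.Agent.Y356.CO.Post
import Pool.Agent.Y433.CO.Affg

set_option autoImplicit false

/-!
# Families of subsets of `[N]^d` closed under coordinatewise operations
-/

namespace Pool.Agent.Y347.CO

open Finset Function

section
variable {X : Type} [Fintype X] [DecidableEq X]

/-- subsets as words -/
def setEquiv (X : Type) [Fintype X] [DecidableEq X] : Finset X ≃ (X → Bool) where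
  toFun A x := decide (x ∈ A)
  invFun w := univ.filter fun x => w x = true
  left_inv A := by ext x; simp
  right_inv w := by funext x; simp

/-- closed under an operation on sets -/
def ClosedF {k : ℕ} (S : Finset (Finset X)) (f : (Fin k → Bool) → Bool) : Prop :=
  ∀ a : Fin k → Finset X, (∀ l, a l ∈ S) →
    (univ.filter fun x => f (fun l => decide (x ∈ a l)) = true) ∈ S

end

section
variable {d N : ℕ}

/-- the family is good -/
def Good (S : Finset (Finset (Fin d → Fin N))) : Prop :=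
  ∃ A ∈ S, ∃ γ : Finset (Fin N), γ.Nonempty ∧
    Disjoint A (Fintype.piFinset (fun _ : Fin d => γ)) ∧
    A ∪ Fintype.piFinset (fun _ : Fin d => γ) ∈ S

/-- the diagonal -/
def diag (d N : ℕ) : Finset (Fin d → Fin N) := univ.image fun (i : Fin N) (_ : Fin d) => i

theorem card_diag (hd : 1 ≤ d) : (diag d N).card = N := by
  rw [diag, card_image_of_injective, card_univ, Fintype.card_fin]
  intro i j h
  exact congrFun h ⟨0, hd⟩

theorem diag_crit {S : Finset (Finset (Fin d → Fin N))} (hS : ¬ Good S) {x : Fin d → Fin N}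
    (hx : x ∈ diag d N) (w : (Fin d → Fin N) → Bool) :
    ∃ b, update w x b ∉ S.map (setEquiv (Fin d → Fin N)).toEmbedding := by
  by_contra hcon
  push Not at hcon
  obtain ⟨i, -, rfl⟩ := mem_image.1 hx
  have h0 := hcon false
  have h1 := hcon true
  rw [mem_map_equiv] at h0 h1
  apply hS
  have hpi : Fintype.piFinset (fun _ : Fin d => ({i} : Finset (Fin N))) = {fun _ => i} := by
    ext y
    simp [Fintype.mem_piFinset, funext_iff]
  refine ⟨_, h0, {i}, singleton_nonempty i, ?_, ?_⟩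
  · rw [hpi, disjoint_singleton_right]
    simp [setEquiv]
  · rw [hpi]
    convert h1 using 1
    ext y
    rcases eq_or_ne y (fun _ => i) with rfl | hy
    · simp [setEquiv]
    · simp [setEquiv, update_of_ne hy, hy]

theorem hj_semi (hd : 1 ≤ d) (S : Finset (Finset (Fin d → Fin N))) (hS : ¬ Good S)
    (s : (Fin d → Fin N) → Bool → Bool → Bool) (hs : ∀ x, IsSemi (s x))
    (h : ∀ A ∈ S, ∀ B ∈ S,
      (univ.filter fun x => s x (decide (x ∈ A)) (decide (x ∈ B)) = true) ∈ S) :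
    (S.card : ℝ) ≤ cq 2 ^ N * 2 ^ (N ^ d - N) := by
  have h1 := semi_ops (D := fun _ : Fin d → Fin N => Bool) (q := 2) le_rfl
    (fun _ => by simp) s hs (S.map (setEquiv (Fin d → Fin N)).toEmbedding) ?_ (diag d N) ?_
  · rw [card_map, card_diag hd] at h1
    simpa using h1
  · intro a ha b hb
    rw [mem_map_equiv] at ha hb ⊢
    have := h _ ha _ hb
    convert this using 1
    ext x
    simp [setEquiv]
  · intro x hx w
    exact diag_crit hS hx w

theorem hj_local (hd : 1 ≤ d) {r : ℕ} (hr : 1 ≤ r) (S : Finset (Finset (Fin d → Fin N)))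
    (hS : ¬ Good S) (hloc : IsLocal r (S.map (setEquiv (Fin d → Fin N)).toEmbedding)) :
    (S.card : ℝ) ≤ (2 : ℝ) ^ ((N : ℝ) ^ d - N / r) := by
  have h1 := local_bits hr hloc (fun _ => by simp) N ?_
  · rw [card_map] at h1
    simpa using h1
  · intro a _
    exact ⟨diag d N, (card_diag hd).ge, fun x hx => diag_crit hS hx a⟩

theorem hj_nu (hd : 1 ≤ d) {r : ℕ} (hr : 1 ≤ r) (S : Finset (Finset (Fin d → Fin N)))
    (hS : ¬ Good S) (f : (Fin d → Fin N) → (Fin (r + 1) → Bool) → Bool)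
    (hf : ∀ x l u v, f x (update (fun _ => u) l v) = u)
    (h : ∀ a : Fin (r + 1) → Finset (Fin d → Fin N), (∀ l, a l ∈ S) →
      (univ.filter fun x => f x (fun l => decide (x ∈ a l)) = true) ∈ S) :
    (S.card : ℝ) ≤ (2 : ℝ) ^ ((N : ℝ) ^ d - N / r) := by
  apply hj_local hd hr S hS
  apply Y48.CO.BP.done (Fin d → Fin N) (fun _ => Bool) r _ f hf
  intro a ha
  rw [mem_map_equiv]
  have h1 := h (fun l => (setEquiv (Fin d → Fin N)).symm (a l)) (fun l => by
    have := ha l
    rwa [mem_map_equiv] at this)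
  convert h1 using 1
  ext x
  simp [setEquiv]

theorem hj_aff (hd : 1 ≤ d) (S : Finset (Finset (Fin d → Fin N))) (hS : ¬ Good S)
    (h : ∀ A ∈ S, ∀ B ∈ S, ∀ C ∈ S, symmDiff A (symmDiff B C) ∈ S) :
    (S.card : ℝ) ≤ (2 : ℝ) ^ ((N : ℝ) ^ d - N / (d + 1)) := by
  have h1 := Pool.Agent.Y433.CO.Affg.done d N S hd h hS
  have h2 : (S.card : ℝ) ^ (d + 1) * 2 ^ N ≤ (2 ^ (N ^ d)) ^ (d + 1) := by exact_mod_cast h1
  have hd0 : (0 : ℝ) < (d : ℝ) + 1 := by positivity
  have h3 : (S.card : ℝ) ^ (d + 1) ≤ ((2 : ℝ) ^ ((N : ℝ) ^ d - N / (d + 1))) ^ (d + 1) := by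
    have e1 : ((2 : ℝ) ^ ((N : ℝ) ^ d - N / (d + 1))) ^ (d + 1) =
        (2 ^ (N ^ d)) ^ (d + 1) / 2 ^ N := by
      have a1 : ((2 : ℝ) ^ ((N : ℝ) ^ d - N / (d + 1))) ^ (d + 1) =
          (2 : ℝ) ^ (((N : ℝ) ^ d - N / (d + 1)) * ((d + 1 : ℕ) : ℝ)) := by
        rw [Real.rpow_mul (by norm_num), Real.rpow_natCast]
      have a2 : ((2 : ℝ) ^ (N ^ d)) ^ (d + 1) = (2 : ℝ) ^ (((N ^ d * (d + 1) : ℕ)) : ℝ) := by
        rw [Real.rpow_natCast, pow_mul]
      have a3 : (2 : ℝ) ^ N = (2 : ℝ) ^ (N : ℝ) := by rw [Real.rpow_natCast]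
      rw [a1, a2, a3, ← Real.rpow_sub (by norm_num)]
      congr 1
      push_cast
      field_simp
    rw [e1, le_div_iff₀ (by positivity)]
    exact h2
  exact le_of_pow_le_pow_left₀ (by omega) (by positivity) h3

end

end Pool.Agent.Y347.CO
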