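import Pool.Agent.Y347.CO.Hj
import Pool.Agent.Y347.CO.Bits

set_option autoImplicit false

/-!
# Families of subsets of `[N]^d` closed under coordinatewise operations: main theorem
-/

namespace Pool.Agent.Y347.CO

open Finset Function

section
variable {d N : ℕ}

theorem le_pow_self' (hd : 1 ≤ d) : N ≤ N ^ d := by
  rcases Nat.eq_zero_or_pos N with rfl | hN
  · simp
  · calc N = N ^ 1 := (pow_one N).symm
      _ ≤ N ^ d := Nat.pow_le_pow_right hN hd

/-- semilattice operations, sharper bound -/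
theorem hj_semi' (hd : 1 ≤ d) (S : Finset (Finset (Fin d → Fin N))) (hS : ¬ Good S)
    (s : (Fin d → Fin N) → Bool → Bool → Bool) (hs : ∀ x, IsSemi (s x))
    (h : ∀ A ∈ S, ∀ B ∈ S,
      (univ.filter fun x => s x (decide (x ∈ A)) (decide (x ∈ B)) = true) ∈ S) :
    (S.card : ℝ) ≤ (2 : ℝ) ^ ((N : ℝ) ^ d - N / 2) := by
  have h1 := bits_ops (D := fun _ : Fin d → Fin N => Bool) (fun _ => by simp) s hs
    (S.map (setEquiv (Fin d → Fin N)).toEmbedding) ?_ (diag d N) ?_
  · rw [card_map, card_diag hd] at h1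
    simp only [Fintype.card_pi, Fintype.card_fin, prod_const, card_univ] at h1
    have hle := le_pow_self' (N := N) hd
    obtain ⟨M, hM⟩ := Nat.exists_eq_add_of_le hle
    rw [hM, Nat.add_sub_cancel_left] at h1
    have h2 : (S.card : ℝ) ^ 2 ≤ 2 ^ N * 4 ^ M := by exact_mod_cast h1
    have h3 : (N : ℝ) ^ d = N + M := by
      have : ((N ^ d : ℕ) : ℝ) = ((N + M : ℕ) : ℝ) := by rw [hM]
      push_cast at this
      exact this
    have h4 : ((2 : ℝ) ^ ((N : ℝ) ^ d - N / 2)) ^ 2 = 2 ^ N * 4 ^ M := by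
      have a1 : ((2 : ℝ) ^ ((N : ℝ) ^ d - N / 2)) ^ 2 =
          (2 : ℝ) ^ (((N : ℝ) ^ d - N / 2) * ((2 : ℕ) : ℝ)) := by
        rw [Real.rpow_mul (by norm_num), Real.rpow_natCast]
      have a2 : (4 : ℝ) ^ M = (2 : ℝ) ^ ((2 * M : ℕ) : ℝ) := by
        rw [Real.rpow_natCast, pow_mul]
        norm_num
      have a3 : (2 : ℝ) ^ N = (2 : ℝ) ^ (N : ℝ) := by rw [Real.rpow_natCast]
      rw [a1, a2, a3, ← Real.rpow_add (by norm_num), h3]
      congr 1
      push_cast
      ring
    rw [← h4] at h2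
    exact le_of_sq_le_sq h2 (by positivity)
  · intro a ha b hb
    rw [mem_map_equiv] at ha hb ⊢
    have := h _ ha _ hb
    convert this using 1
    ext x
    simp [setEquiv]
  · intro x hx w hw e he h'
    obtain ⟨b, hb⟩ := diag_crit hS hx w
    apply hb
    by_cases hbw : b = w x
    · rw [hbw, update_eq_self]
      exact hw
    · have : b = e := by
        revert he hbw
        generalize w x = u
        cases b <;> cases e <;> cases u <;> simp
      rw [this]
      exact h'

theorem mono_exp (hd : 1 ≤ d) {x : ℝ} (h : x ≤ (2 : ℝ) ^ ((N : ℝ) ^ d - N / 2)) :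
    x ≤ (2 : ℝ) ^ ((N : ℝ) ^ d - N / (d + 1)) := by
  refine h.trans (Real.rpow_le_rpow_of_exponent_le (by norm_num) ?_)
  have hd' : (1 : ℝ) ≤ d := by exact_mod_cast hd
  have : (N : ℝ) / (d + 1) ≤ N / 2 :=
    div_le_div_of_nonneg_left (Nat.cast_nonneg _) (by norm_num) (by linarith)
  linarith

/-- **Main theorem for families of subsets of `[N]^d`.** -/
theorem hj_op (hd : 1 ≤ d) {k : ℕ} (f : (Fin k → Bool) → Bool) {j j' : Fin k} (hjj : j ≠ j')
    (hj : DependsOn f j) (hj' : DependsOn f j') (S : Finset (Finset (Fin d → Fin N)))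
    (hS : ¬ Good S) (hcl : ClosedF S f) :
    (S.card : ℝ) ≤ (2 : ℝ) ^ ((N : ℝ) ^ d - N / (d + 1)) := by
  set W : Set ((Fin d → Fin N) → Bool) :=
    {w | (setEquiv (Fin d → Fin N)).symm w ∈ S} with hW
  have hmem : ∀ A, A ∈ S ↔ (fun x => decide (x ∈ A)) ∈ W := by
    intro A
    simp [hW, setEquiv]
  have hFcl : ClosedB W f := by
    intro a ha
    have := hcl (fun l => (setEquiv (Fin d → Fin N)).symm (a l)) ha
    rw [hW, Set.mem_setOf_eq]
    convert this using 1
    ext x
    simp [setEquiv]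
  have hW' : ∀ (w : (Fin d → Fin N) → Bool) (A : Finset (Fin d → Fin N)), w ∈ W →
      (∀ x, w x = decide (x ∈ A)) → A ∈ S := by
    intro w A hw h
    rw [hmem]
    convert hw using 1
    funext x
    exact (h x).symm
  rcases Y356.CO.done _ W k f j j' hjj hj hj' hFcl with h | h | h | h
  · apply mono_exp hd
    refine hj_semi' hd S hS (fun _ => and) (fun _ => ⟨Bool.and_comm, Bool.and_assoc,
      Bool.and_self⟩) ?_
    intro A hA B hB
    refine hW' _ _ (h _ ((hmem _).1 hA) _ ((hmem _).1 hB)) ?_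
    intro x
    simp
  · apply mono_exp hd
    refine hj_semi' hd S hS (fun _ => or) (fun _ => ⟨Bool.or_comm, Bool.or_assoc,
      Bool.or_self⟩) ?_
    intro A hA B hB
    refine hW' _ _ (h _ ((hmem _).1 hA) _ ((hmem _).1 hB)) ?_
    intro x
    simp
  · apply mono_exp hd
    have h1 := hj_nu hd (r := 2) (by norm_num) S hS
      (fun _ v => (v 0 && v 1) || (v 0 && v 2) || (v 1 && v 2)) (by
        intro _
        decide) ?_
    · exact_mod_cast h1
    · intro a ha
      refine hW' _ _ (h _ ((hmem _).1 (ha 0)) _ ((hmem _).1 (ha 1)) _ ((hmem _).1 (ha 2))) ?_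
      intro x
      simp
  · refine hj_aff hd S hS ?_
    intro A hA B hB C hC
    refine hW' _ _ (h _ ((hmem _).1 hA) _ ((hmem _).1 hB) _ ((hmem _).1 hC)) ?_
    intro x
    by_cases h1 : x ∈ A <;> by_cases h2 : x ∈ B <;> by_cases h3 : x ∈ C <;>
      simp [mem_symmDiff, h1, h2, h3]

end

end Pool.Agent.Y347.CO
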