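import Pool.Agent.Y220.CO.Tail

set_option autoImplicit false
set_option maxHeartbeats 400000

/-!
# Functions of low degree on a subcube

The functions on `F_2^n` which are supported on the subcube of a restriction and are polynomials of
degree at most `D` there.
-/

namespace Pool.Agent.Y347.CO

open Finset Function H568R2 Pool.Agent.TH163.AC3 Pool.Agent.Y603.MS

section
variable {n : ℕ} {K : Type} [Field K]

/-- bits of a vector -/
def bits2 (y : Fin n → ZMod 2) : Fin n → Bool := fun i => decide (y i = 1)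

theorem zmod2_cases (z : ZMod 2) : z = 0 ∨ z = 1 := by
  revert z
  decide

/-- the free positions -/
def freeS (ρ : Restr (Fin n)) : Finset (Fin n) := univ.filter fun i => ρ i = none

theorem freeS_card (ρ : Restr (Fin n)) : (freeS ρ).card = fr ρ := rfl

/-- a bit as an element of the field -/
def bt (K : Type) [Field K] (z : ZMod 2) : K := if z = 1 then 1 else 0

theorem bt_zero : bt K 0 = 0 := if_neg (by decide)

theorem bt_one : bt K 1 = 1 := if_pos rfl

theorem bt_sq (z : ZMod 2) : bt K z * bt K z = bt K z := by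
  rcases zmod2_cases z with h | h <;> rw [h]
  · rw [bt_zero, mul_zero]
  · rw [bt_one, mul_one]

open Classical in
/-- monomials on the cube of a restriction -/
noncomputable def chi (K : Type) [Field K] (ρ : Restr (Fin n)) (s : Finset (Fin n))
    (y : Fin n → ZMod 2) : K :=
  if InC ρ (bits2 y) then ∏ i ∈ s, bt K (y i) else 0

/-- the index set of the monomials -/
abbrev MIdx (ρ : Restr (Fin n)) (D : ℕ) : Type := {s : Finset (Fin n) // s ⊆ freeS ρ ∧ s.card ≤ D}

/-- functions of degree at most `D` on the cube of a restriction -/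
noncomputable def US (K : Type) [Field K] (ρ : Restr (Fin n)) (D : ℕ) :
    Submodule K ((Fin n → ZMod 2) → K) :=
  Submodule.span K (Set.range fun s : MIdx ρ D => chi K ρ s.1)

theorem chi_mem (ρ : Restr (Fin n)) {D : ℕ} {s : Finset (Fin n)} (h1 : s ⊆ freeS ρ)
    (h2 : s.card ≤ D) : chi K ρ s ∈ US K ρ D :=
  Submodule.subset_span ⟨⟨s, h1, h2⟩, rfl⟩

theorem US_mono (ρ : Restr (Fin n)) {D D' : ℕ} (h : D ≤ D') : US K ρ D ≤ US K ρ D' := by
  apply Submodule.span_le.2
  rintro f ⟨⟨s, h1, h2⟩, rfl⟩
  exact chi_mem ρ h1 (h2.trans h)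

theorem chi_mul (ρ : Restr (Fin n)) {D : ℕ} {s : Finset (Fin n)} (h1 : s ⊆ freeS ρ)
    (h2 : s.card ≤ D) (i : Fin n) : (fun y => bt K (y i) * chi K ρ s y) ∈ US K ρ (D + 1) := by
  classical
  by_cases hi : ρ i = none
  · have hins : insert i s ⊆ freeS ρ :=
      insert_subset (mem_filter.2 ⟨mem_univ _, hi⟩) h1
    have hcard : (insert i s).card ≤ D + 1 := (card_insert_le _ _).trans (by omega)
    have e : (fun y : Fin n → ZMod 2 => bt K (y i) * chi K ρ s y) = chi K ρ (insert i s) := by
      funext y
      unfold chi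
      by_cases hC : InC ρ (bits2 y)
      · rw [if_pos hC, if_pos hC]
        by_cases his : i ∈ s
        · rw [insert_eq_of_mem his, ← mul_prod_erase s _ his, ← mul_assoc, bt_sq]
        · rw [prod_insert his]
      · rw [if_neg hC, if_neg hC, mul_zero]
    rw [e]
    exact chi_mem ρ hins hcard
  · obtain ⟨b, hb⟩ := Option.ne_none_iff_exists'.1 hi
    have e : (fun y : Fin n → ZMod 2 => bt K (y i) * chi K ρ s y) =
        (if b = true then (1 : K) else 0) • chi K ρ s := by
      funext y
      rw [Pi.smul_apply, smul_eq_mul]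
      unfold chi
      by_cases hC : InC ρ (bits2 y)
      · have h3 := hC i b hb
        have h4 : bt K (y i) = if b = true then (1 : K) else 0 := by
          unfold bits2 at h3
          cases b with
          | true =>
            rw [if_pos rfl, of_decide_eq_true h3, bt_one]
          | false =>
            have h5 : ¬ y i = 1 := of_decide_eq_false h3
            rw [if_neg (by simp), (zmod2_cases (y i)).resolve_right h5, bt_zero]
        rw [h4]
      · rw [if_neg hC, mul_zero, mul_zero]
    rw [e]
    exact Submodule.smul_mem _ _ (US_mono ρ (Nat.le_succ D) (chi_mem ρ h1 h2))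

theorem US_mul (ρ : Restr (Fin n)) {D : ℕ} {f : (Fin n → ZMod 2) → K} (hf : f ∈ US K ρ D)
    (i : Fin n) : (fun y => bt K (y i) * f y) ∈ US K ρ (D + 1) := by
  unfold US at hf
  induction hf using Submodule.span_induction with
  | mem f hf =>
    obtain ⟨⟨s, h1, h2⟩, rfl⟩ := hf
    exact chi_mul ρ h1 h2 i
  | zero =>
    have : (fun y : Fin n → ZMod 2 => bt K (y i) * (0 : (Fin n → ZMod 2) → K) y) = 0 := by
      funext y
      simp
    rw [this]
    exact Submodule.zero_mem _
  | add f g _ _ hf hg =>
    have : (fun y : Fin n → ZMod 2 => bt K (y i) * (f + g) y) =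
        (fun y => bt K (y i) * f y) + fun y => bt K (y i) * g y := by
      funext y
      simp [mul_add]
    rw [this]
    exact Submodule.add_mem _ hf hg
  | smul c f _ hf =>
    have : (fun y : Fin n → ZMod 2 => bt K (y i) * (c • f) y) =
        c • fun y => bt K (y i) * f y := by
      funext y
      simp only [Pi.smul_apply, smul_eq_mul]
      ring
    rw [this]
    exact Submodule.smul_mem _ c hf

theorem chi_chi (ρ : Restr (Fin n)) (s s' : Finset (Fin n)) :
    chi K ρ s * chi K ρ s' = chi K ρ (s ∪ s') := by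
  classical
  funext y
  rw [Pi.mul_apply]
  unfold chi
  by_cases hC : InC ρ (bits2 y)
  · rw [if_pos hC, if_pos hC, if_pos hC]
    induction s using Finset.induction_on with
    | empty => rw [prod_empty, one_mul, empty_union]
    | insert i s hi ih =>
      rw [prod_insert hi, mul_assoc, ih, insert_union]
      by_cases his : i ∈ s ∪ s'
      · rw [insert_eq_of_mem his, ← mul_prod_erase (s ∪ s') _ his, ← mul_assoc, bt_sq]
      · rw [prod_insert his]
  · rw [if_neg hC, if_neg hC, if_neg hC, mul_zero]

theorem US_mulf (ρ : Restr (Fin n)) {a b : ℕ} {f g : (Fin n → ZMod 2) → K} (hf : f ∈ US K ρ a)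
    (hg : g ∈ US K ρ b) : f * g ∈ US K ρ (a + b) := by
  classical
  unfold US at hf
  induction hf using Submodule.span_induction with
  | mem f hf =>
    obtain ⟨⟨s, h1, h2⟩, rfl⟩ := hf
    unfold US at hg
    induction hg using Submodule.span_induction with
    | mem g hg =>
      obtain ⟨⟨s', h1', h2'⟩, rfl⟩ := hg
      show chi K ρ s * chi K ρ s' ∈ US K ρ (a + b)
      rw [chi_chi]
      refine chi_mem ρ (union_subset h1 h1') ((card_union_le _ _).trans ?_)
      omega
    | zero =>
      rw [mul_zero]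
      exact Submodule.zero_mem _
    | add g g' _ _ hg hg' =>
      rw [mul_add]
      exact Submodule.add_mem _ hg hg'
    | smul c g _ hg =>
      rw [mul_smul_comm]
      exact Submodule.smul_mem _ c hg
  | zero =>
    rw [zero_mul]
    exact Submodule.zero_mem _
  | add f f' _ _ hf hf' =>
    rw [add_mul]
    exact Submodule.add_mem _ hf hf'
  | smul c f _ hf =>
    rw [smul_mul_assoc]
    exact Submodule.smul_mem _ c hf

/-- splitting at a bit -/
theorem US_split (ρ : Restr (Fin n)) {D : ℕ} {f g : (Fin n → ZMod 2) → K} (hf : f ∈ US K ρ D)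
    (hg : g ∈ US K ρ D) (i : Fin n) :
    (fun y => if bits2 y i = true then f y else g y) ∈ US K ρ (D + 1) := by
  have e : (fun y : Fin n → ZMod 2 => if bits2 y i = true then f y else g y) =
      (fun y => bt K (y i) * f y) + (g - fun y => bt K (y i) * g y) := by
    funext y
    simp only [Pi.add_apply, Pi.sub_apply]
    unfold bits2
    rcases zmod2_cases (y i) with h | h
    · rw [h, if_neg (by decide), bt_zero]
      ring
    · rw [h, if_pos (by decide), bt_one]
      ring
  rw [e]
  exact Submodule.add_mem _ (US_mul ρ hf i)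
    (Submodule.sub_mem _ (US_mono ρ (Nat.le_succ D) hg) (US_mul ρ hg i))

theorem eval_leaf' (b : Bool) (x : Fin n → Bool) :
    (Pool.Agent.TH163.AC3.Tree.leaf b : Pool.Agent.TH163.AC3.Tree (Fin n)).eval x = b := rfl

theorem eval_node' (i : Fin n) (a b : Pool.Agent.TH163.AC3.Tree (Fin n)) (x : Fin n → Bool) :
    (Pool.Agent.TH163.AC3.Tree.node i a b).eval x =
      if x i = true then b.eval x else a.eval x := rfl

theorem depth_node' (i : Fin n) (a b : Pool.Agent.TH163.AC3.Tree (Fin n)) :
    (Pool.Agent.TH163.AC3.Tree.node i a b).depth = max a.depth b.depth + 1 := rfl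

/-- decision trees -/
theorem US_tree (ρ : Restr (Fin n)) (T : Pool.Agent.TH163.AC3.Tree (Fin n)) :
    ∀ {E : ℕ} {f : (Fin n → ZMod 2) → K},
    f ∈ US K ρ E → (fun y => if T.eval (bits2 y) = true then f y else 0) ∈ US K ρ (E + T.depth) := by
  induction T with
  | leaf b =>
    intro E f hf
    cases b with
    | true =>
      have : (fun y : Fin n → ZMod 2 =>
          if (Pool.Agent.TH163.AC3.Tree.leaf true : Pool.Agent.TH163.AC3.Tree (Fin n)).eval
            (bits2 y) = true then f y else 0) = f := by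
        funext y
        rw [eval_leaf', if_pos rfl]
      rw [this]
      exact US_mono ρ (Nat.le_add_right _ _) hf
    | false =>
      have : (fun y : Fin n → ZMod 2 =>
          if (Pool.Agent.TH163.AC3.Tree.leaf false : Pool.Agent.TH163.AC3.Tree (Fin n)).eval
            (bits2 y) = true then f y else 0) = 0 := by
        funext y
        rw [eval_leaf', if_neg (by decide)]
        rfl
      rw [this]
      exact Submodule.zero_mem _
  | node i a b iha ihb =>
    intro E f hf
    have ha := US_mono ρ (show E + a.depth ≤ E + max a.depth b.depth from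
      Nat.add_le_add_left (le_max_left _ _) _) (iha hf)
    have hb := US_mono ρ (show E + b.depth ≤ E + max a.depth b.depth from
      Nat.add_le_add_left (le_max_right _ _) _) (ihb hf)
    have h := US_split ρ hb ha i
    have e : (fun y : Fin n → ZMod 2 =>
        if (Pool.Agent.TH163.AC3.Tree.node i a b).eval (bits2 y) = true then f y else 0) =
        fun y => if bits2 y i = true then (if b.eval (bits2 y) = true then f y else 0)
          else (if a.eval (bits2 y) = true then f y else 0) := by
      funext y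
      rw [eval_node']
      by_cases hy : bits2 y i = true
      · rw [if_pos hy, if_pos hy]
      · rw [if_neg hy, if_neg hy]
    rw [e, depth_node', ← Nat.add_assoc]
    exact h

/-- the multiples of `f` by the indicator of `g` -/
def cut (g : (Fin n → Bool) → Bool) (f : (Fin n → ZMod 2) → K) : (Fin n → ZMod 2) → K :=
  fun y => if g (bits2 y) = true then f y else 0

/-- the inductive statement -/
def CutP (K : Type) [Field K] (ρ : Restr (Fin n)) (g : (Fin n → Bool) → Bool) (k : ℕ) (σ : Restr (Fin n)) : Prop :=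
  ∀ (E : ℕ) (f : (Fin n → ZMod 2) → K), f ∈ US K ρ E → (∀ y, f y ≠ 0 → InC σ (bits2 y)) →
    cut g f ∈ US K ρ (E + k)

theorem cut_leaf (ρ : Restr (Fin n)) {g : (Fin n → Bool) → Bool} {ℓ : ℕ} (t : ℕ)
    {σ : Restr (Fin n)} (hσ : HasDT ℓ (rs g σ)) : CutP K ρ g (t + ℓ) σ := by
  intro E f hf hsupp
  obtain ⟨T, hT, hTe⟩ := hσ
  have h1 := US_mono ρ (show E + T.depth ≤ E + (t + ℓ) by omega) (US_tree ρ T hf)
  have e : (fun y : Fin n → ZMod 2 => if T.eval (bits2 y) = true then f y else 0) = cut g f := by
    funext y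
    show (if T.eval (bits2 y) = true then f y else 0) = if g (bits2 y) = true then f y else 0
    by_cases hfy : f y = 0
    · rw [hfy, ite_self, ite_self]
    · have hC := hsupp y hfy
      have h2 : ov σ (bits2 y) = bits2 y := by
        funext i
        unfold ov
        cases hi : σ i with
        | none => rfl
        | some b => exact (hC i b hi).symm
      have h3 := hTe (bits2 y)
      unfold rs at h3
      rw [h2] at h3
      rw [h3]
  rw [← e]
  exact h1

/-- the part of a function where a bit is `b` -/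
def part (i : Fin n) (b : Bool) (f : (Fin n → ZMod 2) → K) : (Fin n → ZMod 2) → K :=
  fun y => if bits2 y i = b then f y else 0

theorem part_mem (ρ : Restr (Fin n)) {E : ℕ} {f : (Fin n → ZMod 2) → K} (hf : f ∈ US K ρ E)
    (i : Fin n) (b : Bool) : part i b f ∈ US K ρ (E + 1) := by
  have h0 : (fun _ => 0 : (Fin n → ZMod 2) → K) ∈ US K ρ E := Submodule.zero_mem _
  cases b with
  | true => exact US_split ρ hf h0 i
  | false =>
    have h1 := US_split ρ h0 hf i
    have e : (fun y : Fin n → ZMod 2 => if bits2 y i = true then (0 : K)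
        else f y) = part i false f := by
      funext y
      show (if bits2 y i = true then (0 : K) else f y) = if bits2 y i = false then f y else 0
      cases bits2 y i
      · rw [if_neg (by decide), if_pos rfl]
      · rw [if_pos rfl, if_neg (by decide)]
    rw [← e]
    exact h1

theorem part_supp {σ : Restr (Fin n)} {i : Fin n} {b : Bool} {f : (Fin n → ZMod 2) → K}
    (hsupp : ∀ y, f y ≠ 0 → InC σ (bits2 y)) :
    ∀ y, part i b f y ≠ 0 → InC (update σ i (some b)) (bits2 y) := by
  intro y hy
  unfold part at hy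
  by_cases hb : bits2 y i = b
  · rw [if_pos hb] at hy
    have hC := hsupp y hy
    intro j c hj
    by_cases hji : j = i
    · rw [hji] at hj ⊢
      rw [update_self] at hj
      rw [hb]
      exact Option.some.inj hj
    · rw [update_of_ne hji] at hj
      exact hC j c hj
  · rw [if_neg hb] at hy
    exact absurd rfl hy

theorem cut_split (g : (Fin n → Bool) → Bool) (i : Fin n) (f : (Fin n → ZMod 2) → K) :
    cut g f = cut g (part i true f) + cut g (part i false f) := by
  funext y
  rw [Pi.add_apply]
  show (if g (bits2 y) = true then f y else 0) =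
    (if g (bits2 y) = true then (if bits2 y i = true then f y else 0) else 0) +
      (if g (bits2 y) = true then (if bits2 y i = false then f y else 0) else 0)
  by_cases hg : g (bits2 y) = true
  · rw [if_pos hg, if_pos hg, if_pos hg]
    cases bits2 y i
    · rw [if_neg (by decide), if_pos rfl, zero_add]
    · rw [if_pos rfl, if_neg (by decide), add_zero]
  · rw [if_neg hg, if_neg hg, if_neg hg, add_zero]

theorem cut_node (ρ : Restr (Fin n)) {g : (Fin n → Bool) → Bool} {k : ℕ} {σ : Restr (Fin n)}
    (i : Fin n) (h : ∀ b : Bool, CutP K ρ g k (update σ i (some b))) : CutP K ρ g (k + 1) σ := by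
  intro E f hf hsupp
  rw [cut_split g i f, show E + (k + 1) = E + 1 + k by omega]
  exact Submodule.add_mem _ (h true (E + 1) _ (part_mem ρ hf i true) (part_supp hsupp))
    (h false (E + 1) _ (part_mem ρ hf i false) (part_supp hsupp))

/-- common partial decision trees -/
theorem US_dt (ρ : Restr (Fin n)) {Q : Restr (Fin n) → Prop} {g : (Fin n → Bool) → Bool} {ℓ : ℕ}
    (hQ : ∀ σ, Q σ → HasDT ℓ (rs g σ)) {t : ℕ} {σ : Restr (Fin n)} (h : Dt Q t σ) :
    CutP K ρ g (t + ℓ) σ := by
  induction h with
  | leaf t σ hσ => exact cut_leaf ρ t (hQ σ hσ)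
  | node t σ i _ ih =>
    rw [show t + 1 + ℓ = t + ℓ + 1 by omega]
    exact cut_node ρ i ih

/-- the dimension -/
theorem finrank_US (K : Type) [Field K] (ρ : Restr (Fin n)) (D : ℕ) :
    (Module.finrank K (US K ρ D) : ℝ) * (1 / 2) ^ fr ρ ≤ 4 ^ D * (5 / 8) ^ fr ρ := by
  classical
  have h1 : Module.finrank K (US K ρ D) ≤ Fintype.card (MIdx ρ D) :=
    finrank_range_le_card _
  have h2 : Fintype.card (MIdx ρ D) = ((freeS ρ).powerset.filter fun s => s.card ≤ D).card := by
    rw [Fintype.card_subtype]
    congr 1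
    ext s
    simp [mem_powerset]
  have h3 : (((freeS ρ).powerset.filter fun s => s.card ≤ D).card : ℝ) ≤
      4 ^ D * (5 / 4) ^ fr ρ := by
    have e : ∑ s ∈ (freeS ρ).powerset, (1 / 4 : ℝ) ^ s.card = (5 / 4) ^ fr ρ := by
      have := Finset.sum_pow_mul_eq_add_pow (1 / 4 : ℝ) 1 (freeS ρ)
      simp only [one_pow, mul_one] at this
      rw [this, freeS_card]
      norm_num
    rw [← e, mul_sum, card_eq_sum_ones, Nat.cast_sum, sum_filter]
    apply sum_le_sum
    intro s _
    split_ifs with hs
    · rw [Nat.cast_one]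
      calc (1 : ℝ) = 4 ^ s.card * (1 / 4) ^ s.card := by rw [← mul_pow]; norm_num
        _ ≤ 4 ^ D * (1 / 4) ^ s.card := by
          apply mul_le_mul_of_nonneg_right _ (by positivity)
          exact pow_le_pow_right₀ (by norm_num) hs
    · positivity
  have h4 : (Module.finrank K (US K ρ D) : ℝ) ≤ 4 ^ D * (5 / 4) ^ fr ρ := by
    refine le_trans ?_ h3
    rw [← h2]
    exact_mod_cast h1
  calc (Module.finrank K (US K ρ D) : ℝ) * (1 / 2) ^ fr ρ ≤
        4 ^ D * (5 / 4) ^ fr ρ * (1 / 2) ^ fr ρ := mul_le_mul_of_nonneg_right h4 (by positivity)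
    _ = 4 ^ D * (5 / 8) ^ fr ρ := by rw [mul_assoc, ← mul_pow]; norm_num

/-- the average -/
theorem Ex_five (p : ℝ) : Ex (wq p) (fun ρ : Restr (Fin n) => (5 / 8 : ℝ) ^ fr ρ) =
    (1 - 3 / 8 * p) ^ n := by
  unfold Ex
  have h1 : ∀ ρ : Restr (Fin n), (∏ i, wq p (ρ i)) * (5 / 8 : ℝ) ^ fr ρ =
      ∏ i, (wq p (ρ i) * (if ρ i = none then (5 : ℝ) / 8 else 1)) := by
    intro ρ
    rw [prod_mul_distrib]
    congr 1
    unfold fr
    rw [← prod_const, prod_filter]
  rw [sum_congr rfl fun ρ _ => h1 ρ,
    sum_prod_restr (fun _ o => wq p o * (if o = none then (5 : ℝ) / 8 else 1))]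
  have h4 : ∑ o : Option Bool, wq p o * (if o = none then (5 : ℝ) / 8 else 1) = 1 - 3 / 8 * p := by
    rw [Fintype.sum_option, Fintype.sum_bool]
    simp [wq]
    ring
  rw [prod_congr rfl fun i _ => h4, prod_const, card_univ, Fintype.card_fin]

/-- the probability of a bad restriction -/
theorem bad_prob {w ℓ d t : ℕ} (C : Circuit w n) (hleak : C.leak = ∅) (hℓ : 1 ≤ ℓ) (hw : 1 ≤ w)
    (ht : 1 ≤ t) (hs : Nat.card C.Node ≤ 2 ^ ℓ) (hd : ∀ v, C.depth v ≤ d) (o : C.Node) :
    ∃ Q : Restr (Fin n) → Prop, (∀ σ, Q σ → HasDT ℓ (rs (C.val o) σ)) ∧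
      ∀ [DecidablePred fun ρ : Restr (Fin n) => Dt Q (d * t) ρ],
      Ex (wq (1 / (((2 ^ (d + 9) * (w * ℓ)) ^ d : ℕ) : ℝ))) (fun ρ : Restr (Fin n) =>
        if ¬ Dt Q (d * t) ρ then (1 : ℝ) else 0) ≤ (1 / 2) ^ (2 * t + d + 1) := by
  classical
  obtain ⟨g, hgv, hg⟩ := unleak C (fun _ => false)
  have hgv' : ∀ v x, g v x = C.val v x := fun v x =>
    hgv x (fun u hu => by rw [hleak] at hu; exact absurd hu (Finset.notMem_empty _)) v
  have hwl : 0 < w * ℓ := Nat.mul_pos hw hℓ
  obtain ⟨q, hq⟩ : ∃ q : ℝ, q = 1 / (2 ^ (d + 9) * ((w * ℓ : ℕ) : ℝ)) := ⟨_, rfl⟩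
  obtain ⟨q0, q1, q2, q3⟩ := level_num d t (w * ℓ) q hwl hq
  have hqd : q ^ d = 1 / (((2 ^ (d + 9) * (w * ℓ)) ^ d : ℕ) : ℝ) := by
    rw [hq, one_div, one_div, inv_pow]
    push_cast
    rfl
  have hlev := levels C g hg hℓ hw hs q0 q1 q2 (t := t) ht d
  refine ⟨fun ρ' => ∀ v, C.depth v ≤ d → HasDT ℓ (rs (g v) ρ'), fun σ hσ => ?_, ?_⟩
  · have := hσ o (hd o)
    have e : g o = C.val o := funext fun x => hgv' o x
    rwa [e] at this
  · intro _
    rw [← hqd]
    refine le_trans (le_of_eq ?_) (hlev.trans q3)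
    unfold Ex
    refine Finset.sum_congr rfl fun ρ _ => ?_
    congr 1
    beta_reduce
    by_cases hD : Dt (fun ρ' => ∀ v, C.depth v ≤ d → HasDT ℓ (rs (g v) ρ')) (d * t) ρ
    · rw [if_neg (not_not.2 hD), if_neg (not_not.2 hD)]
    · rw [if_pos hD, if_pos hD]

end

end Pool.Agent.Y347.CO
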