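import Pool.Agent.Y347.CO.LineSpace
import Pool.Agent.W856.Corner6
import Pool.Agent.W856.Corner4

set_option autoImplicit false
set_option maxHeartbeats 400000

/-!
# Corner-free sets with lines decided by polynomials in circuits of constant depth
-/

namespace Pool.Agent.Y347.CO

open Finset Function H568R2 Pool.Agent.TH163.AC3 Pool.Agent.Y603.MS

section
variable {n : ℕ} {K : Type} [Field K]

/-- the bits, as an equivalence -/
def bitsE (n : ℕ) : (Fin n → ZMod 2) ≃ (Fin n → Bool) where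
  toFun := bits2
  invFun w := fun i => if w i = true then 1 else 0
  left_inv y := by
    funext i
    show (if decide (y i = 1) = true then (1 : ZMod 2) else 0) = y i
    rcases zmod2_cases (y i) with h | h <;> rw [h] <;> decide
  right_inv w := by
    funext i
    show decide ((if w i = true then (1 : ZMod 2) else 0) = 1) = w i
    cases w i <;> decide

/-- the value of a polynomial in Boolean functions -/
noncomputable def pv {T : ℕ} (P : MvPolynomial (Fin T) K) (g : Fin T → (Fin n → Bool) → Bool)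
    (u : Fin n → Bool) : K :=
  MvPolynomial.eval (fun i => if g i u = true then (1 : K) else 0) P

/-- products -/
theorem US_prod (ρ : Restr (Fin n)) {T D : ℕ} (g : Fin T → (Fin n → Bool) → Bool)
    (hg : ∀ i, cut (g i) (chi K ρ ∅) ∈ US K ρ D) (S : Finset (Fin T)) :
    (chi K ρ ∅ * ∏ i ∈ S, fun y => if g i (bits2 y) = true then (1 : K) else 0) ∈
      US K ρ (S.card * D) := by
  classical
  induction S using Finset.induction_on with
  | empty =>
    rw [prod_empty, mul_one, card_empty, zero_mul]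
    exact chi_mem ρ (empty_subset _) (by simp)
  | insert i S hi ih =>
    rw [prod_insert hi, card_insert_of_notMem hi]
    have e : (chi K ρ ∅ * ((fun y => if g i (bits2 y) = true then (1 : K) else 0) *
        ∏ j ∈ S, fun y => if g j (bits2 y) = true then (1 : K) else 0)) =
        cut (g i) (chi K ρ ∅) *
          (chi K ρ ∅ * ∏ j ∈ S, fun y => if g j (bits2 y) = true then (1 : K) else 0) := by
      funext y
      have h1 : chi K ρ ∅ y * chi K ρ ∅ y = chi K ρ ∅ y := by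
        have := congrFun (chi_chi (K := K) ρ ∅ ∅) y
        rwa [empty_union] at this
      have h2 : cut (g i) (chi K ρ ∅) y =
          chi K ρ ∅ y * (if g i (bits2 y) = true then (1 : K) else 0) := by
        unfold cut
        split_ifs
        · rw [mul_one]
        · rw [mul_zero]
      simp only [Pi.mul_apply]
      rw [h2]
      linear_combination (-(if g i (bits2 y) = true then (1 : K) else 0) *
        (∏ j ∈ S, fun y => if g j (bits2 y) = true then (1 : K) else 0) y) * h1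
    rw [e, show (S.card + 1) * D = D + S.card * D by ring]
    exact US_mulf ρ (hg i) ih

/-- polynomials -/
theorem US_poly (ρ : Restr (Fin n)) {T D q : ℕ} (P : MvPolynomial (Fin T) K)
    (hP : P.totalDegree ≤ q) (g : Fin T → (Fin n → Bool) → Bool)
    (hg : ∀ i, cut (g i) (chi K ρ ∅) ∈ US K ρ D) :
    (chi K ρ ∅ * fun y => pv P g (bits2 y)) ∈ US K ρ (q * D) := by
  classical
  have e : (chi K ρ ∅ * fun y => pv P g (bits2 y)) =
      ∑ m ∈ P.support, P.coeff m •
        (chi K ρ ∅ * ∏ i ∈ m.support, fun y => if g i (bits2 y) = true then (1 : K) else 0) := by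
    funext y
    simp only [Pi.mul_apply, Finset.sum_apply, Pi.smul_apply, smul_eq_mul, Finset.prod_apply]
    unfold pv
    rw [MvPolynomial.eval_eq, mul_sum]
    apply sum_congr rfl
    intro m _
    have h1 : ∏ i ∈ m.support, (if g i (bits2 y) = true then (1 : K) else 0) ^ (m i) =
        ∏ i ∈ m.support, (if g i (bits2 y) = true then (1 : K) else 0) := by
      apply prod_congr rfl
      intro i hi
      split_ifs
      · rw [one_pow]
      · rw [zero_pow (Finsupp.mem_support_iff.1 hi)]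
    rw [h1]
    ring
  rw [e]
  refine Submodule.sum_mem _ fun m hm => Submodule.smul_mem _ _ ?_
  have h1 := MvPolynomial.le_totalDegree hm
  have h2 : m.support.card ≤ m.sum fun _ e => e := by
    rw [Finsupp.sum, card_eq_sum_ones]
    exact sum_le_sum fun i hi => Nat.one_le_iff_ne_zero.2 (Finsupp.mem_support_iff.1 hi)
  exact US_mono ρ (Nat.mul_le_mul_right D (h2.trans (h1.trans hP))) (US_prod ρ g hg m.support)

open Classical in
/-- the rank inequality on a subcube -/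
theorem rows_ineq {A : Finset ((Fin n → ZMod 2) × (Fin n → ZMod 2))}
    (hA : ∀ x y z : Fin n → ZMod 2, (x, y) ∈ A → (x, y + z) ∈ A → (x + z, y) ∈ A → z = 0)
    (f : (Fin n → ZMod 2) → (Fin n → Bool) → K)
    (hrow : ∀ x y, (x, y) ∈ A ↔ f x (bits2 y) ≠ 0)
    (ρ : Restr (Fin n)) (D : ℕ) (good : (Fin n → ZMod 2) → Prop)
    (hgood : ∀ x, good x → (chi K ρ ∅ * fun y => f x (bits2 y)) ∈ US K ρ D) :
    ∑ x, (if good x then (((univ.filter fun w => f x w ≠ 0).filter (InC ρ)).card : ℝ) else 0) ≤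
      2 ^ n * Module.finrank K (US K ρ D) := by
  let M : (Fin n → ZMod 2) → (Fin n → ZMod 2) → K := fun x =>
    if good x then (chi K ρ ∅ * fun y => f x (bits2 y)) else 0
  have hM : ∀ x, M x ∈ US K ρ D := by
    intro x
    show (if good x then (chi K ρ ∅ * fun y => f x (bits2 y)) else 0) ∈ US K ρ D
    by_cases hx : good x
    · rw [if_pos hx]
      exact hgood x hx
    · rw [if_neg hx]
      exact Submodule.zero_mem _
  have hval : ∀ x y, M x y ≠ 0 ↔ good x ∧ f x (bits2 y) ≠ 0 ∧ InC ρ (bits2 y) := by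
    intro x y
    show (if good x then (chi K ρ ∅ * fun y => f x (bits2 y)) else 0) y ≠ 0 ↔ _
    by_cases hx : good x
    · rw [if_pos hx]
      show (if InC ρ (bits2 y) then ∏ i ∈ (∅ : Finset (Fin n)), bt K (y i) else 0) *
        f x (bits2 y) ≠ (0 : K) ↔ _
      by_cases h2 : InC ρ (bits2 y)
      · rw [if_pos h2, prod_empty, one_mul]
        exact ⟨fun h => ⟨hx, h, h2⟩, fun h => h.2.1⟩
      · rw [if_neg h2, zero_mul]
        exact ⟨fun h => absurd rfl h, fun h => absurd h.2.2 h2⟩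
    · rw [if_neg hx]
      exact ⟨fun h => absurd rfl h, fun h => absurd h.1 hx⟩
  have key := Pool.Agent.W856.Corner.core_rank (K := K) A hA (US K ρ D) M hM
    (fun x y hxy => (hrow x y).2 ((hval x y).1 hxy).2.1)
  have hc : Fintype.card (Fin n → ZMod 2) = 2 ^ n := by
    rw [Fintype.card_pi, prod_const, card_univ, Fintype.card_fin, ZMod.card]
  rw [hc] at key
  have key' : ((∑ x, (univ.filter fun y => M x y ≠ 0).card : ℕ) : ℝ) ≤
      2 ^ n * Module.finrank K (US K ρ D) := by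
    exact_mod_cast key
  refine le_trans (le_of_eq ?_) key'
  rw [Nat.cast_sum]
  apply sum_congr rfl
  intro x _
  by_cases hx : good x
  · rw [if_pos hx]
    congr 1
    rw [← card_map (bitsE n).toEmbedding (s := univ.filter fun y => M x y ≠ 0)]
    congr 1
    ext u
    rw [mem_filter, mem_filter, mem_map_equiv, mem_filter, hval]
    have e : bits2 ((bitsE n).symm u) = u := (bitsE n).apply_symm_apply u
    rw [e]
    simp [hx]
  · rw [if_neg hx]
    have : (univ.filter fun y => M x y ≠ 0) = ∅ := by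
      apply filter_eq_empty_iff.2
      intro y _ h
      exact hx ((hval x y).1 h).1
    rw [this, card_empty, Nat.cast_zero]

/-- corner-free sets with rows decided by polynomials in circuits -/
theorem lines_main {w ℓ d t T q : ℕ} (hℓ : 1 ≤ ℓ) (hw : 1 ≤ w) (ht : 1 ≤ t)
    {A : Finset ((Fin n → ZMod 2) × (Fin n → ZMod 2))}
    (hA : ∀ x y z : Fin n → ZMod 2, (x, y) ∈ A → (x, y + z) ∈ A → (x + z, y) ∈ A → z = 0)
    (C : (Fin n → ZMod 2) → Fin T → Circuit w n) (o : ∀ x i, (C x i).Node)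
    (hleak : ∀ x i, (C x i).leak = ∅) (hs : ∀ x i, Nat.card (C x i).Node ≤ 2 ^ ℓ)
    (hd : ∀ x i v, (C x i).depth v ≤ d) (P : (Fin n → ZMod 2) → MvPolynomial (Fin T) K)
    (hP : ∀ x, (P x).totalDegree ≤ q)
    (hrow : ∀ x y, (x, y) ∈ A ↔ pv (P x) (fun i => (C x i).val (o x i)) (bits2 y) ≠ 0) :
    (A.card : ℝ) ≤ 4 ^ n * (4 ^ (q * (d * t + ℓ)) *
      (1 - 3 / 8 * (1 / (((2 ^ (d + 9) * (w * ℓ)) ^ d : ℕ) : ℝ))) ^ n +
        T * (1 / 2) ^ (2 * t + d + 1)) := by
  classical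
  have hbp := fun x i => bad_prob (C x i) (hleak x i) hℓ hw ht (hs x i) (hd x i) (o x i)
  choose Q hQ1 hQ2 using hbp
  have hK1 : (1 : ℝ) ≤ (((2 ^ (d + 9) * (w * ℓ)) ^ d : ℕ) : ℝ) := by
    have : 0 < w * ℓ := Nat.mul_pos hw hℓ
    exact_mod_cast Nat.one_le_iff_ne_zero.2 (by positivity)
  obtain ⟨p, hp⟩ : ∃ p : ℝ, p = 1 / (((2 ^ (d + 9) * (w * ℓ)) ^ d : ℕ) : ℝ) := ⟨_, rfl⟩
  rw [← hp]
  have hp0 : 0 ≤ p := by rw [hp]; positivity
  have hp1 : p ≤ 1 := by
    rw [hp, div_le_one (by linarith)]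
    exact hK1
  let f : (Fin n → ZMod 2) → (Fin n → Bool) → K := fun x =>
    pv (P x) (fun i => (C x i).val (o x i))
  let B : (Fin n → ZMod 2) → Finset (Fin n → Bool) := fun x => univ.filter fun u => f x u ≠ 0
  have hcard : (A.card : ℝ) = ∑ x, ((B x).card : ℝ) := by
    have h1 : A.card = ∑ x, (A.filter fun q => q.1 = x).card :=
      card_eq_sum_card_fiberwise (fun _ _ => mem_univ _)
    rw [h1, Nat.cast_sum]
    apply sum_congr rfl
    intro x _
    congr 1
    refine card_bij' (fun q _ => bits2 q.2) (fun u _ => (x, (bitsE n).symm u)) ?_ ?_ ?_ ?_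
    · intro q hq
      rw [mem_filter] at hq
      obtain ⟨h2, rfl⟩ := hq
      exact mem_filter.2 ⟨mem_univ _, (hrow q.1 q.2).1 h2⟩
    · intro u hu
      have hu' := (mem_filter.1 hu).2
      rw [mem_filter]
      refine ⟨(hrow _ _).2 ?_, rfl⟩
      have e : bits2 ((bitsE n).symm u) = u := (bitsE n).apply_symm_apply u
      rw [e]
      exact hu'
    · intro q hq
      rw [mem_filter] at hq
      obtain ⟨-, rfl⟩ := hq
      exact Prod.ext rfl ((bitsE n).symm_apply_apply q.2)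
    · intro u _
      exact (bitsE n).apply_symm_apply u
  obtain ⟨good, hgood⟩ : ∃ good : Restr (Fin n) → (Fin n → ZMod 2) → Prop,
      ∀ ρ x, good ρ x ↔ ∀ i, Dt (Q x i) (d * t) ρ :=
    ⟨fun ρ x => ∀ i, Dt (Q x i) (d * t) ρ, fun _ _ => Iff.rfl⟩
  -- the estimate for a restriction
  have hpt : ∀ ρ : Restr (Fin n), ∑ x, (((B x).filter (InC ρ)).card : ℝ) * (1 / 2) ^ fr ρ ≤
      2 ^ n * 4 ^ (q * (d * t + ℓ)) * (5 / 8) ^ fr ρ +
        ∑ x, ∑ i, (if ¬ Dt (Q x i) (d * t) ρ then (1 : ℝ) else 0) := by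
    intro ρ
    have hrows := rows_ineq hA f hrow ρ (q * (d * t + ℓ)) (good ρ) (fun x hx => by
      refine US_poly ρ (P x) (hP x) _ fun i => ?_
      have h1 := US_dt ρ (hQ1 x i) ((hgood ρ x).1 hx i) 0 (chi K ρ ∅) (chi_mem ρ (empty_subset _) (by simp)) (by
        intro y hy
        unfold chi at hy
        by_contra hcon
        rw [if_neg hcon] at hy
        exact hy rfl)
      rwa [zero_add] at h1)
    have hfin := finrank_US K ρ (q * (d * t + ℓ))
    have hh0 : (0 : ℝ) < (1 / 2) ^ fr ρ := by positivity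
    have hper : ∀ x, (((B x).filter (InC ρ)).card : ℝ) * (1 / 2) ^ fr ρ ≤
        (if good ρ x then (((B x).filter (InC ρ)).card : ℝ) else 0) * (1 / 2) ^ fr ρ +
          ∑ i, (if ¬ Dt (Q x i) (d * t) ρ then (1 : ℝ) else 0) := by
      intro x
      have hnn : ∀ i ∈ (univ : Finset (Fin T)),
          (0 : ℝ) ≤ (if ¬ Dt (Q x i) (d * t) ρ then (1 : ℝ) else 0) := fun i _ => by
        split_ifs <;> norm_num
      by_cases hx : good ρ x
      · rw [if_pos hx]
        have := sum_nonneg hnn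
        linarith
      · rw [if_neg hx, zero_mul, zero_add]
        obtain ⟨i, hi⟩ : ∃ i, ¬ Dt (Q x i) (d * t) ρ :=
          not_forall.1 fun h => hx ((hgood ρ x).2 h)
        have h1 := single_le_sum hnn (mem_univ i)
        rw [if_pos hi] at h1
        have h2 : ((B x).filter (InC ρ)).card ≤ 2 ^ fr ρ := by
          rw [← card_inC]
          exact card_le_card (filter_subset_filter _ (subset_univ _))
        have h3 : (((B x).filter (InC ρ)).card : ℝ) ≤ 2 ^ fr ρ := by exact_mod_cast h2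
        refine le_trans ?_ h1
        calc _ ≤ (2 : ℝ) ^ fr ρ * (1 / 2) ^ fr ρ := mul_le_mul_of_nonneg_right h3 hh0.le
          _ = 1 := by rw [← mul_pow]; norm_num
    refine (sum_le_sum fun x _ => hper x).trans ?_
    rw [sum_add_distrib, ← sum_mul]
    have h4 : (∑ x, (if good ρ x then (((B x).filter (InC ρ)).card : ℝ) else 0)) *
        (1 / 2) ^ fr ρ ≤ 2 ^ n * 4 ^ (q * (d * t + ℓ)) * (5 / 8) ^ fr ρ := by
      calc _ ≤ (2 ^ n * Module.finrank K (US K ρ (q * (d * t + ℓ))) : ℝ) * (1 / 2) ^ fr ρ :=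
            mul_le_mul_of_nonneg_right hrows hh0.le
        _ = 2 ^ n * ((Module.finrank K (US K ρ (q * (d * t + ℓ))) : ℝ) * (1 / 2) ^ fr ρ) := by ring
        _ ≤ 2 ^ n * (4 ^ (q * (d * t + ℓ)) * (5 / 8) ^ fr ρ) :=
            mul_le_mul_of_nonneg_left hfin (by positivity)
        _ = _ := by ring
    linarith
  have hEx := Ex_mono (wq_nonneg hp0 hp1) hpt
  have e1 : Ex (wq p) (fun ρ : Restr (Fin n) =>
      ∑ x, (((B x).filter (InC ρ)).card : ℝ) * (1 / 2) ^ fr ρ) =
      ∑ x, ((B x).card : ℝ) * (1 / 2) ^ n := by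
    rw [Ex_sum]
    apply sum_congr rfl
    intro x _
    exact dens_avg (p := p) (B x)
  rw [e1, Ex_add, Ex_smul, Ex_five, Ex_sum, ← sum_mul, ← hcard] at hEx
  have h5 : ∑ x : Fin n → ZMod 2, Ex (wq p) (fun ρ : Restr (Fin n) =>
      ∑ i, if ¬ Dt (Q x i) (d * t) ρ then (1 : ℝ) else 0) ≤
      2 ^ n * (T * (1 / 2) ^ (2 * t + d + 1)) := by
    have h6 : ∀ x, Ex (wq p) (fun ρ : Restr (Fin n) =>
        ∑ i, if ¬ Dt (Q x i) (d * t) ρ then (1 : ℝ) else 0) ≤ T * (1 / 2) ^ (2 * t + d + 1) := by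
      intro x
      rw [Ex_sum]
      have h7 : ∀ i ∈ (univ : Finset (Fin T)), Ex (wq p) (fun ρ : Restr (Fin n) =>
          if ¬ Dt (Q x i) (d * t) ρ then (1 : ℝ) else 0) ≤ (1 / 2) ^ (2 * t + d + 1) := by
        intro i _
        have := hQ2 x i
        rw [← hp] at this
        exact this
      refine (sum_le_sum h7).trans (le_of_eq ?_)
      rw [sum_const, card_univ, Fintype.card_fin, nsmul_eq_mul]
    refine (sum_le_sum fun x _ => h6 x).trans (le_of_eq ?_)
    rw [sum_const, card_univ, Fintype.card_pi, prod_const, card_univ, Fintype.card_fin, ZMod.card,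
      nsmul_eq_mul]
    push_cast
    rfl
  have h7 : (A.card : ℝ) * (1 / 2) ^ n ≤ 2 ^ n * (4 ^ (q * (d * t + ℓ)) * (1 - 3 / 8 * p) ^ n +
      T * (1 / 2) ^ (2 * t + d + 1)) := by
    linarith
  have e2 : (2 : ℝ) ^ n * (1 / 2) ^ n = 1 := by rw [← mul_pow]; norm_num
  have e3 : (2 : ℝ) ^ n * 2 ^ n = 4 ^ n := by rw [← mul_pow]; norm_num
  calc (A.card : ℝ) = 2 ^ n * ((A.card : ℝ) * (1 / 2) ^ n) := by
        rw [mul_comm (A.card : ℝ), ← mul_assoc, e2, one_mul]
    _ ≤ 2 ^ n * (2 ^ n * (4 ^ (q * (d * t + ℓ)) * (1 - 3 / 8 * p) ^ n +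
      T * (1 / 2) ^ (2 * t + d + 1))) := mul_le_mul_of_nonneg_left h7 (by positivity)
    _ = _ := by rw [← mul_assoc, e3]

/-- the numerical form -/
theorem lines_num (n d T q ℓ N : ℕ) (hN : 1 ≤ N) (a : ℝ) (ha : a ≤ 4 ^ n)
    (h : ∀ t : ℕ, 1 ≤ t → a ≤ 4 ^ n * (4 ^ (q * (d * t + ℓ)) *
      (1 - 3 / 8 * (1 / (N : ℝ))) ^ n + T * (1 / 2) ^ (2 * t + d + 1))) :
    a ≤ (4 ^ (q * ℓ) + T) * 4 ^ (n + 1) *
      (2 : ℝ) ^ (-((n : ℝ) / (2 * (q * d + 1) * N))) := by
  have hN' : (1 : ℝ) ≤ N := by exact_mod_cast hN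
  set R : ℝ := (q * d + 1) * N with hR
  have hR1 : 1 ≤ R := by
    rw [hR]
    have : (0 : ℝ) ≤ q * d := by positivity
    nlinarith
  have hT0 : (0 : ℝ) ≤ T := Nat.cast_nonneg _
  have h4n : (0 : ℝ) < 4 ^ n := by positivity
  have hq1 : (1 : ℝ) ≤ 4 ^ (q * ℓ) := one_le_pow₀ (by norm_num)
  set t := ⌊(n : ℝ) / (4 * R)⌋₊ with ht
  have htn : (t : ℝ) ≤ n / (4 * R) := Nat.floor_le (by positivity)
  have htn' : (n : ℝ) / (4 * R) < t + 1 := Nat.lt_floor_add_one _
  have e1 : (n : ℝ) / (2 * (q * d + 1) * N) = 2 * (n / (4 * R)) := by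
    rw [hR]
    field_simp
    ring
  have h2pow : (1 / 4 : ℝ) ^ t ≤ 4 * (2 : ℝ) ^ (-((n : ℝ) / (2 * (q * d + 1) * N))) := by
    have e2 : (1 / 4 : ℝ) ^ t = (2 : ℝ) ^ (-(2 * (t : ℝ))) := by
      rw [Real.rpow_neg (by norm_num)]
      have : 2 * (t : ℝ) = ((2 * t : ℕ) : ℝ) := by push_cast; ring
      rw [this, Real.rpow_natCast, pow_mul, ← inv_pow]
      norm_num
    have e3 : (4 : ℝ) * (2 : ℝ) ^ (-((n : ℝ) / (2 * (q * d + 1) * N))) =
        (2 : ℝ) ^ (2 - (n : ℝ) / (2 * (q * d + 1) * N)) := by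
      rw [sub_eq_add_neg, Real.rpow_add (by norm_num)]
      norm_num
    rw [e2, e3, e1]
    apply Real.rpow_le_rpow_of_exponent_le (by norm_num)
    linarith
  rcases Nat.eq_zero_or_pos t with h0 | hpos
  · rw [h0, pow_zero] at h2pow
    refine ha.trans ?_
    have h3 : (1 : ℝ) ≤ (4 ^ (q * ℓ) + T) *
        (4 * (2 : ℝ) ^ (-((n : ℝ) / (2 * (q * d + 1) * N)))) := by
      nlinarith
    calc (4 : ℝ) ^ n ≤ 4 ^ n * ((4 ^ (q * ℓ) + T) *
        (4 * (2 : ℝ) ^ (-((n : ℝ) / (2 * (q * d + 1) * N))))) := by nlinarith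
      _ = _ := by rw [pow_succ]; ring
  have hm := h t hpos
  have hexp : (1 - 3 / 8 * (1 / (N : ℝ))) ^ n ≤ Real.exp (-(3 / 8 * (n / N))) := by
    have h0 : 0 ≤ 1 - 3 / 8 * (1 / (N : ℝ)) := by
      have : 1 / (N : ℝ) ≤ 1 := by rw [div_le_one (by linarith)]; exact hN'
      linarith
    have h1 : 1 - 3 / 8 * (1 / (N : ℝ)) ≤ Real.exp (-(3 / 8 * (1 / (N : ℝ)))) := by
      have := Real.add_one_le_exp (-(3 / 8 * (1 / (N : ℝ))))
      linarith
    calc _ ≤ Real.exp (-(3 / 8 * (1 / (N : ℝ)))) ^ n := pow_le_pow_left₀ h0 h1 n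
      _ = _ := by
        rw [← Real.exp_nat_mul]
        congr 1
        field_simp
  have hlog : (4 : ℝ) ^ ((q * d + 1) * t) ≤ Real.exp (3 / 8 * (n / N)) := by
    have hl2 : Real.log 2 < 0.6931471808 := Real.log_two_lt_d9
    have e4 : (4 : ℝ) = Real.exp (2 * Real.log 2) := by
      rw [mul_comm, Real.exp_mul, Real.exp_log (by norm_num)]
      norm_num
    rw [e4, ← Real.exp_nat_mul]
    apply Real.exp_le_exp.2
    push_cast
    have h5 : ((q : ℝ) * d + 1) * t ≤ n / (4 * N) := by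
      have hpos' : (0 : ℝ) ≤ q * d + 1 := by positivity
      calc ((q : ℝ) * d + 1) * t ≤ (q * d + 1) * (n / (4 * R)) :=
            mul_le_mul_of_nonneg_left htn hpos'
        _ = n / (4 * N) := by
            rw [hR]
            field_simp
    have h6 : (0 : ℝ) ≤ n / (4 * N) := by positivity
    have h7 : (3 : ℝ) / 8 * (n / N) = 3 / 2 * (n / (4 * N)) := by field_simp; ring
    rw [h7]
    have hlog0 : 0 < Real.log 2 := Real.log_pos (by norm_num)
    calc ((q : ℝ) * d + 1) * t * (2 * Real.log 2) ≤ n / (4 * N) * (2 * Real.log 2) :=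
          mul_le_mul_of_nonneg_right h5 (by positivity)
      _ ≤ n / (4 * N) * (3 / 2) := mul_le_mul_of_nonneg_left (by linarith) h6
      _ = _ := by ring
  have h8 : (4 : ℝ) ^ (q * (d * t + ℓ)) * (1 - 3 / 8 * (1 / (N : ℝ))) ^ n ≤
      4 ^ (q * ℓ) * (1 / 4) ^ t := by
    have e5 : (4 : ℝ) ^ (q * (d * t + ℓ)) = 4 ^ (q * ℓ) * (1 / 4) ^ t * 4 ^ ((q * d + 1) * t) := by
      have e6 : (4 : ℝ) ^ (q * (d * t + ℓ)) * 4 ^ t = 4 ^ (q * ℓ) * 4 ^ ((q * d + 1) * t) := by
        rw [← pow_add, ← pow_add]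
        congr 1
        ring
      have e7 : (1 / 4 : ℝ) ^ t * 4 ^ t = 1 := by rw [← mul_pow]; norm_num
      calc (4 : ℝ) ^ (q * (d * t + ℓ)) = 4 ^ (q * (d * t + ℓ)) * ((1 / 4) ^ t * 4 ^ t) := by
            rw [e7, mul_one]
        _ = (4 ^ (q * (d * t + ℓ)) * 4 ^ t) * (1 / 4) ^ t := by ring
        _ = _ := by rw [e6]; ring
    rw [e5]
    have h9 : (4 : ℝ) ^ ((q * d + 1) * t) * (1 - 3 / 8 * (1 / (N : ℝ))) ^ n ≤ 1 := by
      calc _ ≤ Real.exp (3 / 8 * (n / N)) * Real.exp (-(3 / 8 * (n / N))) :=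
            mul_le_mul hlog hexp (by
              apply pow_nonneg
              have : 1 / (N : ℝ) ≤ 1 := by rw [div_le_one (by linarith)]; exact hN'
              linarith) (Real.exp_pos _).le
        _ = 1 := by rw [← Real.exp_add]; simp
    have h10 : (0 : ℝ) ≤ 4 ^ (q * ℓ) * (1 / 4) ^ t := by positivity
    calc _ = 4 ^ (q * ℓ) * (1 / 4) ^ t *
          (4 ^ ((q * d + 1) * t) * (1 - 3 / 8 * (1 / (N : ℝ))) ^ n) := by ring
      _ ≤ 4 ^ (q * ℓ) * (1 / 4) ^ t * 1 := mul_le_mul_of_nonneg_left h9 h10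
      _ = _ := by ring
  have h11 : ((1 : ℝ) / 2) ^ (2 * t + d + 1) ≤ (1 / 4) ^ t := by
    have : (1 / 4 : ℝ) ^ t = (1 / 2) ^ (2 * t) := by
      rw [pow_mul]
      norm_num
    rw [this]
    exact pow_le_pow_of_le_one (by norm_num) (by norm_num) (by omega)
  have h12 : (T : ℝ) * (1 / 2) ^ (2 * t + d + 1) ≤ T * (1 / 4) ^ t :=
    mul_le_mul_of_nonneg_left h11 hT0
  calc a ≤ 4 ^ n * (4 ^ (q * ℓ) * (1 / 4) ^ t + T * (1 / 4) ^ t) :=
        hm.trans (mul_le_mul_of_nonneg_left (add_le_add h8 h12) h4n.le)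
    _ = 4 ^ n * (4 ^ (q * ℓ) + T) * (1 / 4) ^ t := by ring
    _ ≤ 4 ^ n * (4 ^ (q * ℓ) + T) * (4 * (2 : ℝ) ^ (-((n : ℝ) / (2 * (q * d + 1) * N)))) :=
        mul_le_mul_of_nonneg_left h2pow (by positivity)
    _ = _ := by rw [pow_succ]; ring

end

end Pool.Agent.Y347.CO
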