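import Mathlib

set_option autoImplicit false

/-!
# Families defined by constraints on few coordinates

A family `A` of words is `r`-local if it is defined by constraints each of which involves at most
`r` coordinates. The bounds come from the satisfiability coding lemma of Paturi, Pudlák and Zane:
the words are encoded in a random order of the coordinates.
-/

namespace Pool.Agent.Y347.CO

open Finset Function

section
variable {ι : Type} [Fintype ι] [DecidableEq ι] {D : ι → Type} [∀ i, Fintype (D i)]
  [∀ i, DecidableEq (D i)]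

/-- `A` is determined by its projections to `r` coordinates, that is, `A` is defined by
constraints on at most `r` coordinates -/
def IsLocal (r : ℕ) (A : Finset (∀ i, D i)) : Prop :=
  ∀ w : ∀ i, D i, (∀ J : Finset ι, J.card ≤ r → ∃ a ∈ A, ∀ j ∈ J, a j = w j) → w ∈ A

open Classical in
/-- the letters which may follow -/
noncomputable def allowed (A : Finset (∀ i, D i)) (π : ι → ℕ) (a : ∀ i, D i) (i : ι) :
    Finset (D i) :=
  univ.filter fun d => ∃ b ∈ A, b i = d ∧ ∀ j, π j < π i → b j = a j

theorem mem_allowed {A : Finset (∀ i, D i)} {π : ι → ℕ} {a : ∀ i, D i} {i : ι} {d : D i} :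
    d ∈ allowed A π a i ↔ ∃ b ∈ A, b i = d ∧ ∀ j, π j < π i → b j = a j := by
  classical
  simp [allowed]

theorem self_mem_allowed {A : Finset (∀ i, D i)} {π : ι → ℕ} {a : ∀ i, D i} (ha : a ∈ A) (i : ι) :
    a i ∈ allowed A π a i :=
  mem_allowed.2 ⟨a, ha, rfl, fun _ _ => rfl⟩

theorem allowed_congr {A : Finset (∀ i, D i)} {π : ι → ℕ} {a b : ∀ i, D i} {i : ι}
    (h : ∀ j, π j < π i → a j = b j) : allowed A π a i = allowed A π b i := by
  ext d
  rw [mem_allowed, mem_allowed]
  constructor
  · rintro ⟨e, he, h1, h2⟩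
    exact ⟨e, he, h1, fun j hj => (h2 j hj).trans (h j hj)⟩
  · rintro ⟨e, he, h1, h2⟩
    exact ⟨e, he, h1, fun j hj => (h2 j hj).trans (h j hj).symm⟩

theorem kraft_aux {A : Finset (∀ i, D i)} {π : ι → ℕ} (hπ : Injective π) {M : ℕ}
    (hM : ∀ i, π i < M) : ∀ t k : ℕ, k + t = M → ∀ a₀ ∈ A,
      ∑ a ∈ A.filter (fun a => ∀ j, π j < k → a j = a₀ j),
        ∏ i ∈ univ.filter (fun i => k ≤ π i), ((allowed A π a i).card : ℝ)⁻¹ ≤ 1 := by
  intro t
  induction t with
  | zero =>
    intro k hk a₀ ha₀
    have h1 : A.filter (fun a => ∀ j, π j < k → a j = a₀ j) = {a₀} := by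
      ext a
      rw [mem_filter, mem_singleton]
      constructor
      · rintro ⟨-, h⟩
        funext j
        exact h j (by have := hM j; omega)
      · rintro rfl
        exact ⟨ha₀, fun _ _ => rfl⟩
    have h2 : univ.filter (fun i => k ≤ π i) = (∅ : Finset ι) := by
      rw [filter_eq_empty_iff]
      intro i _
      have := hM i
      omega
    rw [h1, h2, sum_singleton, prod_empty]
  | succ t ih =>
    intro k hk a₀ ha₀
    by_cases hex : ∃ i, π i = k
    · obtain ⟨i₀, hi₀⟩ := hex
      have hsplit : univ.filter (fun i => k ≤ π i) =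
          insert i₀ (univ.filter (fun i => k + 1 ≤ π i)) := by
        ext i
        simp only [mem_filter, mem_univ, true_and, mem_insert]
        constructor
        · intro h
          rcases Nat.eq_or_lt_of_le h with h1 | h1
          · left; exact hπ (by rw [← h1, hi₀])
          · right; exact h1
        · rintro (rfl | h)
          · omega
          · omega
      have hni : i₀ ∉ univ.filter (fun i => k + 1 ≤ π i) := by
        simp only [mem_filter, mem_univ, true_and]
        omega
      set L := allowed A π a₀ i₀ with hL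
      have hLpos : 0 < L.card := card_pos.2 ⟨_, self_mem_allowed ha₀ i₀⟩
      have hall : ∀ a ∈ A.filter (fun a => ∀ j, π j < k → a j = a₀ j),
          allowed A π a i₀ = L := by
        intro a ha
        rw [mem_filter] at ha
        exact allowed_congr fun j hj => ha.2 j (by omega)
      have hmaps : ∀ a ∈ A.filter (fun a => ∀ j, π j < k → a j = a₀ j), a i₀ ∈ L := by
        intro a ha
        rw [← hall a ha]
        exact self_mem_allowed (mem_filter.1 ha).1 i₀
      rw [← sum_fiberwise_of_maps_to hmaps]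
      have hin : ∀ d ∈ L, ∑ a ∈ (A.filter (fun a => ∀ j, π j < k → a j = a₀ j)).filter
          (fun a => a i₀ = d), ∏ i ∈ univ.filter (fun i => k ≤ π i),
            ((allowed A π a i).card : ℝ)⁻¹ ≤ (L.card : ℝ)⁻¹ := by
        intro d hd
        obtain ⟨b, hb, hbd, hbj⟩ := mem_allowed.1 hd
        have hset : (A.filter (fun a => ∀ j, π j < k → a j = a₀ j)).filter (fun a => a i₀ = d) =
            A.filter (fun a => ∀ j, π j < k + 1 → a j = b j) := by
          ext a
          simp only [mem_filter]
          constructor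
          · rintro ⟨⟨h1, h2⟩, h3⟩
            refine ⟨h1, fun j hj => ?_⟩
            rcases Nat.lt_or_ge (π j) k with h4 | h4
            · rw [h2 j h4, hbj j (by omega)]
            · have : j = i₀ := hπ (by omega)
              subst this
              rw [h3, hbd]
          · rintro ⟨h1, h2⟩
            refine ⟨⟨h1, fun j hj => ?_⟩, ?_⟩
            · rw [h2 j (by omega), hbj j (by omega)]
            · rw [h2 i₀ (by omega), hbd]
        have h5 := ih (k + 1) (by omega) b hb
        rw [← hset] at h5
        have h6 : ∀ a ∈ (A.filter (fun a => ∀ j, π j < k → a j = a₀ j)).filter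
            (fun a => a i₀ = d), ∏ i ∈ univ.filter (fun i => k ≤ π i),
              ((allowed A π a i).card : ℝ)⁻¹ = (L.card : ℝ)⁻¹ *
                ∏ i ∈ univ.filter (fun i => k + 1 ≤ π i), ((allowed A π a i).card : ℝ)⁻¹ := by
          intro a ha
          rw [hsplit, prod_insert hni, hall a (mem_filter.1 ha).1]
        rw [sum_congr rfl h6, ← mul_sum]
        exact mul_le_of_le_one_right (inv_nonneg.2 (Nat.cast_nonneg _)) h5
      refine (sum_le_sum hin).trans ?_
      rw [sum_const, nsmul_eq_mul, mul_inv_cancel₀]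
      exact_mod_cast hLpos.ne'
    · push Not at hex
      have h1 : ∀ i, (k ≤ π i ↔ k + 1 ≤ π i) := by
        intro i
        have := hex i
        omega
      have h2 : ∀ a b : ∀ i, D i, (∀ j, π j < k → a j = b j) ↔ (∀ j, π j < k + 1 → a j = b j) := by
        intro a b
        constructor
        · intro h j hj
          exact h j (by have := hex j; omega)
        · intro h j hj
          exact h j (by omega)
      simp only [h1, h2]
      exact ih (k + 1) (by omega) a₀ ha₀

/-- Kraft's inequality -/
theorem kraft (A : Finset (∀ i, D i)) {π : ι → ℕ} (hπ : Injective π) {M : ℕ}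
    (hM : ∀ i, π i < M) : ∑ a ∈ A, ∏ i, ((allowed A π a i).card : ℝ)⁻¹ ≤ 1 := by
  rcases A.eq_empty_or_nonempty with rfl | ⟨a₀, ha₀⟩
  · simp
  have := kraft_aux hπ hM M 0 (by omega) a₀ ha₀
  simpa using this

/-- the orders in which `i` is the last element of `S` -/
def lastOf (S : Finset ι) (i : ι) : Finset (ι ≃ Fin (Fintype.card ι)) :=
  univ.filter fun π => ∀ j ∈ S, π j ≤ π i

theorem card_lastOf (S : Finset ι) {i : ι} (hi : i ∈ S) :
    S.card * (lastOf S i).card = Fintype.card (ι ≃ Fin (Fintype.card ι)) := by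
  have h1 : ∀ j ∈ S, (lastOf S j).card = (lastOf S i).card := by
    intro j hj
    refine card_bij' (fun π _ => (Equiv.swap i j).trans π) (fun π _ => (Equiv.swap i j).trans π)
      ?_ ?_ ?_ ?_
    · intro π hπ
      simp only [lastOf, mem_filter, mem_univ, true_and] at hπ ⊢
      intro l hl
      simp only [Equiv.trans_apply, Equiv.swap_apply_left]
      apply hπ
      rcases eq_or_ne l i with rfl | h
      · rw [Equiv.swap_apply_left]; exact hj
      · rcases eq_or_ne l j with rfl | h'
        · rw [Equiv.swap_apply_right]; exact hi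
        · rw [Equiv.swap_apply_of_ne_of_ne h h']; exact hl
    · intro π hπ
      simp only [lastOf, mem_filter, mem_univ, true_and] at hπ ⊢
      intro l hl
      simp only [Equiv.trans_apply, Equiv.swap_apply_right]
      apply hπ
      rcases eq_or_ne l i with rfl | h
      · rw [Equiv.swap_apply_left]; exact hj
      · rcases eq_or_ne l j with rfl | h'
        · rw [Equiv.swap_apply_right]; exact hi
        · rw [Equiv.swap_apply_of_ne_of_ne h h']; exact hl
    · intro π _
      ext l
      simp
    · intro π _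
      ext l
      simp
  have h2 : ∑ j ∈ S, (lastOf S j).card = Fintype.card (ι ≃ Fin (Fintype.card ι)) := by
    have h3 : ∀ j ∈ S, (lastOf S j).card =
        ∑ π : ι ≃ Fin (Fintype.card ι), if (∀ l ∈ S, π l ≤ π j) then 1 else 0 := by
      intro j _
      rw [lastOf, card_filter]
    rw [sum_congr rfl h3, sum_comm]
    have h4 : ∀ π : ι ≃ Fin (Fintype.card ι),
        ∑ j ∈ S, (if (∀ l ∈ S, π l ≤ π j) then 1 else 0) = 1 := by
      intro π
      obtain ⟨j, hj, hmax⟩ := S.exists_max_image π ⟨i, hi⟩
      rw [sum_eq_single j]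
      · rw [if_pos hmax]
      · intro l hl hlj
        rw [if_neg]
        intro h
        exact hlj (π.injective (le_antisymm (hmax l hl) (h j hj)))
      · intro h
        exact absurd hj h
    rw [sum_congr rfl fun π _ => h4 π, sum_const, card_univ, smul_eq_mul, mul_one]
  rw [← h2, sum_congr rfl h1, sum_const, smul_eq_mul]

/-- a letter that is excluded is excluded by few coordinates -/
theorem exists_crit {r : ℕ} {A : Finset (∀ i, D i)} (hA : IsLocal r A) {a : ∀ i, D i} (ha : a ∈ A)
    {i : ι} {e : D i} (he : update a i e ∉ A) :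
    ∃ J : Finset ι, i ∈ J ∧ J.card ≤ r ∧ ∀ π ∈ lastOf J i,
      e ∉ allowed A (fun j => ((π j : Fin (Fintype.card ι)) : ℕ)) a i := by
  classical
  have h1 : ¬ ∀ J : Finset ι, J.card ≤ r → ∃ b ∈ A, ∀ j ∈ J, b j = update a i e j :=
    fun h => he (hA _ h)
  push Not at h1
  obtain ⟨J, hJ, hJ'⟩ := h1
  have hiJ : i ∈ J := by
    by_contra h
    obtain ⟨j, hj, hj'⟩ := hJ' a ha
    have : j ≠ i := by rintro rfl; exact h hj
    rw [update_of_ne this] at hj'
    exact hj' rfl
  refine ⟨J, hiJ, hJ, ?_⟩
  intro π hπ hmem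
  simp only [lastOf, mem_filter, mem_univ, true_and] at hπ
  obtain ⟨b, hb, hbi, hbj⟩ := mem_allowed.1 hmem
  obtain ⟨j, hj, hj'⟩ := hJ' b hb
  apply hj'
  rcases eq_or_ne j i with rfl | h
  · rw [update_self, hbi]
  · rw [update_of_ne h]
    apply hbj
    have h2 := hπ j hj
    have h3 : π j ≠ π i := fun h' => h (π.injective h')
    exact Fin.lt_def.1 (lt_of_le_of_ne h2 h3)

/-- the average of the logarithm of the number of the letters which may follow -/
noncomputable def avgLog (A : Finset (∀ i, D i)) (a : ∀ i, D i) (i : ι) : ℝ :=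
  (∑ π : ι ≃ Fin (Fintype.card ι),
    Real.log ((allowed A (fun j => ((π j : Fin (Fintype.card ι)) : ℕ)) a i).card : ℝ)) /
      Fintype.card (ι ≃ Fin (Fintype.card ι))

theorem card_equiv_pos : 0 < Fintype.card (ι ≃ Fin (Fintype.card ι)) :=
  Fintype.card_pos_iff.2 ⟨Fintype.equivFin ι⟩

/-- **The coding lemma.** -/
theorem sum_exp_avgLog (A : Finset (∀ i, D i)) :
    ∑ a ∈ A, Real.exp (-∑ i, avgLog A a i) ≤ 1 := by
  set N : ℝ := ((Fintype.card (ι ≃ Fin (Fintype.card ι)) : ℕ) : ℝ) with hN
  have hN0 : 0 < N := by rw [hN]; exact_mod_cast card_equiv_pos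
  have h1 : ∀ a ∈ A, N * Real.exp (-∑ i, avgLog A a i) ≤
      ∑ π : ι ≃ Fin (Fintype.card ι), ∏ i,
        ((allowed A (fun j => ((π j : Fin (Fintype.card ι)) : ℕ)) a i).card : ℝ)⁻¹ := by
    intro a ha
    set s : ℝ := -∑ i, avgLog A a i with hs
    set T : (ι ≃ Fin (Fintype.card ι)) → ℝ := fun π => -∑ i,
      Real.log ((allowed A (fun j => ((π j : Fin (Fintype.card ι)) : ℕ)) a i).card : ℝ) with hT
    have h2 : ∀ π : ι ≃ Fin (Fintype.card ι), ∏ i,
        ((allowed A (fun j => ((π j : Fin (Fintype.card ι)) : ℕ)) a i).card : ℝ)⁻¹ =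
          Real.exp (T π) := by
      intro π
      rw [hT, Real.exp_neg, Real.exp_sum, ← prod_inv_distrib]
      apply prod_congr rfl
      intro i _
      rw [Real.exp_log]
      exact_mod_cast card_pos.2 ⟨_, self_mem_allowed ha i⟩
    have h3 : ∑ π, T π = N * s := by
      rw [hT, sum_neg_distrib, sum_comm, hs, mul_neg, mul_sum]
      congr 1
      apply sum_congr rfl
      intro i _
      rw [avgLog, mul_div_cancel₀ _ hN0.ne']
    have h4 : ∀ π, Real.exp s * (1 + (T π - s)) ≤ Real.exp (T π) := by
      intro π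
      have h5 := Real.add_one_le_exp (T π - s)
      calc Real.exp s * (1 + (T π - s)) ≤ Real.exp s * Real.exp (T π - s) := by
            apply mul_le_mul_of_nonneg_left _ (Real.exp_pos _).le
            linarith
        _ = Real.exp (T π) := by rw [← Real.exp_add]; congr 1; ring
    rw [sum_congr rfl fun π _ => h2 π]
    refine le_trans ?_ (sum_le_sum fun π _ => h4 π)
    rw [← mul_sum, sum_add_distrib, sum_sub_distrib, h3, sum_const, sum_const, card_univ,
      nsmul_eq_mul, nsmul_eq_mul, mul_one]
    rw [← hN]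
    nlinarith [Real.exp_pos s]
  have h5 : ∑ a ∈ A, N * Real.exp (-∑ i, avgLog A a i) ≤ N := by
    refine (sum_le_sum h1).trans ?_
    rw [sum_comm]
    have h6 : ∀ π : ι ≃ Fin (Fintype.card ι), ∑ a ∈ A, ∏ i,
        ((allowed A (fun j => ((π j : Fin (Fintype.card ι)) : ℕ)) a i).card : ℝ)⁻¹ ≤ 1 := by
      intro π
      refine kraft A ?_ (M := Fintype.card ι) (fun i => (π i).2)
      intro i j hij
      exact π.injective (Fin.ext hij)
    refine (sum_le_sum fun π _ => h6 π).trans ?_
    rw [sum_const, card_univ, nsmul_eq_mul, mul_one]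
  rw [← mul_sum] at h5
  exact le_of_mul_le_mul_left (by rwa [mul_one]) hN0

theorem allowed_card_le (A : Finset (∀ i, D i)) (π : ι → ℕ) (a : ∀ i, D i) (i : ι) :
    (allowed A π a i).card ≤ Fintype.card (D i) := card_le_univ _

/-- the trivial bound -/
theorem avgLog_le (A : Finset (∀ i, D i)) {a : ∀ i, D i} (ha : a ∈ A) (i : ι) :
    avgLog A a i ≤ Real.log (Fintype.card (D i)) := by
  have hN0 : (0 : ℝ) < Fintype.card (ι ≃ Fin (Fintype.card ι)) := by exact_mod_cast card_equiv_pos
  rw [avgLog, div_le_iff₀ hN0]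
  have h1 : ∀ π : ι ≃ Fin (Fintype.card ι),
      Real.log ((allowed A (fun j => ((π j : Fin (Fintype.card ι)) : ℕ)) a i).card : ℝ) ≤
        Real.log (Fintype.card (D i)) := by
    intro π
    apply Real.log_le_log
    · exact_mod_cast card_pos.2 ⟨_, self_mem_allowed ha i⟩
    · exact_mod_cast allowed_card_le _ _ _ _
  refine (sum_le_sum fun π _ => h1 π).trans ?_
  rw [sum_const, card_univ, nsmul_eq_mul, mul_comm]

/-- the bound for critical coordinates -/
theorem avgLog_le_crit {r : ℕ} (hr : 1 ≤ r) {A : Finset (∀ i, D i)} (hA : IsLocal r A)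
    {a : ∀ i, D i} (ha : a ∈ A) {i : ι} (hcrit : ∃ e : D i, update a i e ∉ A) :
    avgLog A a i ≤ (1 - 1 / r) * Real.log (Fintype.card (D i)) +
      1 / r * Real.log (Fintype.card (D i) - 1) := by
  obtain ⟨e, he⟩ := hcrit
  obtain ⟨J, hiJ, hJ, hex⟩ := exists_crit hA ha he
  set N : ℝ := ((Fintype.card (ι ≃ Fin (Fintype.card ι)) : ℕ) : ℝ) with hN
  have hN0 : 0 < N := by rw [hN]; exact_mod_cast card_equiv_pos
  have hr0 : (0 : ℝ) < r := by exact_mod_cast hr
  have hD2 : 2 ≤ Fintype.card (D i) := by
    by_contra hcon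
    have : Subsingleton (D i) := Fintype.card_le_one_iff_subsingleton.1 (by omega)
    apply he
    rw [Subsingleton.elim e (a i), update_eq_self]
    exact ha
  have hD1 : (1 : ℝ) ≤ (Fintype.card (D i) : ℝ) - 1 := by
    have : (2 : ℝ) ≤ Fintype.card (D i) := by exact_mod_cast hD2
    linarith
  set x := Real.log (Fintype.card (D i) : ℝ) with hx
  set y := Real.log ((Fintype.card (D i) : ℝ) - 1) with hy
  have hyx : y ≤ x := Real.log_le_log (by linarith) (by linarith)
  have h1 : ∀ π : ι ≃ Fin (Fintype.card ι),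
      Real.log ((allowed A (fun j => ((π j : Fin (Fintype.card ι)) : ℕ)) a i).card : ℝ) ≤
        x - (if π ∈ lastOf J i then 1 else 0) * (x - y) := by
    intro π
    have hpos : (0 : ℝ) < ((allowed A (fun j => ((π j : Fin (Fintype.card ι)) : ℕ)) a i).card : ℝ) := by
      exact_mod_cast card_pos.2 ⟨_, self_mem_allowed ha i⟩
    split_ifs with h
    · have h2 := hex π h
      have h3 : (allowed A (fun j => ((π j : Fin (Fintype.card ι)) : ℕ)) a i).card + 1 ≤
          Fintype.card (D i) := by
        have : (allowed A (fun j => ((π j : Fin (Fintype.card ι)) : ℕ)) a i).card <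
            (univ : Finset (D i)).card :=
          card_lt_card ((subset_univ _).ssubset_of_ne (fun h' => h2 (by rw [h']; exact mem_univ _)))
        rw [card_univ] at this
        omega
      have h4 : ((allowed A (fun j => ((π j : Fin (Fintype.card ι)) : ℕ)) a i).card : ℝ) ≤
          (Fintype.card (D i) : ℝ) - 1 := by
        have : (((allowed A (fun j => ((π j : Fin (Fintype.card ι)) : ℕ)) a i).card + 1 : ℕ) : ℝ) ≤
          Fintype.card (D i) := by exact_mod_cast h3
        push_cast at this
        linarith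
      have h5 := Real.log_le_log hpos h4
      rw [one_mul]
      linarith
    · rw [zero_mul, sub_zero]
      apply Real.log_le_log hpos
      exact_mod_cast allowed_card_le _ _ _ _
  have h2 : (N / r : ℝ) ≤ (lastOf J i).card := by
    have h3 := card_lastOf J hiJ
    have h4 : (J.card : ℝ) * (lastOf J i).card = N := by rw [hN]; exact_mod_cast h3
    rw [div_le_iff₀ hr0, ← h4, mul_comm]
    apply mul_le_mul_of_nonneg_left _ (Nat.cast_nonneg _)
    exact_mod_cast hJ
  rw [avgLog, div_le_iff₀ hN0]
  refine (sum_le_sum fun π _ => h1 π).trans ?_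
  rw [sum_sub_distrib, ← sum_mul, sum_const, card_univ, nsmul_eq_mul]
  have h3 : ∑ π : ι ≃ Fin (Fintype.card ι), (if π ∈ lastOf J i then (1 : ℝ) else 0) =
      (lastOf J i).card := by
    rw [sum_ite_mem, univ_inter, sum_const, nsmul_eq_mul, mul_one]
  rw [h3, ← hN]
  have h4 : N / r * (x - y) ≤ (lastOf J i).card * (x - y) :=
    mul_le_mul_of_nonneg_right h2 (by linarith)
  have h5 : N / r * (x - y) = N * (1 / r * (x - y)) := by ring
  nlinarith [h4, h5]

open Classical in
/-- the bound by the number of the letters on the line -/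
theorem avgLog_le_fib {r : ℕ} (hr : 1 ≤ r) {A : Finset (∀ i, D i)} (hA : IsLocal r A)
    {a : ∀ i, D i} (ha : a ∈ A) (i : ι) {f : ℕ}
    (hf : (univ.filter fun e : D i => update a i e ∈ A).card ≤ f) :
    avgLog A a i ≤ Real.log (Fintype.card (D i) - (Fintype.card (D i) - f) / r) := by
  set N : ℝ := ((Fintype.card (ι ≃ Fin (Fintype.card ι)) : ℕ) : ℝ) with hN
  have hN0 : 0 < N := by rw [hN]; exact_mod_cast card_equiv_pos
  have hr0 : (0 : ℝ) < r := by exact_mod_cast hr
  have hr1 : (1 : ℝ) ≤ r := by exact_mod_cast hr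
  set X := univ.filter (fun e : D i => update a i e ∉ A) with hX
  have hXm : ∀ e ∈ X, update a i e ∉ A := fun e he => (mem_filter.1 he).2
  have hfX : (Fintype.card (D i) : ℝ) - f ≤ X.card := by
    have h1 : (univ.filter fun e : D i => update a i e ∈ A).card + X.card =
        Fintype.card (D i) := by
      rw [hX, card_filter_add_card_filter_not, card_univ]
    have h2 : Fintype.card (D i) ≤ f + X.card := by omega
    have h3 : ((Fintype.card (D i) : ℕ) : ℝ) ≤ ((f + X.card : ℕ) : ℝ) := by exact_mod_cast h2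
    push_cast at h3
    linarith
  choose J hJi hJr hJ using fun (e : D i) (he : update a i e ∉ A) => exists_crit hA ha he
  have hcount : ∀ π : ι ≃ Fin (Fintype.card ι),
      ((allowed A (fun j => ((π j : Fin (Fintype.card ι)) : ℕ)) a i).card : ℝ) ≤
        Fintype.card (D i) - ∑ e ∈ X.attach,
          (if π ∈ lastOf (J e.1 (hXm e.1 e.2)) i then (1 : ℝ) else 0) := by
    intro π
    have h1 : ∑ e ∈ X.attach,
        (if π ∈ lastOf (J e.1 (hXm e.1 e.2)) i then (1 : ℝ) else 0) ≤
          (univ \ allowed A (fun j => ((π j : Fin (Fintype.card ι)) : ℕ)) a i).card := by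
      rw [← sum_filter, sum_const, nsmul_eq_mul, mul_one]
      have h2 : (X.attach.filter fun e => π ∈ lastOf (J e.1 (hXm e.1 e.2)) i).card ≤
          (univ \ allowed A (fun j => ((π j : Fin (Fintype.card ι)) : ℕ)) a i).card := by
        apply card_le_card_of_injOn (fun e => e.1)
        · intro e he
          have he' := (mem_filter.1 (mem_coe.1 he)).2
          rw [mem_coe, mem_sdiff]
          exact ⟨mem_univ _, hJ e.1 _ π he'⟩
        · intro e _ e' _ h
          exact Subtype.ext h
      exact_mod_cast h2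
    have h3 : (univ \ allowed A (fun j => ((π j : Fin (Fintype.card ι)) : ℕ)) a i).card +
        (allowed A (fun j => ((π j : Fin (Fintype.card ι)) : ℕ)) a i).card =
          Fintype.card (D i) := by
      rw [card_sdiff_add_card_eq_card (subset_univ _), card_univ]
    have h4 : ((univ \ allowed A (fun j => ((π j : Fin (Fintype.card ι)) : ℕ)) a i).card : ℝ) +
        (allowed A (fun j => ((π j : Fin (Fintype.card ι)) : ℕ)) a i).card =
          Fintype.card (D i) := by exact_mod_cast h3
    linarith
  set Y : ℝ := Fintype.card (D i) - (Fintype.card (D i) - f) / r with hY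
  have hsum : ∑ π : ι ≃ Fin (Fintype.card ι),
      ((allowed A (fun j => ((π j : Fin (Fintype.card ι)) : ℕ)) a i).card : ℝ) ≤ N * Y := by
    refine (sum_le_sum fun π _ => hcount π).trans ?_
    rw [sum_sub_distrib, sum_comm, sum_const, card_univ, nsmul_eq_mul, ← hN]
    have h1 : ∀ e ∈ X.attach, N / r ≤ ∑ π : ι ≃ Fin (Fintype.card ι),
        (if π ∈ lastOf (J e.1 (hXm e.1 e.2)) i then (1 : ℝ) else 0) := by
      intro e _
      rw [sum_ite_mem, univ_inter, sum_const, nsmul_eq_mul, mul_one]
      have h3 := card_lastOf _ (hJi e.1 (hXm e.1 e.2))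
      have h4 : ((J e.1 (hXm e.1 e.2)).card : ℝ) *
          (lastOf (J e.1 (hXm e.1 e.2)) i).card = N := by rw [hN]; exact_mod_cast h3
      rw [div_le_iff₀ hr0, ← h4, mul_comm]
      apply mul_le_mul_of_nonneg_left _ (Nat.cast_nonneg _)
      exact_mod_cast hJr e.1 (hXm e.1 e.2)
    have h2 := sum_le_sum h1
    rw [sum_const, card_attach, nsmul_eq_mul] at h2
    have h3 : (Fintype.card (D i) - f : ℝ) * (N / r) ≤ X.card * (N / r) :=
      mul_le_mul_of_nonneg_right hfX (by positivity)
    have h4 : N * Y = N * Fintype.card (D i) - (Fintype.card (D i) - f) * (N / r) := by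
      rw [hY]; ring
    rw [h4]
    linarith
  have hY0 : 0 < Y := by
    have h1 : (1 : ℝ) * N ≤ ∑ π : ι ≃ Fin (Fintype.card ι),
        ((allowed A (fun j => ((π j : Fin (Fintype.card ι)) : ℕ)) a i).card : ℝ) := by
      have : ∀ π : ι ≃ Fin (Fintype.card ι), (1 : ℝ) ≤
        ((allowed A (fun j => ((π j : Fin (Fintype.card ι)) : ℕ)) a i).card : ℝ) := by
        intro π
        exact_mod_cast card_pos.2 ⟨_, self_mem_allowed ha i⟩
      have h2 := sum_le_sum fun π (_ : π ∈ (univ : Finset (ι ≃ Fin (Fintype.card ι)))) => this π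
      rw [sum_const, card_univ, nsmul_eq_mul] at h2
      linarith
    nlinarith [h1, hsum]
  rw [avgLog, div_le_iff₀ hN0]
  have h1 : ∀ π : ι ≃ Fin (Fintype.card ι),
      Real.log ((allowed A (fun j => ((π j : Fin (Fintype.card ι)) : ℕ)) a i).card : ℝ) ≤
        Real.log Y +
          (((allowed A (fun j => ((π j : Fin (Fintype.card ι)) : ℕ)) a i).card : ℝ) / Y - 1) := by
    intro π
    have hpos : (0 : ℝ) < ((allowed A (fun j => ((π j : Fin (Fintype.card ι)) : ℕ)) a i).card : ℝ) := by
      exact_mod_cast card_pos.2 ⟨_, self_mem_allowed ha i⟩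
    have h2 := Real.log_le_sub_one_of_pos (div_pos hpos hY0)
    rw [Real.log_div hpos.ne' hY0.ne'] at h2
    linarith
  refine (sum_le_sum fun π _ => h1 π).trans ?_
  rw [sum_add_distrib, sum_sub_distrib, ← sum_div, sum_const, sum_const, card_univ, nsmul_eq_mul,
    nsmul_eq_mul, ← hN, mul_one]
  have h3 : (∑ π : ι ≃ Fin (Fintype.card ι),
      ((allowed A (fun j => ((π j : Fin (Fintype.card ι)) : ℕ)) a i).card : ℝ)) / Y ≤ N := by
    rw [div_le_iff₀ hY0]
    exact hsum
  linarith

end

end Pool.Agent.Y347.CO
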