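import Pool.Agent.Y347.CO.Semi

set_option autoImplicit false

/-!
# Semilattice operations
-/

namespace Pool.Agent.Y347.CO

open Finset Function

/-- a semilattice operation -/
structure IsSemi {D : Type} (s : D → D → D) : Prop where
  comm : ∀ x y, s x y = s y x
  assoc : ∀ x y z, s (s x y) z = s x (s y z)
  idem : ∀ x, s x x = x

/-- the semilattice of an operation -/
@[reducible] def semiOf {D : Type} (s : D → D → D) (hs : IsSemi s) : SemilatticeInf D :=
  letI : Min D := ⟨s⟩
  SemilatticeInf.mk' hs.comm hs.assoc hs.idem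

/-- the constant for alphabets with `q` letters -/
noncomputable def cq (q : ℕ) : ℝ := ((q - 1) + Real.sqrt ((q - 1) * (q + 3))) / 2

theorem cq_sq {q : ℕ} (hq : 2 ≤ q) : cq q ^ 2 = (q - 1) * cq q + (q - 1) := by
  have hq' : (2 : ℝ) ≤ q := by exact_mod_cast hq
  have h := Real.sq_sqrt (show (0 : ℝ) ≤ (q - 1) * (q + 3) by nlinarith)
  unfold cq
  nlinarith [h]

theorem cq_pos {q : ℕ} (hq : 2 ≤ q) : 0 < cq q := by
  have hq' : (2 : ℝ) ≤ q := by exact_mod_cast hq
  have h := Real.sqrt_nonneg (((q : ℝ) - 1) * (q + 3))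
  unfold cq
  linarith

theorem le_cq {q : ℕ} (hq : 2 ≤ q) : (q : ℝ) - 1 / q ≤ cq q := by
  have hq' : (2 : ℝ) ≤ q := by exact_mod_cast hq
  have h0 := cq_pos hq
  have h1 := cq_sq hq
  set c := cq q
  by_contra hcon
  push Not at hcon
  -- f(x) = x² - (q-1) x - (q-1) is increasing for x > (q-1)/2 and nonpositive at q - 1/q
  set t : ℝ := 1 / q with ht
  have ht0 : 0 < t := by positivity
  have htq : q * t = 1 := by rw [ht]; field_simp
  have ht1 : t ≤ 1 / 2 := by
    rw [ht]
    exact one_div_le_one_div_of_le (by norm_num) hq'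
  have h2 : (q - t) ^ 2 - (q - 1) * (q - t) - (q - 1) = t ^ 2 - t := by
    have : (q - t) ^ 2 - (q - 1) * (q - t) - (q - 1) = t ^ 2 - t + 1 - q * t := by ring
    rw [this, htq]; ring
  have h3 : t ^ 2 - t ≤ 0 := by nlinarith
  -- difference of squares
  have h4 : ((q - t) - c) * ((q - t) + c - (q - 1)) ≤ 0 := by nlinarith
  have h5 : 0 < (q - t) + c - (q - 1) := by linarith
  have h6 : 0 < (q - t) - c := by linarith
  nlinarith [mul_pos h6 h5]

theorem cq_lt {q : ℕ} (hq : 2 ≤ q) : cq q < q := by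
  have hq' : (2 : ℝ) ≤ q := by exact_mod_cast hq
  have h1 := cq_sq hq
  have h0 := cq_pos hq
  set c := cq q
  by_contra hcon
  push Not at hcon
  nlinarith

theorem params_cq {q : ℕ} (hq : 2 ≤ q) :
    Params (cq q) (fun u v => 1 ≤ u ∧ 1 ≤ v ∧ u + v ≤ q) (q - 1) q := by
  have hq' : (2 : ℝ) ≤ q := by exact_mod_cast hq
  have h0 := cq_pos hq
  have h1 := cq_sq hq
  have h2 := le_cq hq
  have h3 := cq_lt hq
  have h4 : 1 / (q : ℝ) ≤ 1 / 2 := one_div_le_one_div_of_le (by norm_num) hq'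
  set c := cq q
  have hc1 : (q : ℝ) - 1 ≤ c := by linarith
  refine ⟨by linarith, ?_, ?_, ?_, ?_, Nat.sub_le _ _⟩
  · rintro u v u' v' ⟨hu, hv, huv⟩ ⟨hu', hv', huv'⟩
    have e1 : (1 : ℝ) ≤ u := by exact_mod_cast hu
    have e2 : (1 : ℝ) ≤ v := by exact_mod_cast hv
    have e3 : (u : ℝ) + v ≤ q := by exact_mod_cast huv
    have e4 : (1 : ℝ) ≤ u' := by exact_mod_cast hu'
    have e5 : (1 : ℝ) ≤ v' := by exact_mod_cast hv'
    have e6 : (u' : ℝ) + v' ≤ q := by exact_mod_cast huv'
    -- u u' + v v' ≤ (q-1)^2 + 1 ≤ c^2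
    have e7 : (u : ℝ) * u' + v * v' ≤ (q - 1) ^ 2 + 1 := by
      have a1 : (u : ℝ) * u' + v * v' ≤ u * u' + (q - u) * (q - u') := by
        have : (v : ℝ) * v' ≤ (q - u) * (q - u') :=
          mul_le_mul (by linarith) (by linarith) (by linarith) (by linarith)
        linarith
      have a2 : 0 ≤ ((u : ℝ) - 1) * (q - 1 - u') := mul_nonneg (by linarith) (by linarith)
      have a3 : 0 ≤ ((u' : ℝ) - 1) * (q - 1 - u) := mul_nonneg (by linarith) (by linarith)
      nlinarith
    nlinarith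
  · rintro u v ⟨hu, hv, huv⟩
    have e1 : (1 : ℝ) ≤ u := by exact_mod_cast hu
    have e2 : (1 : ℝ) ≤ v := by exact_mod_cast hv
    have e3 : (u : ℝ) + v ≤ q := by exact_mod_cast huv
    have e4 : ((q - 1 : ℕ) : ℝ) = q - 1 := by
      rw [Nat.cast_sub (by omega)]; norm_num
    rw [e4, h1]
    have a1 : 0 ≤ ((u : ℝ) - 1) * (c - (q - 1)) := mul_nonneg (by linarith) (by linarith)
    have a2 : 0 ≤ c * (q - u - v) := mul_nonneg h0.le (by linarith)
    nlinarith
  · rintro u v e ⟨hu, hv, huv⟩ he heq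
    have e1 : (1 : ℝ) ≤ u := by exact_mod_cast hu
    have e2 : (1 : ℝ) ≤ v := by exact_mod_cast hv
    have e3 : (u : ℝ) + v ≤ q := by exact_mod_cast huv
    have e4 : (1 : ℝ) ≤ e := by exact_mod_cast he
    have e5 : (e : ℝ) ≤ q := by exact_mod_cast heq
    have a1 : (q : ℝ) * e - 1 ≤ c * e := by
      have b1 : ((q : ℝ) - 1 / q) * e ≤ c * e := mul_le_mul_of_nonneg_right h2 (by linarith)
      have b2 : 1 / (q : ℝ) * e ≤ 1 := by
        rw [one_div, inv_mul_le_iff₀ (by linarith), mul_one]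
        exact e5
      nlinarith
    have a2 : 0 ≤ (e : ℝ) * (q - u - v) := mul_nonneg (by linarith) (by linarith)
    nlinarith
  · rintro u v ⟨hu, hv, huv⟩
    omega

section
variable {ι : Type} [Fintype ι] [DecidableEq ι] {D : ι → Type} [∀ i, Fintype (D i)]

open Classical in
theorem lines_cq [∀ i, SemilatticeInf (D i)] {q : ℕ} (hq : 2 ≤ q)
    (hD : ∀ i, Fintype.card (D i) ≤ q) :
    Lines (D := D) (cq q) (fun u v => 1 ≤ u ∧ 1 ≤ v ∧ u + v ≤ q) (q - 1) q
      (fun _ S => S ≠ univ) := by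
  have hq' : (2 : ℝ) ≤ q := by exact_mod_cast hq
  refine ⟨?_, ?_, ?_, ?_⟩
  · intro i S T hTS hS hT
    exact hS (univ_subset_iff.1 (hT ▸ hTS))
  · intro i S m b hS hm hb hmb
    refine ⟨card_pos.2 ⟨b, by simp⟩, card_pos.2 ⟨m, by simp [inf_eq_left.2 hmb, hm]⟩, ?_⟩
    refine le_trans ?_ (hD i)
    rw [← card_union_of_disjoint]
    · exact card_le_univ _
    · rw [disjoint_left]
      intro d h1 h2
      simp only [mem_filter, mem_univ, true_and] at h1 h2
      rw [inf_eq_right.2 h1] at h2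
      exact hb h2.2
  · intro i m b hmb
    have h1 : (univ.filter fun d => b ≤ d).card < Fintype.card (D i) := by
      rw [← card_univ]
      apply card_lt_card
      refine (filter_subset _ _).ssubset_of_ne ?_
      intro h
      have : m ∈ univ.filter fun d => b ≤ d := by rw [h]; exact mem_univ _
      simp only [mem_filter, mem_univ, true_and] at this
      exact absurd (lt_of_le_of_lt this hmb) (lt_irrefl _)
    have := hD i
    omega
  · intro i S hS
    have h1 : S.card < Fintype.card (D i) := by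
      rw [← card_univ]
      exact card_lt_card ((subset_univ _).ssubset_of_ne hS)
    have h2 := hD i
    refine ⟨by omega, ?_⟩
    have h3 : (S.card : ℝ) + 1 ≤ q := by exact_mod_cast (by omega : S.card + 1 ≤ q)
    have h4 := le_cq hq
    have h5 : 1 / (q : ℝ) ≤ 1 / 2 := one_div_le_one_div_of_le (by norm_num) hq'
    linarith

/-- **Families closed under semilattice operations without full lines.** -/
theorem semi_ops {q : ℕ} (hq : 2 ≤ q) (hD : ∀ i, Fintype.card (D i) ≤ q)
    (s : ∀ i, D i → D i → D i) (hs : ∀ i, IsSemi (s i)) (A : Finset (∀ i, D i))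
    (hA : ∀ a ∈ A, ∀ b ∈ A, (fun i => s i (a i) (b i)) ∈ A) (I : Finset ι)
    (hI : ∀ i ∈ I, ∀ a : ∀ i, D i, ∃ d, update a i d ∉ A) :
    (A.card : ℝ) ≤ cq q ^ I.card * q ^ (Fintype.card ι - I.card) := by
  classical
  letI : ∀ i, SemilatticeInf (D i) := fun i => semiOf (s i) (hs i)
  have h := semi_bound (params_cq hq) (lines_cq (D := D) hq hD) I.card I (fun _ => univ) A rfl
    (fun a ha b hb => hA a ha b hb) (fun _ _ _ _ => mem_univ _)
    (fun i _ => by rw [card_univ]; exact hD i) (by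
      intro i hi a
      obtain ⟨d, hd⟩ := hI i hi a
      intro h
      have : d ∈ univ.filter fun d => update a i d ∈ A := by rw [h]; exact mem_univ _
      exact hd (mem_filter.1 this).2)
  refine h.trans (mul_le_mul_of_nonneg_left ?_ (pow_nonneg (cq_pos hq).le _))
  have h1 : ∏ i ∈ Iᶜ, ((univ : Finset (D i)).card : ℝ) ≤ ∏ _i ∈ Iᶜ, (q : ℝ) := by
    apply prod_le_prod
    · intro i _
      exact Nat.cast_nonneg _
    · intro i _
      rw [card_univ]
      exact_mod_cast hD i
  rw [prod_const, card_compl] at h1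
  exact h1

end

/-- the parameters for pairs of bits -/
theorem params_and : Params (1 + Real.sqrt 5) (fun u v => u ≤ 2 ∧ v ≤ 2) 2 2 := by
  have h5 := Real.sq_sqrt (show (0 : ℝ) ≤ 5 by norm_num)
  have h6 : 2 ≤ Real.sqrt 5 := by
    rw [Real.le_sqrt (by norm_num) (by norm_num)]; norm_num
  refine ⟨by linarith, ?_, ?_, ?_, fun u v h => h, le_refl _⟩
  · rintro u v u' v' ⟨h1, h2⟩ ⟨h3, h4⟩
    have a1 : (u : ℝ) ≤ 2 := by exact_mod_cast h1
    have a2 : (v : ℝ) ≤ 2 := by exact_mod_cast h2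
    have a3 : (u' : ℝ) ≤ 2 := by exact_mod_cast h3
    have a4 : (v' : ℝ) ≤ 2 := by exact_mod_cast h4
    have b1 : (u : ℝ) * u' ≤ 2 * 2 := mul_le_mul a1 a3 (Nat.cast_nonneg _) (by norm_num)
    have b2 : (v : ℝ) * v' ≤ 2 * 2 := mul_le_mul a2 a4 (Nat.cast_nonneg _) (by norm_num)
    nlinarith
  · rintro u v ⟨h1, h2⟩
    have a1 : (u : ℝ) ≤ 2 := by exact_mod_cast h1
    have a2 : (v : ℝ) ≤ 2 := by exact_mod_cast h2
    have b2 : (v : ℝ) * (1 + Real.sqrt 5) ≤ 2 * (1 + Real.sqrt 5) :=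
      mul_le_mul_of_nonneg_right a2 (by linarith)
    push_cast
    nlinarith
  · rintro u v e ⟨h1, h2⟩ he he2
    have a1 : (u : ℝ) ≤ 2 := by exact_mod_cast h1
    have a2 : (v : ℝ) ≤ 2 := by exact_mod_cast h2
    have a3 : (1 : ℝ) ≤ e := by exact_mod_cast he
    have a4 : (e : ℝ) ≤ 2 := by exact_mod_cast he2
    have b1 : (u : ℝ) * (e - 1) ≤ 2 * (e - 1) := mul_le_mul_of_nonneg_right a1 (by linarith)
    have b2 : (v : ℝ) * e ≤ 2 * e := mul_le_mul_of_nonneg_right a2 (by linarith)
    nlinarith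

set_option maxRecDepth 100000 in
theorem key_and : ∀ (S : Finset (Bool × Bool)), S.card ≤ 2 → ∀ b : Bool × Bool, b ∉ S →
    ∀ m : Bool × Bool, m ∈ S → m ≤ b →
      (univ.filter fun d : Bool × Bool => m ≤ d ∧ d ⊓ b ∈ S).card ≤ 2 := by decide

theorem key_and' : ∀ (m b : Bool × Bool), m ≤ b → m ≠ b →
    (univ.filter fun d : Bool × Bool => b ≤ d).card ≤ 2 := by decide

section
variable {ι : Type} [Fintype ι] [DecidableEq ι]

open Classical in
theorem lines_and : Lines (ι := ι) (D := fun _ => Bool × Bool) (1 + Real.sqrt 5)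
    (fun u v => u ≤ 2 ∧ v ≤ 2) 2 2 (fun _ S => S.card ≤ 2) := by
  have h6 : 2 ≤ Real.sqrt 5 := by
    rw [Real.le_sqrt (by norm_num) (by norm_num)]; norm_num
  refine ⟨?_, ?_, ?_, ?_⟩
  · intro i S T hTS hS
    exact (card_le_card hTS).trans hS
  · intro i S m b hS hm hb hmb
    have h1 := key_and' m b hmb (by rintro rfl; exact hb hm)
    have h2 := key_and S hS b hb m hm hmb
    constructor
    · convert h1
    · convert h2
  · intro i m b hmb
    have := key_and' m b hmb.le hmb.ne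
    convert this
  · intro i S hS
    refine ⟨hS, ?_⟩
    have : (S.card : ℝ) ≤ 2 := by exact_mod_cast hS
    linarith

open Classical in
/-- families of pairs of words closed under coordinatewise AND with at most two letters on each
line -/
theorem semi_and (A : Finset (ι → Bool × Bool))
    (hA : ∀ a ∈ A, ∀ b ∈ A, (fun i => ((a i).1 && (b i).1, (a i).2 && (b i).2)) ∈ A)
    (hl : ∀ (i : ι) (a : ι → Bool × Bool), (univ.filter fun d => update a i d ∈ A).card ≤ 2) :
    (A.card : ℝ) ≤ (1 + Real.sqrt 5) ^ Fintype.card ι := by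
  have h := semi_bound (D := fun _ : ι => Bool × Bool) params_and (lines_and (ι := ι))
    (Fintype.card ι) univ (fun _ => univ) A card_univ
    (fun a ha b hb => by
      have := hA a ha b hb
      have e : a ⊓ b = (fun i => ((a i).1 && (b i).1, (a i).2 && (b i).2)) := by
        funext i
        rfl
      rwa [e]) (fun _ _ _ _ => mem_univ _)
    (fun i hi => absurd (mem_univ i) hi) (by
      intro i _ a
      convert hl i a)
  rwa [compl_univ, prod_empty, mul_one] at h

end

end Pool.Agent.Y347.CO
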