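import Pool.Agent.Y347.CO.Sens

set_option autoImplicit false

/-!
# Relative density inside sets decided by circuits of constant depth
-/

namespace Pool.Agent.Y347.CO

open Finset Function

section cube
variable {M : ℕ}

/-- flip the bits in `v` -/
def flipSet (v : Finset (Fin M)) (x : Fin M → Bool) : Fin M → Bool :=
  fun i => if i ∈ v then !(x i) else x i

theorem flipSet_empty (x : Fin M → Bool) : flipSet ∅ x = x := by
  funext i
  simp [flipSet]

theorem flipSet_insert {v : Finset (Fin M)} {j : Fin M} (hj : j ∉ v) (x : Fin M → Bool) :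
    flipSet (insert j v) x = update (flipSet v x) j (!(flipSet v x j)) := by
  funext i
  rcases eq_or_ne i j with rfl | hij
  · simp [flipSet, hj]
  · simp [flipSet, hij]

theorem flipSet_flipSet (v : Finset (Fin M)) (x : Fin M → Bool) : flipSet v (flipSet v x) = x := by
  funext i
  by_cases h : i ∈ v <;> simp [flipSet, h]

theorem flipSet_injective (v : Finset (Fin M)) : Injective (flipSet v) := fun x y h => by
  rw [← flipSet_flipSet v x, h, flipSet_flipSet]

/-- the number of boundary edges in direction `i` -/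
def bd (F : Finset (Fin M → Bool)) (i : Fin M) : ℕ :=
  (F.filter fun x => update x i (!(x i)) ∉ F).card

theorem boundary_flipSet (F : Finset (Fin M → Bool)) (v : Finset (Fin M)) :
    (F.filter fun x => flipSet v x ∉ F).card ≤ ∑ j ∈ v, bd F j := by
  classical
  induction v using Finset.induction_on with
  | empty =>
    rw [sum_empty, Nat.le_zero, card_eq_zero, filter_eq_empty_iff]
    intro x hx
    rw [flipSet_empty]
    exact not_not.2 hx
  | insert j v hj ih =>
    rw [sum_insert hj]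
    have h1 : (F.filter fun x => flipSet (insert j v) x ∉ F) ⊆
        (F.filter fun x => flipSet v x ∉ F) ∪
          ((F.filter fun x => update x j (!(x j)) ∉ F).image (flipSet v)) := by
      intro x hx
      rw [mem_filter, flipSet_insert hj] at hx
      rw [mem_union]
      by_cases h : flipSet v x ∈ F
      · right
        rw [mem_image]
        exact ⟨flipSet v x, mem_filter.2 ⟨h, hx.2⟩, flipSet_flipSet v x⟩
      · left
        exact mem_filter.2 ⟨hx.1, h⟩
    refine (card_le_card h1).trans ((card_union_le _ _).trans ?_)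
    have h2 : ((F.filter fun x => update x j (!(x j)) ∉ F).image (flipSet v)).card ≤ bd F j :=
      card_image_le
    omega

/-- the sum of the boundary edges is the total sensitivity -/
theorem sum_bd (f : (Fin M → Bool) → Bool) (F : Finset (Fin M → Bool))
    (hF : ∀ p, p ∈ F ↔ f p = true) (D : Finset (Fin M)) :
    ∑ i ∈ D, bd F i = ∑ x ∈ F, ((sens f x) ∩ D).card := by
  classical
  have h1 : ∀ i ∈ D, bd F i = ∑ p ∈ F, if i ∈ sens f p then 1 else 0 := by
    intro i hi
    rw [bd, card_filter]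
    apply sum_congr rfl
    intro p hp
    have hp1 : f p = true := (hF p).1 hp
    have h2 : update p i (!(p i)) ∉ F ↔ i ∈ sens f p := by
      rw [hF, sens, mem_filter, hp1]
      simp
    by_cases h3 : i ∈ sens f p
    · rw [if_pos h3, if_pos (h2.2 h3)]
    · rw [if_neg h3, if_neg (fun h => h3 (h2.1 h))]
  rw [sum_congr rfl h1, sum_comm]
  apply sum_congr rfl
  intro p _
  rw [← card_filter, inter_comm]
  congr 1

/-- the total sensitivity of a set decided by a circuit -/
theorem sum_sens_le (hT : S_TAIL) {w : ℕ} (C : Y603.MS.Circuit w M) {ℓ d : ℕ} (hleak : C.leak = ∅)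
    (hℓ : 1 ≤ ℓ) (hw : 1 ≤ w) (hd1 : 1 ≤ d) (hs : Nat.card C.Node ≤ 2 ^ ℓ)
    (hd : ∀ v, C.depth v ≤ d) (o : C.Node) (D : Finset (Fin M)) (F : Finset (Fin M → Bool))
    {κ : ℝ} (hκ0 : 0 ≤ κ) :
    ∑ x ∈ F, (((sens (C.val o) x) ∩ D).card : ℝ) ≤ κ * F.card +
      D.card * (2 ^ M * (2 : ℝ) ^ (2 * ℓ + 4 - κ / (d * KK d w ℓ))) := by
  classical
  set B := F.filter fun x => κ ≤ ((sens (C.val o) x).card : ℝ) with hB
  have h1 := tail_real hT C hleak hℓ hw hd1 hs hd o κ B (fun x hx => (mem_filter.1 hx).2)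
  have h3 : ∀ x ∈ F, (((sens (C.val o) x) ∩ D).card : ℝ) ≤
      κ + (if κ ≤ ((sens (C.val o) x).card : ℝ) then (D.card : ℝ) else 0) := by
    intro x _
    split_ifs with h
    · have : (((sens (C.val o) x) ∩ D).card : ℝ) ≤ D.card := by
        exact_mod_cast card_le_card inter_subset_right
      linarith
    · push Not at h
      have : (((sens (C.val o) x) ∩ D).card : ℝ) ≤ (sens (C.val o) x).card := by
        exact_mod_cast card_le_card inter_subset_left
      linarith
  refine (sum_le_sum h3).trans ?_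
  rw [sum_add_distrib, sum_const, nsmul_eq_mul, ← sum_filter, sum_const, nsmul_eq_mul]
  have h4 : (D.card : ℝ) * B.card ≤
      D.card * (2 ^ M * (2 : ℝ) ^ (2 * ℓ + 4 - κ / (d * KK d w ℓ))) :=
    mul_le_mul_of_nonneg_left h1 (Nat.cast_nonneg _)
  rw [mul_comm (F.card : ℝ) κ, mul_comm _ (D.card : ℝ)]
  linarith

/-- some block of directions has few boundary edges -/
theorem block (hT : S_TAIL) {w : ℕ} (C : Y603.MS.Circuit w M) {ℓ d : ℕ} (hleak : C.leak = ∅)
    (hℓ : 1 ≤ ℓ) (hw : 1 ≤ w) (hd1 : 1 ≤ d) (hs : Nat.card C.Node ≤ 2 ^ ℓ)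
    (hd : ∀ v, C.depth v ≤ d) (o : C.Node) (F : Finset (Fin M → Bool))
    (hF : ∀ p, p ∈ F ↔ C.val o p = true) {k q : ℕ} (hk : 1 ≤ k) (J : Fin k → Finset (Fin M))
    (hJ : ∀ j j', j ≠ j' → Disjoint (J j) (J j')) (hq : ∀ j, (J j).card ≤ q)
    {ε : ℝ} (hε : 0 < ε)
    (hlarge : 2 * q / ε * (2 ^ M * (2 : ℝ) ^ (2 * ℓ + 4 - ε / 2 * k / (d * KK d w ℓ))) ≤ F.card) :
    ∃ j, ((∑ i ∈ J j, bd F i : ℕ) : ℝ) ≤ ε * F.card := by
  classical
  set D : Finset (Fin M) := univ.biUnion J with hD
  have hdisj : ∀ j ∈ (univ : Finset (Fin k)), ∀ j' ∈ (univ : Finset (Fin k)), j ≠ j' →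
      Disjoint (J j) (J j') := fun j _ j' _ h => hJ j j' h
  have hDc : (D.card : ℝ) ≤ k * q := by
    have : D.card ≤ k * q := by
      refine card_biUnion_le.trans ((sum_le_sum fun j _ => hq j).trans ?_)
      rw [sum_const, card_univ, Fintype.card_fin, smul_eq_mul]
    exact_mod_cast this
  have hsum := sum_sens_le hT C hleak hℓ hw hd1 hs hd o D F (κ := ε / 2 * k) (by positivity)
  have hb := sum_bd (C.val o) F hF D
  rw [hD, sum_biUnion hdisj, ← hD] at hb
  have hb' : (∑ j : Fin k, ((∑ i ∈ J j, bd F i : ℕ) : ℝ)) =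
      ∑ x ∈ F, (((sens (C.val o) x) ∩ D).card : ℝ) := by
    exact_mod_cast hb
  set E : ℝ := 2 ^ M * (2 : ℝ) ^ (2 * ℓ + 4 - ε / 2 * k / (d * KK d w ℓ)) with hE
  have hE0 : 0 ≤ E := by positivity
  have hlarge' : q * E ≤ ε / 2 * F.card := by
    have := mul_le_mul_of_nonneg_left hlarge (by positivity : 0 ≤ ε / 2)
    refine le_trans (le_of_eq ?_) this
    field_simp
  by_contra hcon
  push Not at hcon
  have hne : (univ : Finset (Fin k)).Nonempty := ⟨⟨0, hk⟩, mem_univ _⟩
  have h1 := sum_lt_sum_of_nonempty hne fun j _ => hcon j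
  rw [sum_const, card_univ, Fintype.card_fin, nsmul_eq_mul, hb'] at h1
  have h2 : (D.card : ℝ) * E ≤ k * (q * E) := by
    have := mul_le_mul_of_nonneg_right hDc hE0
    linarith
  have hk0 : (0 : ℝ) ≤ k := Nat.cast_nonneg _
  have h3 : (k : ℝ) * (q * E) ≤ k * (ε / 2 * F.card) := mul_le_mul_of_nonneg_left hlarge' hk0
  nlinarith

end cube

section rel
variable {W : Type} [Fintype W] [DecidableEq W] {M : ℕ}

/-- the relative density of `A` in `F` is at most the largest density on small subcubes plus the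
boundary -/
theorem rel_card (enc : W ≃ (Fin M → Bool)) (F A : Finset W) (J : Finset (Fin M))
    {T : Type} [Fintype T] (τ : T → W → W)
    (hτ : ∀ t, ∃ v ⊆ J, ∀ p, enc (τ t p) = flipSet v (enc p)) (r : ℕ)
    (hA : ∀ p, (univ.filter fun t => τ t p ∈ A).card ≤ r) :
    Fintype.card T * (A ∩ F).card ≤
      r * F.card + Fintype.card T * ∑ i ∈ J, bd (F.map enc.toEmbedding) i := by
  classical
  have hinv : ∀ t p, τ t (τ t p) = p := by
    intro t p
    obtain ⟨v, -, hv⟩ := hτ t
    apply enc.injective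
    rw [hv, hv, flipSet_flipSet]
  have h1 : ∀ t, (A ∩ F).card ≤ (F.filter fun p => τ t p ∈ A).card +
      ∑ i ∈ J, bd (F.map enc.toEmbedding) i := by
    intro t
    obtain ⟨v, hvJ, hv⟩ := hτ t
    have h2 : (F.filter fun p => τ t p ∉ F).card ≤ ∑ i ∈ J, bd (F.map enc.toEmbedding) i := by
      refine le_trans ?_ ((boundary_flipSet (F.map enc.toEmbedding) v).trans
        (sum_le_sum_of_subset hvJ))
      rw [← card_map enc.toEmbedding]
      apply card_le_card
      intro x hx
      obtain ⟨p, hp, rfl⟩ := mem_map.1 hx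
      rw [mem_filter] at hp ⊢
      refine ⟨mem_map_of_mem _ hp.1, fun h => hp.2 ?_⟩
      obtain ⟨p', hp', he⟩ := mem_map.1 h
      have he' : enc p' = flipSet v (enc p) := he
      rw [← hv] at he'
      rwa [← enc.injective he']
    have h3 : (A ∩ F).card ≤ ((F.filter fun p => τ t p ∈ A).card +
        (F.filter fun p => τ t p ∉ F).card) := by
      have h4 : A ∩ F ⊆ ((F.filter fun p => τ t p ∈ A).image (τ t)) ∪
          (F.filter fun p => τ t p ∉ F) := by
        intro p hp
        rw [mem_inter] at hp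
        rw [mem_union]
        by_cases h : τ t p ∈ F
        · left
          rw [mem_image]
          exact ⟨τ t p, mem_filter.2 ⟨h, by rw [hinv]; exact hp.1⟩, hinv t p⟩
        · right
          exact mem_filter.2 ⟨hp.2, h⟩
      exact (card_le_card h4).trans ((card_union_le _ _).trans
        (Nat.add_le_add_right card_image_le _))
    omega
  have h5 := sum_le_sum fun t (_ : t ∈ (univ : Finset T)) => h1 t
  rw [sum_const, card_univ, smul_eq_mul, sum_add_distrib, sum_const, card_univ, smul_eq_mul] at h5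
  have h6 : ∑ t : T, (F.filter fun p => τ t p ∈ A).card ≤ r * F.card := by
    have e : ∑ t : T, (F.filter fun p => τ t p ∈ A).card =
        ∑ p ∈ F, (univ.filter fun t => τ t p ∈ A).card := by
      simp only [card_filter]
      exact sum_comm
    rw [e, mul_comm, ← smul_eq_mul, ← sum_const]
    exact sum_le_sum fun p _ => hA p
  omega

/-- **relative density inside sets decided by circuits** -/
theorem rel_circ (hT : S_TAIL) {w : ℕ} (C : Y603.MS.Circuit w M) {ℓ d : ℕ} (hleak : C.leak = ∅)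
    (hℓ : 1 ≤ ℓ) (hw : 1 ≤ w) (hd1 : 1 ≤ d) (hs : Nat.card C.Node ≤ 2 ^ ℓ)
    (hd : ∀ v, C.depth v ≤ d) (o : C.Node) (enc : W ≃ (Fin M → Bool)) (F A : Finset W)
    (hF : ∀ p, p ∈ F ↔ C.val o (enc p) = true) {k q : ℕ} (hk : 1 ≤ k)
    (J : Fin k → Finset (Fin M)) (hJ : ∀ j j', j ≠ j' → Disjoint (J j) (J j'))
    (hq : ∀ j, (J j).card ≤ q) {T : Type} [Fintype T] [Nonempty T] (τ : Fin k → T → W → W)
    (hτ : ∀ j t, ∃ v ⊆ J j, ∀ p, enc (τ j t p) = flipSet v (enc p)) (r : ℕ)
    (hA : ∀ j p, (univ.filter fun t => τ j t p ∈ A).card ≤ r) {ε : ℝ} (hε : 0 < ε)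
    (hlarge : 2 * q / ε * (2 ^ M * (2 : ℝ) ^ (2 * ℓ + 4 - ε / 2 * k / (d * KK d w ℓ))) ≤ F.card) :
    ((A ∩ F).card : ℝ) ≤ (r / Fintype.card T + ε) * F.card := by
  classical
  have hF' : ∀ x, x ∈ F.map enc.toEmbedding ↔ C.val o x = true := by
    intro x
    rw [mem_map_equiv, hF, Equiv.apply_symm_apply]
  obtain ⟨j, hj⟩ := block hT C hleak hℓ hw hd1 hs hd o (F.map enc.toEmbedding) hF' hk J hJ hq hε
    (by rw [card_map]; exact hlarge)
  rw [card_map] at hj
  have h := rel_card enc F A (J j) (τ j) (hτ j) r (hA j)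
  have hc : (0 : ℝ) < Fintype.card T := by exact_mod_cast Fintype.card_pos
  have h' : (Fintype.card T : ℝ) * (A ∩ F).card ≤
      r * F.card + Fintype.card T * ((∑ i ∈ J j, bd (F.map enc.toEmbedding) i : ℕ) : ℝ) := by
    exact_mod_cast h
  have h2 : (Fintype.card T : ℝ) * (A ∩ F).card ≤
      r * F.card + Fintype.card T * (ε * F.card) := by
    have := mul_le_mul_of_nonneg_left hj hc.le
    linarith
  have e : (r / Fintype.card T + ε) * (F.card : ℝ) =
      (r * F.card + Fintype.card T * (ε * F.card)) / Fintype.card T := by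
    field_simp
  rw [e, le_div_iff₀ hc]
  linarith

end rel

end Pool.Agent.Y347.CO
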