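import Mathlib

set_option autoImplicit false

/-!
# Families closed under meets without full lines

`D i` are finite meet semilattices, `A` is a set of words with letters in `D i` that is closed under
meets. On the coordinates `i ∈ I` the letters that occur on a line in the direction `i` form a set
with the property `R i`. The size of `A` is at most `c ^ |I|` times the number of choices for the
other coordinates.
-/

namespace Pool.Agent.Y347.CO

open Finset Function

section
variable {ι : Type} [Fintype ι] [DecidableEq ι] {D : ι → Type} [∀ i, Fintype (D i)]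
  [∀ i, SemilatticeInf (D i)]

/-- numerical conditions on the parameters -/
structure Params (c : ℝ) (K : ℕ → ℕ → Prop) (τ κ : ℕ) : Prop where
  one : 1 ≤ c
  c1 : ∀ u v u' v' : ℕ, K u v → K u' v' → (u * u' + v * v' : ℝ) ≤ c ^ 2
  c2 : ∀ u v : ℕ, K u v → (u * τ + v * c : ℝ) ≤ c ^ 2
  c3 : ∀ u v e : ℕ, K u v → 1 ≤ e → e ≤ κ → (u * (e - 1 : ℝ) + v * e : ℝ) ≤ c * e
  le : ∀ u v : ℕ, K u v → u ≤ κ ∧ v ≤ κ
  tau : τ ≤ κ

open Classical in
/-- conditions on the semilattices and the lines -/
structure Lines (c : ℝ) (K : ℕ → ℕ → Prop) (τ κ : ℕ) (R : ∀ i, Finset (D i) → Prop) : Prop where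
  mono : ∀ i S T, T ⊆ S → R i S → R i T
  k : ∀ i S (m b : D i), R i S → m ∈ S → b ∉ S → m ≤ b →
    K (univ.filter fun d => b ≤ d).card (univ.filter fun d => m ≤ d ∧ d ⊓ b ∈ S).card
  t : ∀ i (m b : D i), m < b → (univ.filter fun d => b ≤ d).card ≤ τ
  r : ∀ i S, R i S → S.card ≤ κ ∧ (S.card : ℝ) ≤ c

open Classical in
theorem semi_bound {c : ℝ} {K : ℕ → ℕ → Prop} {τ κ : ℕ} {R : ∀ i, Finset (D i) → Prop}
    (hP : Params c K τ κ) (hL : Lines c K τ κ R) :
    ∀ (k : ℕ) (I : Finset ι) (E : ∀ i, Finset (D i)) (A : Finset (∀ i, D i)), I.card = k →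
      (∀ a ∈ A, ∀ b ∈ A, a ⊓ b ∈ A) → (∀ a ∈ A, ∀ i, i ∉ I → a i ∈ E i) →
      (∀ i, i ∉ I → (E i).card ≤ κ) →
      (∀ i ∈ I, ∀ a : ∀ i, D i, R i (univ.filter fun d => update a i d ∈ A)) →
      (A.card : ℝ) ≤ c ^ k * ∏ i ∈ Iᶜ, ((E i).card : ℝ) := by
  have hc0 : 0 < c := lt_of_lt_of_le one_pos hP.one
  intro k
  induction k using Nat.strong_induction_on with
  | _ k ih =>
  intro I E A hIk hinf hE hκ hR
  have hPnn : ∀ (s : Finset ι) (F : ∀ i, Finset (D i)), (0 : ℝ) ≤ ∏ i ∈ s, ((F i).card : ℝ) :=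
    fun s F => prod_nonneg fun i _ => Nat.cast_nonneg _
  rcases A.eq_empty_or_nonempty with rfl | hA
  · rw [card_empty, Nat.cast_zero]
    exact mul_nonneg (pow_nonneg hc0.le _) (hPnn _ _)
  rcases I.eq_empty_or_nonempty with rfl | hI
  · rw [card_empty] at hIk
    subst hIk
    rw [pow_zero, one_mul, compl_empty]
    have h1 : A ⊆ Fintype.piFinset E := by
      intro a ha
      rw [Fintype.mem_piFinset]
      exact fun i => hE a ha i (notMem_empty i)
    have h2 := card_le_card h1
    rw [Fintype.card_piFinset] at h2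
    exact_mod_cast h2
  -- products
  have prod_upd : ∀ i ∈ I, ∀ T : Finset (D i),
      ∏ l ∈ (I.erase i)ᶜ, ((update E i T l).card : ℝ) = T.card * ∏ l ∈ Iᶜ, ((E l).card : ℝ) := by
    intro i hi T
    rw [compl_erase, prod_insert (by simp [hi]), update_self]
    congr 1
    apply prod_congr rfl
    intro l hl
    have : l ≠ i := by rintro rfl; exact (mem_compl.1 hl) hi
    rw [update_of_ne this]
  have prod_upd2 : ∀ i ∈ I, ∀ j ∈ I, i ≠ j → ∀ (T : Finset (D i)) (T' : Finset (D j)),
      ∏ l ∈ ((I.erase i).erase j)ᶜ, ((update (update E i T) j T' l).card : ℝ) =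
        T.card * T'.card * ∏ l ∈ Iᶜ, ((E l).card : ℝ) := by
    intro i hi j hj hij T T'
    rw [compl_erase, prod_insert (by simp [hj, hij.symm]), update_self, compl_erase,
      prod_insert (by simp [hi]), update_of_ne hij, update_self]
    have : ∏ l ∈ Iᶜ, ((update (update E i T) j T' l).card : ℝ) = ∏ l ∈ Iᶜ, ((E l).card : ℝ) := by
      apply prod_congr rfl
      intro l hl
      have h1 : l ≠ i := by rintro rfl; exact (mem_compl.1 hl) hi
      have h2 : l ≠ j := by rintro rfl; exact (mem_compl.1 hl) hj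
      rw [update_of_ne h2, update_of_ne h1]
    rw [this]
    ring
  have prod_upd3 : ∀ i ∈ I, ∀ j, j ∉ I → ∀ (T : Finset (D i)) (T' : Finset (D j)),
      ∏ l ∈ (I.erase i)ᶜ, ((update (update E i T) j T' l).card : ℝ) =
        T.card * T'.card * ∏ l ∈ Iᶜ.erase j, ((E l).card : ℝ) := by
    intro i hi j hj T T'
    have hij : i ≠ j := by rintro rfl; exact hj hi
    rw [compl_erase, prod_insert (by simp [hi]), update_of_ne hij, update_self,
      ← mul_prod_erase _ _ (mem_compl.2 hj), update_self]
    have : ∏ l ∈ Iᶜ.erase j, ((update (update E i T) j T' l).card : ℝ) =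
        ∏ l ∈ Iᶜ.erase j, ((E l).card : ℝ) := by
      apply prod_congr rfl
      intro l hl
      have h1 : l ≠ i := by rintro rfl; exact (mem_compl.1 (mem_of_mem_erase hl)) hi
      rw [update_of_ne (ne_of_mem_erase hl), update_of_ne h1]
    rw [this]
    ring
  -- sub-families
  have sub_inf : ∀ (p : (∀ i, D i) → Prop) [DecidablePred p], (∀ a b, p a → p b → p (a ⊓ b)) →
      ∀ a ∈ A.filter p, ∀ b ∈ A.filter p, a ⊓ b ∈ A.filter p := by
    intro p _ hp a ha b hb
    rw [mem_filter] at ha hb ⊢
    exact ⟨hinf a ha.1 b hb.1, hp a b ha.2 hb.2⟩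
  have sub_R : ∀ (B : Finset (∀ i, D i)), B ⊆ A → ∀ i ∈ I, ∀ a : ∀ i, D i,
      R i (univ.filter fun d => update a i d ∈ B) := by
    intro B hB i hi a
    refine hL.mono i _ _ ?_ (hR i hi a)
    intro d hd
    rw [mem_filter] at hd ⊢
    exact ⟨hd.1, hB hd.2⟩
  -- the least element
  obtain ⟨m, hm, hmle⟩ : ∃ m ∈ A, ∀ a ∈ A, m ≤ a := by
    refine ⟨A.inf' hA id, ?_, fun a ha => inf'_le id ha⟩
    exact inf'_mem (A : Set (∀ i, D i)) (fun x hx y hy => hinf x hx y hy) A hA id
      (fun i hi => hi)
  set S : ∀ i, Finset (D i) := fun i => univ.filter fun d => update m i d ∈ A with hS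
  have hmS : ∀ i, m i ∈ S i := by
    intro i
    simp only [hS, mem_filter, mem_univ, true_and, update_eq_self]
    exact hm
  have hk0 : 0 < k := by rw [← hIk]; exact hI.card_pos
  set P := ∏ l ∈ Iᶜ, ((E l).card : ℝ) with hPdef
  have hP0 : 0 ≤ P := hPnn _ _
  have hck : c ^ k = c ^ (k - 1) * c := by
    rw [← pow_succ]
    congr 1
    omega
  by_cases hcase : ∃ i ∈ I, ∀ a ∈ A, a i ∈ S i
  · obtain ⟨i, hi, hSi⟩ := hcase
    have h1 := ih (k - 1) (by omega) (I.erase i) (update E i (S i)) A
      (by rw [card_erase_of_mem hi, hIk]) hinf ?_ ?_ ?_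
    · rw [prod_upd i hi] at h1
      refine h1.trans ?_
      rw [hck, mul_assoc]
      apply mul_le_mul_of_nonneg_left _ (pow_nonneg hc0.le _)
      apply mul_le_mul_of_nonneg_right _ hP0
      exact (hL.r i (S i) (hR i hi m)).2
    · intro a ha l hl
      by_cases hli : l = i
      · subst hli
        rw [update_self]
        exact hSi a ha
      · rw [update_of_ne hli]
        exact hE a ha l (fun h => hl (mem_erase.2 ⟨hli, h⟩))
    · intro l hl
      by_cases hli : l = i
      · subst hli
        rw [update_self]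
        exact (hL.r l (S l) (hR l hi m)).1
      · rw [update_of_ne hli]
        exact hκ l (fun h => hl (mem_erase.2 ⟨hli, h⟩))
    · intro l hl a
      exact hR l (mem_of_mem_erase hl) a
  push Not at hcase
  -- a minimal element outside
  obtain ⟨b, hb, hbmin⟩ : ∃ b, Minimal (fun b => b ∈ A ∧ ∃ i ∈ I, b i ∉ S i) b := by
    obtain ⟨i, hi⟩ := hI
    obtain ⟨a, ha, hai⟩ := hcase i hi
    have hfin : (A.filter fun b => ∃ i ∈ I, b i ∉ S i).Nonempty :=
      ⟨a, mem_filter.2 ⟨ha, i, hi, hai⟩⟩
    obtain ⟨b, hb⟩ := (A.filter fun b => ∃ i ∈ I, b i ∉ S i).exists_minimal hfin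
    refine ⟨b, ?_, ?_⟩
    · exact mem_filter.1 hb.1
    · intro y hy hyb
      exact hb.2 (mem_filter.2 hy) hyb
  obtain ⟨hbA, i, hi, hbi⟩ := hb
  have hmb : m ≤ b := hmle b hbA
  have hdich : ∀ a ∈ A, b ≤ a ∨ ∀ l ∈ I, a l ⊓ b l ∈ S l := by
    intro a ha
    by_cases h : ∀ l ∈ I, a l ⊓ b l ∈ S l
    · exact Or.inr h
    · left
      push Not at h
      obtain ⟨l, hl, hl'⟩ := h
      have h1 := hbmin ⟨hinf a ha b hbA, l, hl, hl'⟩ inf_le_right
      exact h1.trans inf_le_left
  have hRm : ∀ l ∈ I, R l (S l) := fun l hl => hR l hl m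
  set U : ∀ l, Finset (D l) := fun l => univ.filter fun d => b l ≤ d with hU
  set V : ∀ l, Finset (D l) := fun l => univ.filter fun d => m l ≤ d ∧ d ⊓ b l ∈ S l with hV
  have hKl : ∀ l ∈ I, b l ∉ S l → K (U l).card (V l).card := fun l hl hbl =>
    hL.k l (S l) (m l) (b l) (hRm l hl) (hmS l) hbl (hmb l)
  set A1 := A.filter (fun a => b ≤ a) with hA1
  set A2 := A.filter (fun a => ¬ b ≤ a) with hA2
  have hcard : (A.card : ℝ) = A1.card + A2.card := by
    rw [← Nat.cast_add, hA1, hA2, card_filter_add_card_filter_not]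
  have hA1inf : ∀ x ∈ A1, ∀ y ∈ A1, x ⊓ y ∈ A1 :=
    sub_inf (fun a => b ≤ a) fun _ _ ha hb => le_inf ha hb
  have hA2inf : ∀ x ∈ A2, ∀ y ∈ A2, x ⊓ y ∈ A2 :=
    sub_inf (fun a => ¬ b ≤ a) fun _ _ ha _ h => ha (le_trans h inf_le_left)
  have hA1sub : A1 ⊆ A := filter_subset _ _
  have hA2sub : A2 ⊆ A := filter_subset _ _
  have hA1U : ∀ a ∈ A1, ∀ l, a l ∈ U l := by
    intro a ha l
    simp only [hU, mem_filter, mem_univ, true_and]
    exact (mem_filter.1 ha).2 l
  have hA2V : ∀ a ∈ A2, ∀ l ∈ I, a l ∈ V l := by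
    intro a ha l hl
    rw [mem_filter] at ha
    simp only [hV, mem_filter, mem_univ, true_and]
    exact ⟨hmle a ha.1 l, (hdich a ha.1).resolve_left ha.2 l hl⟩
  have hA2one : (A2.card : ℝ) ≤ c ^ (k - 1) * ((V i).card * P) := by
    have h1 := ih (k - 1) (by omega) (I.erase i) (update E i (V i)) A2
      (by rw [card_erase_of_mem hi, hIk]) hA2inf ?_ ?_ ?_
    · rwa [prod_upd i hi] at h1
    · intro a ha l hl
      by_cases hli : l = i
      · subst hli
        rw [update_self]
        exact hA2V a ha l hi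
      · rw [update_of_ne hli]
        exact hE a (hA2sub ha) l (fun h => hl (mem_erase.2 ⟨hli, h⟩))
    · intro l hl
      by_cases hli : l = i
      · subst hli
        rw [update_self]
        exact (hP.le _ _ (hKl l hi hbi)).2
      · rw [update_of_ne hli]
        exact hκ l (fun h => hl (mem_erase.2 ⟨hli, h⟩))
    · intro l hl a
      exact sub_R A2 hA2sub l (mem_of_mem_erase hl) a
  -- two coordinates
  have two : ∀ (B : Finset (∀ i, D i)), B ⊆ A → (∀ x ∈ B, ∀ y ∈ B, x ⊓ y ∈ B) → ∀ j ∈ I, i ≠ j →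
      ∀ (T : Finset (D i)) (T' : Finset (D j)), T.card ≤ κ → T'.card ≤ κ → (∀ a ∈ B, a i ∈ T) →
      (∀ a ∈ B, a j ∈ T') → (B.card : ℝ) ≤ c ^ (k - 2) * (T.card * T'.card * P) := by
    intro B hB hBinf j hj hij T T' hT hT' hBT hBT'
    have hk2 : 2 ≤ k := by
      rw [← hIk]
      exact one_lt_card.2 ⟨i, hi, j, hj, hij⟩
    have h1 := ih (k - 2) (by omega) ((I.erase i).erase j) (update (update E i T) j T') B
      (by rw [card_erase_of_mem (mem_erase.2 ⟨hij.symm, hj⟩), card_erase_of_mem hi, hIk]; omega)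
      hBinf ?_ ?_ ?_
    · rwa [prod_upd2 i hi j hj hij] at h1
    · intro a ha l hl
      by_cases hlj : l = j
      · subst hlj
        rw [update_self]
        exact hBT' a ha
      · rw [update_of_ne hlj]
        by_cases hli : l = i
        · subst hli
          rw [update_self]
          exact hBT a ha
        · rw [update_of_ne hli]
          exact hE a (hB ha) l (fun h => hl (mem_erase.2 ⟨hlj, mem_erase.2 ⟨hli, h⟩⟩))
    · intro l hl
      by_cases hlj : l = j
      · subst hlj
        rw [update_self]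
        exact hT'
      · rw [update_of_ne hlj]
        by_cases hli : l = i
        · subst hli
          rw [update_self]
          exact hT
        · rw [update_of_ne hli]
          exact hκ l (fun h => hl (mem_erase.2 ⟨hlj, mem_erase.2 ⟨hli, h⟩⟩))
    · intro l hl a
      exact sub_R B hB l (mem_of_mem_erase (mem_of_mem_erase hl)) a
  by_cases h2 : ∃ j ∈ I, i ≠ j ∧ b j ∉ S j
  · obtain ⟨j, hj, hij, hbj⟩ := h2
    have hk2 : 2 ≤ k := by
      rw [← hIk]
      exact one_lt_card.2 ⟨i, hi, j, hj, hij⟩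
    have hKi := hKl i hi hbi
    have hKj := hKl j hj hbj
    have e1 := two A1 hA1sub hA1inf j hj hij (U i) (U j) (hP.le _ _ hKi).1 (hP.le _ _ hKj).1
      (fun a ha => hA1U a ha i) (fun a ha => hA1U a ha j)
    have e2 := two A2 hA2sub hA2inf j hj hij (V i) (V j) (hP.le _ _ hKi).2 (hP.le _ _ hKj).2
      (fun a ha => hA2V a ha i hi) (fun a ha => hA2V a ha j hj)
    have e3 := hP.c1 _ _ _ _ hKi hKj
    have hc2 : c ^ k = c ^ (k - 2) * c ^ 2 := by
      rw [← pow_add]
      congr 1
      omega
    rw [hcard, hc2]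
    calc (A1.card : ℝ) + A2.card
        ≤ c ^ (k - 2) * ((U i).card * (U j).card * P) +
            c ^ (k - 2) * ((V i).card * (V j).card * P) := add_le_add e1 e2
      _ = c ^ (k - 2) * (((U i).card * (U j).card + (V i).card * (V j).card : ℝ) * P) := by ring
      _ ≤ c ^ (k - 2) * (c ^ 2 * P) := by
          apply mul_le_mul_of_nonneg_left _ (pow_nonneg hc0.le _)
          exact mul_le_mul_of_nonneg_right e3 hP0
      _ = c ^ (k - 2) * c ^ 2 * P := by ring
  push Not at h2
  obtain ⟨j, hij, hbj⟩ : ∃ j, i ≠ j ∧ b j ≠ m j := by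
    by_contra hcon
    push Not at hcon
    apply hbi
    have : update m i (b i) = b := by
      funext l
      by_cases hli : l = i
      · subst hli
        rw [update_self]
      · rw [update_of_ne hli]
        exact (hcon l (Ne.symm hli)).symm
    simp only [hS, mem_filter, mem_univ, true_and, this]
    exact hbA
  have hmbj : m j < b j := lt_of_le_of_ne (hmb j) (Ne.symm hbj)
  have hKi := hKl i hi hbi
  by_cases hj : j ∈ I
  · have hk2 : 2 ≤ k := by
      rw [← hIk]
      exact one_lt_card.2 ⟨i, hi, j, hj, hij⟩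
    have hUj : (U j).card ≤ τ := hL.t j (m j) (b j) hmbj
    have e1 := two A1 hA1sub hA1inf j hj hij (U i) (U j) (hP.le _ _ hKi).1 (hUj.trans hP.tau)
      (fun a ha => hA1U a ha i) (fun a ha => hA1U a ha j)
    have e3 := hP.c2 _ _ hKi
    have hc2 : c ^ k = c ^ (k - 2) * c ^ 2 := by
      rw [← pow_add]
      congr 1
      omega
    have hc1 : c ^ (k - 1) = c ^ (k - 2) * c := by
      rw [← pow_succ]
      congr 1
      omega
    rw [hcard, hc2]
    calc (A1.card : ℝ) + A2.card
        ≤ c ^ (k - 2) * ((U i).card * (U j).card * P) + c ^ (k - 1) * ((V i).card * P) :=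
          add_le_add e1 hA2one
      _ = c ^ (k - 2) * (((U i).card * (U j).card + (V i).card * c : ℝ) * P) := by
          rw [hc1]; ring
      _ ≤ c ^ (k - 2) * (c ^ 2 * P) := by
          apply mul_le_mul_of_nonneg_left _ (pow_nonneg hc0.le _)
          apply mul_le_mul_of_nonneg_right _ hP0
          refine le_trans ?_ e3
          apply add_le_add _ le_rfl
          apply mul_le_mul_of_nonneg_left _ (Nat.cast_nonneg _)
          exact_mod_cast hUj
      _ = c ^ (k - 2) * c ^ 2 * P := by ring
  · -- `j` is unrestricted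
    set Q := ∏ l ∈ Iᶜ.erase j, ((E l).card : ℝ) with hQ
    have hQ0 : 0 ≤ Q := hPnn _ _
    have hPQ : P = (E j).card * Q := (mul_prod_erase _ _ (mem_compl.2 hj)).symm
    set T' := (E j).filter (fun d => b j ≤ d) with hT'
    have hmj : m j ∈ E j := hE m hm j hj
    have hT'card : T'.card + 1 ≤ (E j).card := by
      have : T' ⊂ E j := by
        refine (filter_subset _ _).ssubset_of_ne ?_
        intro h
        have : m j ∈ T' := by rw [hT', h]; exact hmj
        rw [hT', mem_filter] at this
        exact absurd this.2 (not_le_of_gt hmbj)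
      exact card_lt_card this
    have e1 : (A1.card : ℝ) ≤ c ^ (k - 1) * ((U i).card * T'.card * Q) := by
      have h1 := ih (k - 1) (by omega) (I.erase i) (update (update E i (U i)) j T') A1
        (by rw [card_erase_of_mem hi, hIk]) hA1inf ?_ ?_ ?_
      · rwa [prod_upd3 i hi j hj] at h1
      · intro a ha l hl
        by_cases hlj : l = j
        · subst hlj
          rw [update_self, hT', mem_filter]
          exact ⟨hE a (hA1sub ha) l hj, (mem_filter.1 ha).2 l⟩
        · rw [update_of_ne hlj]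
          by_cases hli : l = i
          · subst hli
            rw [update_self]
            exact hA1U a ha l
          · rw [update_of_ne hli]
            exact hE a (hA1sub ha) l (fun h => hl (mem_erase.2 ⟨hli, h⟩))
      · intro l hl
        by_cases hlj : l = j
        · subst hlj
          rw [update_self]
          exact (card_le_card (filter_subset _ _)).trans (hκ l hj)
        · rw [update_of_ne hlj]
          by_cases hli : l = i
          · subst hli
            rw [update_self]
            exact (hP.le _ _ hKi).1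
          · rw [update_of_ne hli]
            exact hκ l (fun h => hl (mem_erase.2 ⟨hli, h⟩))
      · intro l hl a
        exact sub_R A1 hA1sub l (mem_of_mem_erase hl) a
    have e3 := hP.c3 _ _ (E j).card hKi (by omega) (hκ j hj)
    rw [hcard, hck]
    calc (A1.card : ℝ) + A2.card
        ≤ c ^ (k - 1) * ((U i).card * T'.card * Q) + c ^ (k - 1) * ((V i).card * P) :=
          add_le_add e1 hA2one
      _ = c ^ (k - 1) * (((U i).card * T'.card + (V i).card * (E j).card : ℝ) * Q) := by
          rw [hPQ]; ring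
      _ ≤ c ^ (k - 1) * ((c * (E j).card) * Q) := by
          apply mul_le_mul_of_nonneg_left _ (pow_nonneg hc0.le _)
          apply mul_le_mul_of_nonneg_right _ hQ0
          refine le_trans ?_ e3
          apply add_le_add _ le_rfl
          apply mul_le_mul_of_nonneg_left _ (Nat.cast_nonneg _)
          have : ((T'.card + 1 : ℕ) : ℝ) ≤ (E j).card := by exact_mod_cast hT'card
          push_cast at this
          linarith
      _ = c ^ (k - 1) * c * P := by rw [hPQ]; ring

end

end Pool.Agent.Y347.CO
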