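import Pool.Agent.Y347.CO.Stm4

set_option autoImplicit false

/-!
# Sensitivity of circuits of constant depth: consequences
-/

namespace Pool.Agent.Y347.CO

open Finset Function

section
variable {N : ℕ}

/-- the sensitive coordinates -/
def sens (f : (Fin N → Bool) → Bool) (x : Fin N → Bool) : Finset (Fin N) :=
  univ.filter fun i => f (update x i (!(x i))) ≠ f x

theorem sens_card_le (f : (Fin N → Bool) → Bool) (x : Fin N → Bool) : (sens f x).card ≤ N := by
  refine (card_filter_le _ _).trans ?_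
  rw [card_univ, Fintype.card_fin]

/-- the constant -/
def KK (d w ℓ : ℕ) : ℕ := (2 ^ (d + 9) * (w * ℓ)) ^ d

/-- the tail bound for real thresholds -/
theorem tail_real (hT : S_TAIL) {w : ℕ} (C : Y603.MS.Circuit w N) {ℓ d : ℕ} (hleak : C.leak = ∅)
    (hℓ : 1 ≤ ℓ) (hw : 1 ≤ w) (hd1 : 1 ≤ d) (hs : Nat.card C.Node ≤ 2 ^ ℓ)
    (hd : ∀ v, C.depth v ≤ d) (o : C.Node) (κ : ℝ) (B : Finset (Fin N → Bool))
    (hB : ∀ x ∈ B, κ ≤ ((sens (C.val o) x).card : ℝ)) :
    (B.card : ℝ) ≤ 2 ^ N * (2 : ℝ) ^ (2 * ℓ + 4 - κ / (d * KK d w ℓ)) := by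
  set K := KK d w ℓ with hK
  have hK0 : 0 < K := by
    rw [hK, KK]
    have : 0 < w * ℓ := Nat.mul_pos hw hℓ
    positivity
  have hK' : (1 : ℝ) ≤ K := by exact_mod_cast hK0
  have hd' : (1 : ℝ) ≤ d := by exact_mod_cast hd1
  have hℓ' : (1 : ℝ) ≤ ℓ := by exact_mod_cast hℓ
  have hBc : (B.card : ℝ) ≤ 2 ^ N := by
    have := card_le_univ B
    simp only [Fintype.card_pi, Fintype.card_bool, prod_const, card_univ, Fintype.card_fin] at this
    exact_mod_cast this
  by_cases hsmall : κ / (2 * K) - ℓ - 1 < d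
  · -- trivial bound
    have h1 : κ / (d * K) ≤ 2 * ℓ + 4 := by
      rw [div_le_iff₀ (by positivity)]
      have h2 : κ < (d + ℓ + 1) * (2 * K) := by
        rw [← div_lt_iff₀ (by positivity)]
        linarith
      have h3 : ((d : ℝ) + ℓ + 1) * (2 * K) ≤ (2 * ℓ + 4) * (d * K) := by
        have : (d : ℝ) + ℓ + 1 ≤ (ℓ + 2) * d := by nlinarith
        nlinarith
      linarith
    have h2 : (1 : ℝ) ≤ (2 : ℝ) ^ (2 * ℓ + 4 - κ / (d * K)) :=
      Real.one_le_rpow (by norm_num) (by linarith)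
    have h3 : (0 : ℝ) < 2 ^ N := by positivity
    nlinarith
  push Not at hsmall
  set u : ℝ := (κ / (2 * K) - ℓ - 1) / d with hu
  have hu1 : 1 ≤ u := by
    rw [hu, le_div_iff₀ (by linarith)]
    linarith
  set t := ⌊u⌋₊ with ht
  have ht1 : 1 ≤ t := Nat.one_le_floor_iff _ |>.2 hu1
  have htu : (t : ℝ) ≤ u := Nat.floor_le (by linarith)
  have htu' : u < t + 1 := Nat.lt_floor_add_one u
  have hdt : (d : ℝ) * t + ℓ + 1 ≤ κ / (2 * K) := by
    have : (d : ℝ) * t ≤ d * u := mul_le_mul_of_nonneg_left htu (by linarith)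
    have e : (d : ℝ) * u = κ / (2 * K) - ℓ - 1 := by
      rw [hu]
      field_simp
    linarith
  have hκ : (2 * K * (d * t + ℓ + 1) : ℕ) ≤ κ := by
    push_cast
    have := (le_div_iff₀ (by positivity : (0 : ℝ) < 2 * K)).1 hdt
    linarith
  have h := hT w N C ℓ d t (2 * K * (d * t + ℓ + 1)) hleak hℓ hw ht1 hs hd le_rfl o B (by
    intro x hx
    have h1 := hκ.trans (hB x hx)
    exact_mod_cast h1)
  have h' : (B.card : ℝ) * 4 ^ t ≤ 2 ^ N := by exact_mod_cast h
  have h2 : (B.card : ℝ) ≤ 2 ^ N * (2 : ℝ) ^ (-(2 * (t : ℝ))) := by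
    have e : (2 : ℝ) ^ (-(2 * (t : ℝ))) = ((4 : ℝ) ^ t)⁻¹ := by
      rw [Real.rpow_neg (by norm_num)]
      congr 1
      have : 2 * (t : ℝ) = ((2 * t : ℕ) : ℝ) := by push_cast; ring
      rw [this, Real.rpow_natCast, pow_mul]
      norm_num
    rw [e, ← div_eq_mul_inv, le_div_iff₀ (by positivity)]
    exact h'
  refine h2.trans (mul_le_mul_of_nonneg_left ?_ (by positivity))
  apply Real.rpow_le_rpow_of_exponent_le (by norm_num)
  have h3 : κ / (d * K) = 2 * (κ / (2 * K)) / d := by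
    field_simp
  have h4 : u = κ / (2 * K) / d - (ℓ + 1) / d := by
    rw [hu]
    field_simp
    ring
  have h5 : ((ℓ : ℝ) + 1) / d ≤ ℓ + 1 := div_le_self (by linarith) hd'
  have h6 : κ / (d * K) = 2 * u + 2 * ((ℓ + 1) / d) := by
    rw [h3, h4]
    ring
  linarith

/-- the total sensitivity of a large set decided by a circuit is small -/
theorem sum_sens (hT : S_TAIL) {w : ℕ} (C : Y603.MS.Circuit w N) {ℓ d : ℕ} (hleak : C.leak = ∅)
    (hℓ : 1 ≤ ℓ) (hw : 1 ≤ w) (hd1 : 1 ≤ d) (hs : Nat.card C.Node ≤ 2 ^ ℓ)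
    (hd : ∀ v, C.depth v ≤ d) (o : C.Node) (D : Finset (Fin N)) (F : Finset (Fin N → Bool))
    {ε : ℝ} (hε : 0 < ε)
    (hF : 2 / ε * (2 ^ N * (2 : ℝ) ^ (2 * ℓ + 4 - ε / 2 * D.card / (d * KK d w ℓ))) ≤ F.card) :
    ∑ x ∈ F, (((sens (C.val o) x) ∩ D).card : ℝ) ≤ ε * D.card * F.card := by
  classical
  set κ : ℝ := ε / 2 * D.card with hκ
  set B := F.filter fun x => κ ≤ ((sens (C.val o) x).card : ℝ) with hB
  have h1 := tail_real hT C hleak hℓ hw hd1 hs hd o κ B (fun x hx => (mem_filter.1 hx).2)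
  have h2 : (B.card : ℝ) ≤ ε / 2 * F.card := by
    refine h1.trans ?_
    have := mul_le_mul_of_nonneg_left hF (by positivity : 0 ≤ ε / 2)
    refine le_trans (le_of_eq ?_) this
    field_simp
  have h3 : ∀ x ∈ F, (((sens (C.val o) x) ∩ D).card : ℝ) ≤
      κ + (if κ ≤ ((sens (C.val o) x).card : ℝ) then (D.card : ℝ) else 0) := by
    intro x _
    have hκ0 : 0 ≤ κ := by positivity
    split_ifs with h
    · have : (((sens (C.val o) x) ∩ D).card : ℝ) ≤ D.card := by
        exact_mod_cast card_le_card inter_subset_right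
      linarith
    · push Not at h
      have : (((sens (C.val o) x) ∩ D).card : ℝ) ≤ (sens (C.val o) x).card := by
        exact_mod_cast card_le_card inter_subset_left
      linarith
  refine (sum_le_sum h3).trans ?_
  rw [sum_add_distrib, sum_const, nsmul_eq_mul, ← sum_filter, sum_const, nsmul_eq_mul]
  have h4 : (B.card : ℝ) * D.card ≤ ε / 2 * F.card * D.card :=
    mul_le_mul_of_nonneg_right h2 (Nat.cast_nonneg _)
  rw [hκ]
  rw [hB, hκ] at h4
  linarith

end

end Pool.Agent.Y347.CO
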