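import Pool.Agent.Y347.CO.Hj

set_option autoImplicit false

/-!
# Statements of further parts
-/

namespace Pool.Agent.Y347.CO

open Finset Function

/-- large families closed under all self-dual operations which are not good -/
def S_SELF : Prop :=
  ∀ d m : ℕ, 1 ≤ d → ∃ S : Finset (Finset (Fin d → Fin (2 * m))), ¬ Good S ∧
    (∀ (k : ℕ) (f : (Fin k → Bool) → Bool), (∀ v, f (fun l => !(v l)) = !(f v)) → ClosedF S f) ∧
    S.card * 2 ^ m = 2 ^ ((2 * m) ^ d)

end Pool.Agent.Y347.CO
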