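import Pool.Agent.Y603.MS.Close

set_option autoImplicit false

/-!
# Sensitivity of circuits of constant depth: statement
-/

namespace Pool.Agent.Y347.CO

open Finset Function

/-- **Points of large sensitivity are rare**: at most `2 ^ N / 4 ^ t` points have sensitivity at least
`2 K (d t + ℓ + 1)`, `K = (2 ^ (d + 9) w ℓ) ^ d`. -/
def S_TAIL : Prop :=
  ∀ (w N : ℕ) (C : Y603.MS.Circuit w N) (ℓ d t κ : ℕ), C.leak = ∅ → 1 ≤ ℓ → 1 ≤ w → 1 ≤ t →
    Nat.card C.Node ≤ 2 ^ ℓ → (∀ v, C.depth v ≤ d) →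
    2 * (2 ^ (d + 9) * (w * ℓ)) ^ d * (d * t + ℓ + 1) ≤ κ →
    ∀ (o : C.Node) (B : Finset (Fin N → Bool)),
      (∀ x ∈ B, κ ≤ (univ.filter fun i => C.val o (update x i (!(x i))) ≠ C.val o x).card) →
      B.card * 4 ^ t ≤ 2 ^ N

end Pool.Agent.Y347.CO
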